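import Pool.Agent.helper11.FS.Top

open Polynomial Finset

namespace FS12

open FR11 FS11

variable {F : Type} [Field F]

/-- the estimate for general parameters -/
theorem main_gen [Fintype F] (h2 : (2 : F) ≠ 0) {q : ℕ} (hq2 : 2 ≤ q) {x G H K B : ℝ}
    (hQ1 : 2 ≤ (Fintype.card F : ℝ)) (hG : 1 ≤ G)
    (hK : 1 ≤ K) (hH : H ^ 2 = K * G) (hH1 : 1 ≤ H) (hKx : K ≤ x)
    (hxQ : x ≤ Fintype.card F) (hbig : x ≤ G ^ ((q - 2).choose 2))
    (hcor : ∀ τ t c : ℕ, τ ≤ t → t ≤ c → 1 ≤ c →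
      K * ((2 + (τ : ℝ)) * G ^ (t - 1) / (Fintype.card F : ℝ) + 1 - 1 / (Fintype.card F : ℝ)) *
        x ^ τ ≤ (K * G) ^ (c - τ) * (Fintype.card F : ℝ) ^ τ)
    (hdig : x * H ^ 2 + ((Fintype.card F : ℝ) - 1) * (K / x) ≤ Fintype.card F)
    (hdig2 : K / x ≤ x * H ^ 2)
    (hrun : ∀ s : ℕ, 1 ≤ s → (Fintype.card F : ℝ) * s / (1 + s) +
      ((Fintype.card F : ℝ) - 1) * (K / (1 + s)) ≤ Fintype.card F ∧
      K / (1 + s) ≤ (Fintype.card F : ℝ) * s / (1 + s))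
    (hB0 : 0 ≤ B)
    (hB : ∀ n : ℕ, ∑ j0 ∈ range n, 2 * (1 / K) ^ (n - 1 - j0) ≤ B) (n : ℕ) :
    ∑ α : Fin ((q + 1) * n) → F,
        (((Fintype.card F : ℝ) * x ^ q) ^ (SS q (ex _ α) n).card) ≤
      (2 * ((Fintype.card F : ℝ) ^ (q + 1) * (x ^ (q * q) * x ^ q) * (1 + B))) *
        (Fintype.card F : ℝ) ^ ((q + 1) * n) := by
  classical
  set Q : ℝ := (Fintype.card F : ℝ) with hQd
  have hx : 1 ≤ x := hK.trans hKx
  have hx0 : 0 < x := by linarith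
  have hQ0 : 0 < Q := by linarith
  set y : ℝ := Q * x ^ q with hyd
  have hy2 : 2 ≤ y := by
    have h3 : 1 ≤ x ^ q := one_le_pow₀ hx
    rw [hyd]
    nlinarith
  have hy0 : 0 < y := by linarith
  set C : ℝ := (Q ^ (q + 1) * (x ^ (q * q) * x ^ q)) * (1 + B) with hCd
  have hC1 : 1 ≤ C := by
    have h3 : 1 ≤ Q ^ (q + 1) := one_le_pow₀ (by linarith)
    have h4 : 1 ≤ x ^ (q * q) * x ^ q := by
      rw [← pow_add]
      exact one_le_pow₀ hx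
    have h6 : 1 ≤ Q ^ (q + 1) * (x ^ (q * q) * x ^ q) := by nlinarith
    rw [hCd]
    nlinarith
  rcases n with _ | n
  · have h3 : ∀ α : Fin ((q + 1) * 0) → F, y ^ (SS q (ex _ α) 0).card = 1 := by
      intro α
      rw [SS_zero, card_empty, pow_zero]
    rw [sum_congr rfl (fun α _ => h3 α)]
    simp
    linarith
  · calc ∑ α : Fin ((q + 1) * (n + 1)) → F, y ^ (SS q (ex _ α) (n + 1)).card
        ≤ ∑ α : Fin ((q + 1) * (n + 1)) → F, ∑ j ∈ range (n + 1),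
          (if NL q (ex _ α) j then y ^ (SS q (ex _ α) (j + 1)).card else 0) *
            (1 / y) ^ (n - j) := sum_le_sum (fun α _ => split (by linarith) (ex _ α) n)
      _ = ∑ j ∈ range (n + 1), (∑ α : Fin ((q + 1) * (n + 1)) → F,
          (if NL q (ex _ α) j then y ^ (SS q (ex _ α) (j + 1)).card else 0)) *
            (1 / y) ^ (n - j) := by
          rw [sum_comm]
          refine sum_congr rfl (fun j _ => ?_)
          rw [sum_mul]
      _ ≤ ∑ j ∈ range (n + 1), (C * Q ^ ((q + 1) * (n + 1))) * (1 / y) ^ (n - j) := by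
          refine sum_le_sum (fun j hj => ?_)
          apply mul_le_mul_of_nonneg_right _ (by positivity)
          have hj' := mem_range.mp hj
          exact horizon h2 hq2 (by linarith) hG hK hH hH1 hKx hxQ hbig hcor hdig hdig2 hrun
            (Nat.mul_le_mul_left (q + 1) hj') (hB (j + 1))
      _ = (C * Q ^ ((q + 1) * (n + 1))) * ∑ j ∈ range (n + 1), (1 / y) ^ j := by
          rw [← mul_sum, ← sum_range_reflect (fun i => (1 / y) ^ i) (n + 1)]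
          rfl
      _ ≤ (C * Q ^ ((q + 1) * (n + 1))) * 2 := by
          apply mul_le_mul_of_nonneg_left _ (by positivity)
          have h4 : 1 / y ≤ 1 / 2 := one_div_le_one_div_of_le (by norm_num) hy2
          have h5 : 0 ≤ 1 / y := by positivity
          calc ∑ j ∈ range (n + 1), (1 / y) ^ j ≤ ∑ j ∈ range (n + 1), (1 / 2 : ℝ) ^ j :=
              sum_le_sum (fun j _ => pow_le_pow_left₀ h5 h4 j)
            _ ≤ 2 := sum_geometric_two_le (n + 1)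
      _ = 2 * C * Q ^ ((q + 1) * (n + 1)) := by ring

theorem n9_key (τ : ℕ) : ((2 + ((τ : ℝ) + 1 + 1)) * ((10 / 9) ^ τ * (10 / 9)) / 9 + 1 - 1 / 9) *
    (353 / 50) ≤ 9 * ((2 + ((τ : ℝ) + 1)) * (10 / 9) ^ τ / 9 + 1 - 1 / 9) := by
  rcases Nat.lt_or_ge τ 4 with h | h
  · interval_cases τ <;> norm_num
  · have h1 : (0 : ℝ) < (10 / 9) ^ τ := by positivity
    have h2 : (4 : ℝ) ≤ (τ : ℝ) := by exact_mod_cast h
    nlinarith [mul_nonneg (sub_nonneg.2 h2) h1.le]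

theorem n9_f (τ : ℕ) : (1 + 1 / 500 : ℝ) * ((2 + ((τ : ℝ) + 1)) * (10 / 9) ^ τ / 9 + 1 - 1 / 9) *
    (353 / 50) ^ (τ + 1) ≤ 9 ^ (τ + 1) := by
  induction τ with
  | zero => norm_num
  | succ τ ih =>
    have h1 : (0 : ℝ) < (10 / 9) ^ τ := by positivity
    have h2 : (1 : ℝ) ≤ (10 / 9) ^ τ := one_le_pow₀ (by norm_num)
    have h3 : (0 : ℝ) ≤ (τ : ℝ) := Nat.cast_nonneg _
    have h4 : (0 : ℝ) < (353 / 50 : ℝ) ^ (τ + 1) := by positivity
    push_cast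
    rw [pow_succ (353 / 50 : ℝ) (τ + 1), pow_succ (9 : ℝ) (τ + 1), pow_succ (10 / 9 : ℝ) τ]
    set u : ℝ := (10 / 9) ^ τ with hu
    set P : ℝ := (353 / 50 : ℝ) ^ (τ + 1) with hP
    have key : ((2 + ((τ : ℝ) + 1 + 1)) * (u * (10 / 9)) / 9 + 1 - 1 / 9) * (353 / 50) ≤
        9 * ((2 + ((τ : ℝ) + 1)) * u / 9 + 1 - 1 / 9) := n9_key τ
    calc (1 + 1 / 500 : ℝ) * ((2 + ((τ : ℝ) + 1 + 1)) * (u * (10 / 9)) / 9 + 1 - 1 / 9) *
        (P * (353 / 50))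
        = ((1 + 1 / 500 : ℝ) * P) *
          (((2 + ((τ : ℝ) + 1 + 1)) * (u * (10 / 9)) / 9 + 1 - 1 / 9) * (353 / 50)) := by ring
      _ ≤ ((1 + 1 / 500 : ℝ) * P) * (9 * ((2 + ((τ : ℝ) + 1)) * u / 9 + 1 - 1 / 9)) :=
          mul_le_mul_of_nonneg_left key (by positivity)
      _ = ((1 + 1 / 500 : ℝ) * ((2 + ((τ : ℝ) + 1)) * u / 9 + 1 - 1 / 9) * P) * 9 := by ring
      _ ≤ 9 ^ (τ + 1) * 9 := mul_le_mul_of_nonneg_right ih (by norm_num)

theorem n9_corner {τ t c : ℕ} (h1 : τ ≤ t) (h2 : t ≤ c) (h3 : 1 ≤ c) :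
    (1 + 1 / 500 : ℝ) * ((2 + (τ : ℝ)) * (10 / 9) ^ (t - 1) / 9 + 1 - 1 / 9) * (353 / 50) ^ τ ≤
      ((1 + 1 / 500) * (10 / 9)) ^ (c - τ) * 9 ^ τ := by
  rcases Nat.eq_zero_or_pos τ with h0 | h0
  · subst h0
    obtain ⟨b, rfl⟩ : ∃ b, c = b + 1 := ⟨c - 1, by omega⟩
    have h4 : ((10 / 9 : ℝ)) ^ (t - 1) ≤ (10 / 9) ^ b :=
      pow_le_pow_right₀ (by norm_num) (by omega)
    have h5 : (1 : ℝ) ≤ (10 / 9 : ℝ) ^ b := one_le_pow₀ (by norm_num)
    have h6 : (1 : ℝ) ≤ (1 + 1 / 500 : ℝ) ^ b := one_le_pow₀ (by norm_num)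
    rw [Nat.sub_zero, pow_zero, pow_zero, mul_one, mul_one, mul_pow, pow_succ, pow_succ]
    push_cast
    set u : ℝ := (10 / 9 : ℝ) ^ b with hu
    set v : ℝ := (1 + 1 / 500 : ℝ) ^ b with hv
    have h7 : (2 + 0) * (10 / 9 : ℝ) ^ (t - 1) / 9 + 1 - 1 / 9 ≤ u * (10 / 9) := by
      nlinarith
    calc (1 + 1 / 500 : ℝ) * ((2 + 0) * (10 / 9 : ℝ) ^ (t - 1) / 9 + 1 - 1 / 9)
        ≤ (1 + 1 / 500 : ℝ) * (u * (10 / 9)) := mul_le_mul_of_nonneg_left h7 (by norm_num)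
      _ ≤ v * (1 + 1 / 500) * (u * (10 / 9)) := by
          have h8 : 0 ≤ (1 + 1 / 500 : ℝ) * (u * (10 / 9)) := by positivity
          nlinarith
  · obtain ⟨s, rfl⟩ : ∃ s, τ = s + 1 := ⟨τ - 1, by omega⟩
    obtain ⟨w, rfl⟩ : ∃ w, c = s + 1 + w := ⟨c - (s + 1), by omega⟩
    have h4 : s + 1 + w - (s + 1) = w := by omega
    rw [h4]
    have h5 : ((10 / 9 : ℝ)) ^ (t - 1) ≤ (10 / 9) ^ s * (10 / 9) ^ w := by
      rw [← pow_add]
      exact pow_le_pow_right₀ (by norm_num) (by omega)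
    have h6 : (1 : ℝ) ≤ (10 / 9 : ℝ) ^ w := one_le_pow₀ (by norm_num)
    have h7 : (1 : ℝ) ≤ (1 + 1 / 500 : ℝ) ^ w := one_le_pow₀ (by norm_num)
    have h8 : (0 : ℝ) < (10 / 9 : ℝ) ^ s := by positivity
    have h9 : (0 : ℝ) ≤ (s : ℝ) := Nat.cast_nonneg _
    rw [mul_pow]
    push_cast
    set u : ℝ := (10 / 9 : ℝ) ^ w with hu
    set v : ℝ := (1 + 1 / 500 : ℝ) ^ w with hv
    set r : ℝ := (10 / 9 : ℝ) ^ s with hr
    have h10 : (2 + ((s : ℝ) + 1)) * (10 / 9 : ℝ) ^ (t - 1) / 9 + 1 - 1 / 9 ≤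
        u * ((2 + ((s : ℝ) + 1)) * r / 9 + 1 - 1 / 9) := by
      have h11 : (2 + ((s : ℝ) + 1)) * (10 / 9 : ℝ) ^ (t - 1) ≤ (2 + ((s : ℝ) + 1)) * (r * u) :=
        mul_le_mul_of_nonneg_left h5 (by positivity)
      nlinarith
    calc (1 + 1 / 500 : ℝ) * ((2 + ((s : ℝ) + 1)) * (10 / 9 : ℝ) ^ (t - 1) / 9 + 1 - 1 / 9) *
          (353 / 50) ^ (s + 1)
        ≤ (1 + 1 / 500 : ℝ) * (u * ((2 + ((s : ℝ) + 1)) * r / 9 + 1 - 1 / 9)) *
          (353 / 50) ^ (s + 1) := by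
          apply mul_le_mul_of_nonneg_right _ (by positivity)
          exact mul_le_mul_of_nonneg_left h10 (by norm_num)
      _ = u * ((1 + 1 / 500 : ℝ) * ((2 + ((s : ℝ) + 1)) * r / 9 + 1 - 1 / 9) *
          (353 / 50) ^ (s + 1)) := by ring
      _ ≤ u * 9 ^ (s + 1) := mul_le_mul_of_nonneg_left (n9_f s) (by positivity)
      _ ≤ v * u * 9 ^ (s + 1) := by
          apply mul_le_mul_of_nonneg_right _ (by positivity)
          nlinarith

theorem nine_full : (9 : ℝ) ^ 9 ≤ 9 * (353 / 50) ^ 9 := by norm_num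

/-- nine elements -/
theorem main_est9 [Fintype F] (h2 : (2 : F) ≠ 0) (hQ : Fintype.card F = 9) (q : ℕ)
    (hq : q = 9) :
    ∃ C : ℝ, 0 < C ∧ ∀ n : ℕ, ∑ α : Fin ((q + 1) * n) → F,
      (((9 : ℝ) * (353 / 50) ^ 9) ^ (SS q (ex _ α) n).card) ≤
        C * (Fintype.card F : ℝ) ^ ((q + 1) * n) := by
  subst hq
  have hQR : (Fintype.card F : ℝ) = 9 := by exact_mod_cast hQ
  set H : ℝ := Real.sqrt ((1 + 1 / 500) * (10 / 9)) with hHd
  have hH : H ^ 2 = (1 + 1 / 500) * (10 / 9) := Real.sq_sqrt (by positivity)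
  have hH1 : 1 ≤ H := by
    rw [hHd]
    exact Real.one_le_sqrt.mpr (by norm_num)
  have hgeo : ∀ n : ℕ, ∑ j0 ∈ range n, 2 * (1 / (1 + 1 / 500 : ℝ)) ^ (n - 1 - j0) ≤ 1002 := by
    intro n
    rw [← mul_sum, sum_range_reflect (fun i => (1 / (1 + 1 / 500 : ℝ)) ^ i) n]
    rw [geom_sum_eq (by norm_num)]
    have h3 : 0 ≤ (1 / (1 + 1 / 500 : ℝ)) ^ n := by positivity
    have h4 : ((1 / (1 + 1 / 500 : ℝ)) ^ n - 1) / (1 / (1 + 1 / 500 : ℝ) - 1) =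
        (1 - (1 / (1 + 1 / 500 : ℝ)) ^ n) * 501 := by
      have h5 : 1 / (1 + 1 / 500 : ℝ) - 1 = -(1 / 501) := by norm_num
      rw [h5]
      field_simp
      ring
    rw [h4]
    nlinarith
  have hmain := main_gen (F := F) h2 (q := 9) (by norm_num) (x := 353 / 50) (G := 10 / 9)
    (H := H) (K := 1 + 1 / 500) (B := 1002) (by rw [hQR]; norm_num) (by norm_num) (by norm_num)
    hH hH1 (by norm_num) (by rw [hQR]; norm_num)
    (by
      have h3 : (9 - 2).choose 2 = 21 := by decide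
      rw [h3]
      norm_num)
    (by
      intro τ t c h3 h4 h5
      rw [hQR]
      exact n9_corner h3 h4 h5)
    (by rw [hQR, hH]; norm_num) (by rw [hH]; norm_num)
    (by
      intro s hs
      have hs1 : (1 : ℝ) ≤ s := by exact_mod_cast hs
      have hs0 : (0 : ℝ) < 1 + s := by linarith
      rw [hQR]
      constructor
      · rw [← mul_div_assoc, ← add_div, div_le_iff₀ hs0]
        nlinarith
      · apply div_le_div_of_nonneg_right _ hs0.le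
        nlinarith)
    (by norm_num) hgeo
  rw [hQR] at hmain ⊢
  exact ⟨_, by positivity, hmain⟩

end FS12
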