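import Mathlib

open Finset

namespace FS11

theorem n4b_second {a : ℝ} (ha : 0 ≤ a) (n : ℕ) :
    1 + n * a + n * (n - 1) / 2 * a ^ 2 ≤ (1 + a) ^ n := by
  induction n with
  | zero => simp
  | succ n ih =>
    rw [pow_succ]
    have h1 : (1 + n * a + n * (n - 1) / 2 * a ^ 2) * (1 + a) ≤ (1 + a) ^ n * (1 + a) :=
      mul_le_mul_of_nonneg_right ih (by linarith)
    refine le_trans ?_ h1
    have h2 : 0 ≤ (n : ℝ) * (n - 1) := by
      rcases Nat.eq_zero_or_pos n with h | h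
      · simp [h]
      · have : (1 : ℝ) ≤ n := by exact_mod_cast h
        nlinarith
    have h3 : 0 ≤ (n : ℝ) * (n - 1) / 2 * a ^ 3 := by positivity
    push_cast
    nlinarith [h3]

theorem n4_big {Q q : ℕ} (hQ : 9 ≤ Q) (hq : Q ≤ q) :
    (Q : ℝ) - 2 ≤ (1 + 1 / (Q : ℝ)) ^ ((q - 2).choose 2) := by
  have hQ0 : (9 : ℝ) ≤ Q := by exact_mod_cast hQ
  have hpos : (0 : ℝ) < Q := by linarith
  have h1 : (1 : ℝ) ≤ 1 + 1 / (Q : ℝ) := by
    have : (0 : ℝ) ≤ 1 / (Q : ℝ) := by positivity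
    linarith
  have hch : (Q - 2).choose 2 ≤ (q - 2).choose 2 := Nat.choose_le_choose 2 (by omega)
  refine le_trans ?_ (pow_le_pow_right₀ h1 hch)
  rcases Nat.eq_or_lt_of_le hQ with h9 | h9
  · subst h9
    norm_num [Nat.choose]
  · rcases Nat.eq_or_lt_of_le (Nat.succ_le_of_lt h9) with h10 | h10
    · subst h10
      norm_num [Nat.choose]
    · have h11 : (11 : ℝ) ≤ Q := by exact_mod_cast h10
      have hc : (((Q - 2).choose 2 : ℕ) : ℝ) = ((Q : ℝ) - 2) * ((Q : ℝ) - 3) / 2 := by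
        rw [Nat.cast_choose_two, Nat.cast_sub (by omega)]
        push_cast
        ring
      have h2 := n4b_second (a := 1 / (Q : ℝ)) (by positivity) ((Q - 2).choose 2)
      refine le_trans ?_ h2
      rw [hc]
      set X : ℝ := (Q : ℝ) with hX
      have hX0 : X ≠ 0 := by positivity
      have e : 1 + (X - 2) * (X - 3) / 2 * (1 / X)
          + (X - 2) * (X - 3) / 2 * ((X - 2) * (X - 3) / 2 - 1) / 2 * (1 / X) ^ 2 - (X - 2)
          = (X ^ 4 - 14 * X ^ 3 + 39 * X ^ 2 - 26 * X + 24) / (8 * X ^ 2) := by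
        field_simp
        ring
      have hp : 0 ≤ X ^ 4 - 14 * X ^ 3 + 39 * X ^ 2 - 26 * X + 24 := by
        have ht : 0 ≤ X - 11 := by linarith
        have : X ^ 4 - 14 * X ^ 3 + 39 * X ^ 2 - 26 * X + 24
            = 464 + 1074 * (X - 11) + 303 * (X - 11) ^ 2 + 30 * (X - 11) ^ 3 + (X - 11) ^ 4 := by
          ring
        rw [this]
        positivity
      have : 0 ≤ (X ^ 4 - 14 * X ^ 3 + 39 * X ^ 2 - 26 * X + 24) / (8 * X ^ 2) := by positivity
      linarith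

theorem n4_step {X : ℝ} (hX : 11 ≤ X) {m : ℕ} (hm : (m : ℝ) = X)
    (ih : X ^ m ≤ X * (X - 2) ^ m) : (X + 1) ^ m ≤ (X - 1) ^ (m + 1) := by
  have h3 : 0 < X - 2 := by linarith
  have h2 : 0 < X - 1 := by linarith
  have h1 : 0 < X + 1 := by linarith
  have h0 : 0 < X := by linarith
  have hB : 1 + (m : ℝ) * (2 / ((X + 1) * (X - 2))) ≤ (1 + 2 / ((X + 1) * (X - 2))) ^ m :=
    one_add_mul_le_pow (le_trans (by norm_num) (by positivity : (0 : ℝ) ≤ 2 / ((X + 1) * (X - 2)))) m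
  have e1 : 1 + 2 / ((X + 1) * (X - 2)) = (X * (X - 1)) / ((X + 1) * (X - 2)) := by
    field_simp
    ring
  rw [e1, div_pow, hm, le_div_iff₀ (by positivity)] at hB
  have h4 : X / (X - 1) ≤ 1 + X * (2 / ((X + 1) * (X - 2))) := by
    have e2 : 1 + X * (2 / ((X + 1) * (X - 2))) - X / (X - 1)
        = (X ^ 2 - X + 2) / ((X + 1) * (X - 2) * (X - 1)) := by
      field_simp
      ring
    have : 0 ≤ (X ^ 2 - X + 2) / ((X + 1) * (X - 2) * (X - 1)) := by
      apply div_nonneg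
      · nlinarith
      · positivity
    linarith
  have h5 : X / (X - 1) * ((X + 1) * (X - 2)) ^ m ≤ (X * (X - 1)) ^ m :=
    le_trans (mul_le_mul_of_nonneg_right h4 (by positivity)) hB
  rw [mul_pow, mul_pow, div_mul_eq_mul_div, div_le_iff₀ h2] at h5
  have h6 : X ^ m * (X + 1) ^ m ≤ X ^ m * (X - 1) ^ (m + 1) := by
    calc X ^ m * (X + 1) ^ m ≤ (X * (X - 2) ^ m) * (X + 1) ^ m :=
          mul_le_mul_of_nonneg_right ih (by positivity)
      _ = X * ((X + 1) ^ m * (X - 2) ^ m) := by ring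
      _ ≤ X ^ m * (X - 1) ^ m * (X - 1) := h5
      _ = X ^ m * (X - 1) ^ (m + 1) := by ring
  exact le_of_mul_le_mul_left h6 (by positivity)

theorem n4_real (n : ℕ) : ((n : ℝ) + 11) ^ (n + 10) ≤ ((n : ℝ) + 9) ^ (n + 11) := by
  induction n with
  | zero => norm_num
  | succ n ih =>
    have hn : (0 : ℝ) ≤ n := Nat.cast_nonneg n
    have h := n4_step (X := (n : ℝ) + 11) (by linarith) (m := n + 11) (by push_cast; ring) (by
      have : ((n : ℝ) + 11) ^ (n + 11) = ((n : ℝ) + 11) * ((n : ℝ) + 11) ^ (n + 10) := by ring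
      rw [this]
      apply mul_le_mul_of_nonneg_left _ (by linarith)
      have e : (n : ℝ) + 11 - 2 = (n : ℝ) + 9 := by ring
      rw [e]
      exact ih)
    have e1 : ((n + 1 : ℕ) : ℝ) + 11 = (n : ℝ) + 11 + 1 := by push_cast; ring
    have e2 : ((n + 1 : ℕ) : ℝ) + 9 = (n : ℝ) + 11 - 1 := by push_cast; ring
    rw [e1, e2]
    have e3 : n + 1 + 10 = n + 11 := by ring
    have e4 : n + 1 + 11 = n + 11 + 1 := by ring
    rw [e3, e4]
    exact h

theorem n4_full {Q : ℕ} (hQ : 11 ≤ Q) : Q ^ (Q - 1) ≤ (Q - 2) ^ Q := by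
  obtain ⟨n, rfl⟩ : ∃ n, Q = n + 11 := ⟨Q - 11, by omega⟩
  have h := n4_real n
  have e1 : n + 11 - 1 = n + 10 := by omega
  have e2 : n + 11 - 2 = n + 9 := by omega
  rw [e1, e2]
  exact_mod_cast h

end FS11
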