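import Pool.Agent.helper11.FS.Defs

open Finset

namespace FS11

theorem h50_mem_rn {q : ℕ} {S : Finset ℕ} {j d : ℕ} :
    d ∈ rn q S j ↔ d ∈ S ∧ j - d < q ∧ ∀ i, d < i → i < j → i ∈ S := by
  classical
  unfold rn
  rw [mem_filter]

theorem h50_mem_mins {q : ℕ} {S : Finset ℕ} {d : ℕ} :
    d ∈ FR11.mins q S ↔ d ∈ S ∧ ∀ d' < d, d' ∈ S → d' % q ≠ d % q := by
  classical
  unfold FR11.mins
  rw [mem_filter]

/-- A0 -/
theorem tau_le_run (q : ℕ) (S : Finset ℕ) (j : ℕ) : tau q S j ≤ (rn q S j).card :=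
  card_le_card inter_subset_left

/-- the window has at most one element in each class -/
theorem h50_win_le {q : ℕ} {S W : Finset ℕ} {j : ℕ} (hS : S ⊆ range j) (hW : W ⊆ S)
    (h : ∀ d ∈ W, j - d < q) : W.card ≤ FR11.cl q S := by
  rw [← FR11.h50_inj (q := q) (j := j)]
  · unfold FR11.cl
    exact card_le_card (image_subset_image hW)
  · intro d hd
    exact ⟨(mem_range.1 (hS (hW hd))).le, h d hd⟩

/-- A1 -/
theorem run_le_cl {q : ℕ} (hq : 2 ≤ q) {S : Finset ℕ} {j : ℕ} (hS : S ⊆ range j) :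
    (rn q S j).card ≤ FR11.cl q S :=
  h50_win_le hS (fun _ hd => (h50_mem_rn.1 hd).1) (fun _ hd => (h50_mem_rn.1 hd).2.1)

theorem h50_notMem {S : Finset ℕ} {j : ℕ} (hS : S ⊆ range j) : j ∉ S :=
  fun h => lt_irrefl _ (mem_range.1 (hS h))

/-- no run at `j + 1` without the element `j` -/
theorem h50_rn_keep {q : ℕ} {S : Finset ℕ} {j : ℕ} (hS : S ⊆ range j) :
    rn q S (j + 1) = ∅ := by
  rw [eq_empty_iff_forall_notMem]
  intro d hd
  have h1 := h50_mem_rn.1 hd
  have h2 := mem_range.1 (hS h1.1)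
  exact h50_notMem hS (h1.2.2 j h2 (Nat.lt_succ_self j))

theorem h50_Vt_keep {x G : ℝ} {q : ℕ} {S : Finset ℕ} {j : ℕ} (hS : S ⊆ range j) :
    Vt x G q S (j + 1) = x ^ (∑ d ∈ S, min (j - d) q) *
      x ^ (S.filter (fun d => j - d < q)).card * (1 / x) ^ (FR11.cl q S) := by
  unfold Vt tau
  rw [h50_rn_keep hS, FR11.h50_sum_succ (fun d hd => mem_range.1 (hS hd)), pow_add]
  simp

theorem h50_rn_ins {q : ℕ} {S : Finset ℕ} {j d : ℕ} (hd : d ∈ rn q (insert j S) (j + 1))
    (hne : d ≠ j) : d ∈ rn q S j := by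
  have h1 := h50_mem_rn.1 hd
  have h2 : d ∈ S := by
    rcases mem_insert.1 h1.1 with h | h
    · exact absurd h hne
    · exact h
  refine h50_mem_rn.2 ⟨h2, by omega, ?_⟩
  intro i hi hij
  rcases mem_insert.1 (h1.2.2 i hi (by omega)) with h | h
  · omega
  · exact h

theorem h50_run_ins {q : ℕ} {S : Finset ℕ} {j : ℕ} :
    (rn q (insert j S) (j + 1)).card ≤ (rn q S j).card + 1 := by
  have h : rn q (insert j S) (j + 1) ⊆ insert j (rn q S j) := by
    intro d hd
    by_cases hne : d = j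
    · exact mem_insert.2 (Or.inl hne)
    · exact mem_insert_of_mem (h50_rn_ins hd hne)
  exact (card_le_card h).trans (card_insert_le _ _)

theorem h50_tau_mem {q : ℕ} {S : Finset ℕ} {j d : ℕ}
    (hd : d ∈ rn q (insert j S) (j + 1) ∩ FR11.mins q (insert j S)) (hne : d ≠ j) :
    d ∈ rn q S j ∩ FR11.mins q S := by
  have h1 := mem_inter.1 hd
  have h2 := h50_rn_ins h1.1 hne
  have h3 := h50_mem_mins.1 h1.2
  refine mem_inter.2 ⟨h2, h50_mem_mins.2 ⟨(h50_mem_rn.1 h2).1, ?_⟩⟩
  intro d' hd' hS'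
  exact h3.2 d' hd' (mem_insert_of_mem hS')

theorem h50_tau_ins {q : ℕ} {S : Finset ℕ} {j : ℕ} :
    tau q (insert j S) (j + 1) ≤ tau q S j + 1 := by
  have h : rn q (insert j S) (j + 1) ∩ FR11.mins q (insert j S) ⊆
      insert j (rn q S j ∩ FR11.mins q S) := by
    intro d hd
    by_cases hne : d = j
    · exact mem_insert.2 (Or.inl hne)
    · exact mem_insert_of_mem (h50_tau_mem hd hne)
  exact (card_le_card h).trans (card_insert_le _ _)

theorem h50_tau_occ {q : ℕ} {S : Finset ℕ} {j : ℕ} (hS : S ⊆ range j) (ho : occ q S j) :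
    tau q (insert j S) (j + 1) ≤ tau q S j := by
  apply card_le_card
  intro d hd
  apply h50_tau_mem hd
  rintro rfl
  obtain ⟨e, he, hee⟩ := ho
  exact (h50_mem_mins.1 (mem_inter.1 hd).2).2 e (mem_range.1 (hS he)) (mem_insert_of_mem he) hee

theorem h50_choose (r r' : ℕ) (h : r' ≤ r + 1) :
    (r' - 1).choose 2 ≤ (r - 1).choose 2 + (r - 1) := by
  have h1 : (r' - 1).choose 2 ≤ r.choose 2 := Nat.choose_le_choose 2 (by omega)
  refine h1.trans ?_
  rcases Nat.eq_zero_or_pos r with h0 | h0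
  · subst h0
    simp
  · obtain ⟨m, rfl⟩ : ∃ m, r = m + 1 := ⟨r - 1, by omega⟩
    have h2 : (m + 1).choose 2 = m.choose 1 + m.choose 2 := Nat.choose_succ_succ' m 1
    rw [Nat.add_sub_cancel, h2, Nat.choose_one_right]
    omega

theorem h50_sum_ins {q : ℕ} (hq : 2 ≤ q) {S : Finset ℕ} {j : ℕ} (hS : S ⊆ range j) :
    ∑ d ∈ insert j S, min (j + 1 - d) q =
      ∑ d ∈ S, min (j - d) q + ((S.filter (fun d => j - d < q)).card + 1) := by
  rw [sum_insert (h50_notMem hS), FR11.h50_sum_succ (fun d hd => mem_range.1 (hS hd))]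
  have : min (j + 1 - j) q = 1 := by omega
  omega

theorem h50_win_ins {q : ℕ} (hq : 2 ≤ q) {S : Finset ℕ} {j : ℕ} (hS : S ⊆ range j) :
    (S.filter (fun d => j - d < q)).card + 1 ≤ FR11.cl q (insert j S) := by
  have h3 : (insert j (S.filter (fun d => j - d < q))).card =
      (S.filter (fun d => j - d < q)).card + 1 := by
    apply card_insert_of_notMem
    intro h
    exact h50_notMem hS (mem_filter.1 h).1
  rw [← h3, ← FR11.h50_inj (q := q) (j := j)]
  · unfold FR11.cl
    apply card_le_card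
    apply image_subset_image
    apply insert_subset_insert
    exact filter_subset _ _
  · intro d hd
    rcases mem_insert.1 hd with h | h
    · subst h
      exact ⟨le_rfl, by omega⟩
    · have h4 := mem_filter.1 h
      exact ⟨(mem_range.1 (hS h4.1)).le, h4.2⟩

/-- A2: class of `j` met, with or without the new element -/
theorem Vt_occ {x G : ℝ} (hx : 1 ≤ x) (hG : 1 ≤ G) {q : ℕ} (hq : 2 ≤ q) {S S' : Finset ℕ} {j : ℕ}
    (hS : S ⊆ range j) (ho : occ q S j) (hS' : S' = S ∨ S' = insert j S) :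
    Vt x G q S' (j + 1) ≤ Vt x G q S j * (x ^ (FR11.cl q S) * G ^ (FR11.cl q S - 1)) := by
  have hx0 : 0 < x := by linarith
  have hG0 : 0 < G := by linarith
  have ht0 : (1 : ℝ) ≤ 1 + (tau q S j : ℝ) := by
    have : (0 : ℝ) ≤ (tau q S j : ℝ) := Nat.cast_nonneg _
    linarith
  have hG1 : ∀ k : ℕ, (1 : ℝ) ≤ G ^ k := fun k => one_le_pow₀ hG
  have hr := run_le_cl hq hS
  rcases hS' with rfl | rfl
  · rw [h50_Vt_keep hS]
    have hw : (S'.filter (fun d => j - d < q)).card ≤ FR11.cl q S' :=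
      h50_win_le hS (filter_subset _ _) (fun d hd => (mem_filter.1 hd).2)
    unfold Vt
    calc x ^ (∑ d ∈ S', min (j - d) q) * x ^ (S'.filter (fun d => j - d < q)).card *
          (1 / x) ^ (FR11.cl q S')
        ≤ x ^ (∑ d ∈ S', min (j - d) q) * x ^ (FR11.cl q S') * (1 / x) ^ (FR11.cl q S') := by
          apply mul_le_mul_of_nonneg_right _ (by positivity)
          apply mul_le_mul_of_nonneg_left _ (by positivity)
          exact pow_le_pow_right₀ hx hw
      _ ≤ x ^ (∑ d ∈ S', min (j - d) q) * x ^ (FR11.cl q S') * (1 / x) ^ (FR11.cl q S') *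
          (((1 + (tau q S' j : ℝ)) * G ^ (((rn q S' j).card - 1).choose 2)) *
            G ^ (FR11.cl q S' - 1)) := by
          apply le_mul_of_one_le_right (by positivity)
          apply one_le_mul_of_one_le_of_one_le _ (hG1 _)
          exact one_le_mul_of_one_le_of_one_le ht0 (hG1 _)
      _ = _ := by ring
  · have hc : FR11.cl q (insert j S) = FR11.cl q S := by
      unfold FR11.cl
      rw [image_insert]
      obtain ⟨e, he, hee⟩ := ho
      have : j % q ∈ S.image (fun d => d % q) := mem_image.2 ⟨e, he, hee⟩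
      rw [insert_eq_of_mem this]
    have hw := h50_win_ins hq hS
    rw [hc] at hw
    have ht : (tau q (insert j S) (j + 1) : ℝ) ≤ (tau q S j : ℝ) := by
      exact_mod_cast h50_tau_occ hS ho
    have hch := h50_choose _ _ (h50_run_ins (q := q) (S := S) (j := j))
    unfold Vt
    rw [h50_sum_ins hq hS, hc]
    calc x ^ (∑ d ∈ S, min (j - d) q + ((S.filter (fun d => j - d < q)).card + 1)) *
          (1 / x) ^ (FR11.cl q S) * ((1 + (tau q (insert j S) (j + 1) : ℝ)) *
            G ^ (((rn q (insert j S) (j + 1)).card - 1).choose 2))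
        ≤ x ^ (∑ d ∈ S, min (j - d) q + FR11.cl q S) *
          (1 / x) ^ (FR11.cl q S) * ((1 + (tau q S j : ℝ)) *
            G ^ (((rn q S j).card - 1).choose 2 + (FR11.cl q S - 1))) := by
          apply mul_le_mul _ _ (by positivity) (by positivity)
          · apply mul_le_mul_of_nonneg_right _ (by positivity)
            exact pow_le_pow_right₀ hx (by omega)
          · apply mul_le_mul (by linarith) _ (by positivity) (by positivity)
            exact pow_le_pow_right₀ hG (by omega)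
      _ = _ := by
          rw [pow_add, pow_add]
          ring

/-- A3: class of `j` not met, new element -/
theorem Vt_gain {x G : ℝ} (hx : 1 ≤ x) (hG : 1 ≤ G) {q : ℕ} (hq : 2 ≤ q) {S : Finset ℕ} {j : ℕ}
    (hS : S ⊆ range j) (ho : ¬ occ q S j) :
    Vt x G q (insert j S) (j + 1) * (1 + tau q S j) ≤
      Vt x G q S j * (x ^ (FR11.cl q S) * ((2 + tau q S j) * G ^ ((rn q S j).card - 1))) := by
  have hx0 : 0 < x := by linarith
  have hG0 : 0 < G := by linarith
  have hc : FR11.cl q (insert j S) = FR11.cl q S + 1 := by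
    unfold FR11.cl
    rw [image_insert]
    apply card_insert_of_notMem
    intro h
    obtain ⟨e, he, hee⟩ := mem_image.1 h
    exact ho ⟨e, he, hee⟩
  have hw := h50_win_ins hq hS
  rw [hc] at hw
  have ht : (tau q (insert j S) (j + 1) : ℝ) ≤ (tau q S j : ℝ) + 1 := by
    exact_mod_cast h50_tau_ins
  have hch := h50_choose _ _ (h50_run_ins (q := q) (S := S) (j := j))
  unfold Vt
  rw [h50_sum_ins hq hS, hc]
  have h1 : x ^ (∑ d ∈ S, min (j - d) q + ((S.filter (fun d => j - d < q)).card + 1)) *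
      (1 / x) ^ (FR11.cl q S + 1) ≤
      x ^ (∑ d ∈ S, min (j - d) q) * x ^ (FR11.cl q S) * (1 / x) ^ (FR11.cl q S) := by
    calc _ ≤ x ^ (∑ d ∈ S, min (j - d) q + (FR11.cl q S + 1)) * (1 / x) ^ (FR11.cl q S + 1) := by
          apply mul_le_mul_of_nonneg_right _ (by positivity)
          exact pow_le_pow_right₀ hx (by omega)
      _ = x ^ (∑ d ∈ S, min (j - d) q) * x ^ (FR11.cl q S) * (1 / x) ^ (FR11.cl q S) *
          (x * (1 / x)) := by
          rw [pow_add, pow_succ, pow_succ]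
          ring
      _ = _ := by rw [mul_one_div_cancel hx0.ne', mul_one]
  calc x ^ (∑ d ∈ S, min (j - d) q + ((S.filter (fun d => j - d < q)).card + 1)) *
        (1 / x) ^ (FR11.cl q S + 1) * ((1 + (tau q (insert j S) (j + 1) : ℝ)) *
          G ^ (((rn q (insert j S) (j + 1)).card - 1).choose 2)) * (1 + (tau q S j : ℝ))
      ≤ x ^ (∑ d ∈ S, min (j - d) q) * x ^ (FR11.cl q S) * (1 / x) ^ (FR11.cl q S) *
        ((2 + (tau q S j : ℝ)) *
          G ^ (((rn q S j).card - 1).choose 2 + ((rn q S j).card - 1))) *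
        (1 + (tau q S j : ℝ)) := by
        apply mul_le_mul_of_nonneg_right _ (by positivity)
        apply mul_le_mul h1 _ (by positivity) (by positivity)
        apply mul_le_mul (by linarith) _ (by positivity) (by positivity)
        exact pow_le_pow_right₀ hG hch
    _ = _ := by
        rw [pow_add]
        ring

/-- A4: class of `j` not met, no new element -/
theorem Vt_keep {x G : ℝ} (hx : 1 ≤ x) (hG : 1 ≤ G) {q : ℕ} (hq : 2 ≤ q) {S : Finset ℕ} {j : ℕ}
    (hS : S ⊆ range j) (ho : ¬ occ q S j) :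
    Vt x G q S (j + 1) * (1 + tau q S j) ≤ Vt x G q S j * x ^ (FR11.cl q S) := by
  have hx0 : 0 < x := by linarith
  have hG0 : 0 < G := by linarith
  rw [h50_Vt_keep hS]
  have hw : (S.filter (fun d => j - d < q)).card ≤ FR11.cl q S :=
    h50_win_le hS (filter_subset _ _) (fun d hd => (mem_filter.1 hd).2)
  unfold Vt
  calc x ^ (∑ d ∈ S, min (j - d) q) * x ^ (S.filter (fun d => j - d < q)).card *
        (1 / x) ^ (FR11.cl q S) * (1 + (tau q S j : ℝ))
      ≤ x ^ (∑ d ∈ S, min (j - d) q) * x ^ (FR11.cl q S) *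
        (1 / x) ^ (FR11.cl q S) * (1 + (tau q S j : ℝ)) := by
        apply mul_le_mul_of_nonneg_right _ (by positivity)
        apply mul_le_mul_of_nonneg_right _ (by positivity)
        apply mul_le_mul_of_nonneg_left _ (by positivity)
        exact pow_le_pow_right₀ hx hw
    _ ≤ x ^ (∑ d ∈ S, min (j - d) q) * x ^ (FR11.cl q S) *
        (1 / x) ^ (FR11.cl q S) * (1 + (tau q S j : ℝ)) *
        G ^ (((rn q S j).card - 1).choose 2) :=
        le_mul_of_one_le_right (by positivity) (one_le_pow₀ hG)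
    _ = _ := by ring

end FS11
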