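import Pool.Agent.helper11.FS.Defs

open Finset

namespace FS11

/-- A5: start -/
theorem Vt_start {x G : ℝ} (hx : 1 ≤ x) (hG : 1 ≤ G) {q : ℕ} (hq : 2 ≤ q) {S' : Finset ℕ} {j : ℕ}
    (hS' : S' ⊆ {j}) : Vt x G q S' (j + 1) ≤ 2 := by
  classical
  have hx0 : 0 < x := by linarith
  have hr : (rn q S' (j + 1)).card ≤ 1 := by
    have h1 : rn q S' (j + 1) ⊆ S' := by
      unfold rn
      exact filter_subset _ _
    have h2 := card_le_card (h1.trans hS')
    rwa [card_singleton] at h2
  have ht : tau q S' (j + 1) ≤ 1 := (card_le_card inter_subset_left).trans hr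
  have hr0 : (rn q S' (j + 1)).card - 1 = 0 := by omega
  have h0 : x ^ (∑ d ∈ S', min (j + 1 - d) q) * (1 / x) ^ (FR11.cl q S') = 1 := by
    rcases subset_singleton_iff.1 hS' with h | h
    · subst h
      simp [FR11.cl]
    · subst h
      have h3 : min (j + 1 - j) q = 1 := by omega
      unfold FR11.cl
      rw [sum_singleton, image_singleton, card_singleton, h3, pow_one, pow_one,
        mul_one_div_cancel hx0.ne']
  unfold Vt
  rw [h0, hr0, Nat.choose_eq_zero_of_lt (by norm_num : 0 < 2), pow_zero, mul_one, one_mul]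
  have h4 : (tau q S' (j + 1) : ℝ) ≤ 1 := by exact_mod_cast ht
  linarith

/-- A6: end -/
theorem Vt_end {x G : ℝ} (hx : 1 ≤ x) (hG : 1 ≤ G) {q : ℕ} (hq : 2 ≤ q) {S : Finset ℕ} {n : ℕ}
    (hS : S ⊆ range n) : x ^ (q * S.card) ≤ x ^ (q * q) * x ^ q * Vt x G q S n := by
  have hx0 : 0 < x := by linarith
  have hG0 : 0 < G := by linarith
  have h2 : 0 ≤ 1 / x := by positivity
  have h21 : 1 / x ≤ 1 := by rw [div_le_one hx0]; exact hx
  have hlt : ∀ d ∈ S, d < n := fun d hd => mem_range.1 (hS hd)
  have hw : (S.filter (fun d => n - d < q)).card ≤ q := by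
    have h7 : S.filter (fun d => n - d < q) ⊆ Ico (n + 1 - q) n := by
      intro d hd
      have h4 := mem_filter.1 hd
      have h5 := hlt d h4.1
      have h6 := h4.2
      rw [mem_Ico]
      omega
    have h8 := card_le_card h7
    rw [Nat.card_Ico] at h8
    omega
  have hE : q * S.card ≤ q * q + ∑ d ∈ S, min (n - d) q := by
    have h9 : q * S.card ≤ q * (S.filter (fun d => n - d < q)).card + ∑ d ∈ S, min (n - d) q := by
      rw [card_filter, card_eq_sum_ones, mul_sum, mul_sum, ← Finset.sum_add_distrib]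
      apply Finset.sum_le_sum
      intro d hd
      split_ifs with h
      · omega
      · have : q ≤ n - d := by omega
        omega
    have h10 : q * (S.filter (fun d => n - d < q)).card ≤ q * q := Nat.mul_le_mul_left q hw
    omega
  have hc : FR11.cl q S ≤ q := by
    unfold FR11.cl
    have h11 : S.image (fun d => d % q) ⊆ range q := by
      intro r hr
      obtain ⟨d, _, rfl⟩ := mem_image.1 hr
      exact mem_range.2 (Nat.mod_lt _ (by omega))
    have h12 := card_le_card h11
    rwa [card_range] at h12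
  have h13 : 1 ≤ x ^ q * (1 / x) ^ (FR11.cl q S) := by
    calc (1 : ℝ) = x ^ q * (1 / x) ^ q := by
          rw [← mul_pow, mul_one_div_cancel hx0.ne', one_pow]
      _ ≤ _ := by
          apply mul_le_mul_of_nonneg_left _ (by positivity)
          exact pow_le_pow_of_le_one h2 h21 hc
  have h14 : 1 ≤ (1 + (tau q S n : ℝ)) * G ^ (((rn q S n).card - 1).choose 2) := by
    have h15 : 1 ≤ G ^ (((rn q S n).card - 1).choose 2) := one_le_pow₀ hG
    have h16 : (1 : ℝ) ≤ 1 + (tau q S n : ℝ) := by
      have : (0 : ℝ) ≤ (tau q S n : ℝ) := Nat.cast_nonneg _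
      linarith
    nlinarith
  have h17 : 1 ≤ x ^ q * (1 / x) ^ (FR11.cl q S) *
      ((1 + (tau q S n : ℝ)) * G ^ (((rn q S n).card - 1).choose 2)) := by
    nlinarith
  calc x ^ (q * S.card) ≤ x ^ (q * q + ∑ d ∈ S, min (n - d) q) :=
        pow_le_pow_right₀ (by linarith) hE
    _ = x ^ (q * q) * x ^ (∑ d ∈ S, min (n - d) q) * 1 := by rw [pow_add, mul_one]
    _ ≤ x ^ (q * q) * x ^ (∑ d ∈ S, min (n - d) q) * (x ^ q * (1 / x) ^ (FR11.cl q S) *
          ((1 + (tau q S n : ℝ)) * G ^ (((rn q S n).card - 1).choose 2))) := by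
        apply mul_le_mul_of_nonneg_left h17 (by positivity)
    _ = x ^ (q * q) * x ^ q * Vt x G q S n := by
        unfold Vt
        ring

end FS11
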