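import Pool.Agent.helper11.FS.Defs

open Finset

namespace FS11

theorem h66_pw {x : ℝ} (hx : 1 ≤ x) {A A' c c' p : ℕ} (h : A' + c ≤ A + c' + p) :
    x ^ A' * (1 / x) ^ c' ≤ x ^ A * (1 / x) ^ c * x ^ p := by
  have hx0 : x ≠ 0 := by linarith
  have e1 : x ^ A' * (1 / x) ^ c' = x ^ (A' + c) * (1 / x) ^ (c + c') := by
    rw [pow_add, pow_add, one_div, inv_pow, inv_pow]
    have : x ^ c ≠ 0 := pow_ne_zero _ hx0
    field_simp
  have e2 : x ^ A * (1 / x) ^ c * x ^ p = x ^ (A + c' + p) * (1 / x) ^ (c + c') := by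
    rw [pow_add, pow_add, pow_add, one_div, inv_pow, inv_pow]
    have : x ^ c' ≠ 0 := pow_ne_zero _ hx0
    have : x ^ c ≠ 0 := pow_ne_zero _ hx0
    field_simp
  rw [e1, e2]
  exact mul_le_mul_of_nonneg_right (pow_le_pow_right₀ hx h)
    (pow_nonneg (by positivity) _)

/-- after a loss the top run is empty -/
theorem h66_rn_empty {q : ℕ} {S : Finset ℕ} {j e : ℕ} (hS : S ⊆ range j) :
    rn q (S.erase e) (j + 1) = ∅ := by
  classical
  rw [Finset.eq_empty_iff_forall_notMem]
  intro d hd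
  unfold rn at hd
  rw [Finset.mem_filter] at hd
  obtain ⟨hdS, -, hall⟩ := hd
  have hdj : d < j := Finset.mem_range.1 (hS (Finset.mem_of_mem_erase hdS))
  have hj := hall j hdj (Nat.lt_succ_self j)
  have := Finset.mem_range.1 (hS (Finset.mem_of_mem_erase hj))
  omega

theorem h66_Vt_erase (x G : ℝ) {q : ℕ} {S : Finset ℕ} {j e : ℕ} (hS : S ⊆ range j) :
    Vt x G q (S.erase e) (j + 1) =
      x ^ (∑ d ∈ S.erase e, min (j + 1 - d) q) * (1 / x) ^ (FR11.cl q (S.erase e)) := by
  unfold Vt tau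
  rw [h66_rn_empty hS]
  simp

theorem h66_sum {q : ℕ} {S : Finset ℕ} {j e : ℕ} (hS : S ⊆ range j) :
    ∑ d ∈ S.erase e, min (j + 1 - d) q =
      ∑ d ∈ S.erase e, min (j - d) q + ((S.erase e).filter (fun d => j - d < q)).card := by
  rw [Finset.card_filter, ← Finset.sum_add_distrib]
  refine Finset.sum_congr rfl fun d hd => ?_
  have hdj : d < j := Finset.mem_range.1 (hS (Finset.mem_of_mem_erase hd))
  split_ifs with h <;> omega

theorem h66_below {q : ℕ} {S : Finset ℕ} {j e : ℕ} (hS : S ⊆ range j) :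
    ((S.filter (fun d => d < e)).filter (fun d => j - d < q)).card ≤
      FR11.cl q (S.filter (fun d => d < e)) := by
  unfold FR11.cl
  have hinj : Set.InjOn (fun d => d % q)
      (((S.filter (fun d => d < e)).filter (fun d => j - d < q) : Finset ℕ) : Set ℕ) := by
    intro d hd d' hd' h
    rw [Finset.mem_coe, Finset.mem_filter, Finset.mem_filter] at hd hd'
    have h1 : d < j := Finset.mem_range.1 (hS hd.1.1)
    have h2 : d' < j := Finset.mem_range.1 (hS hd'.1.1)
    simp only at h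
    rcases le_total d d' with h3 | h3
    · have h4 : q ∣ d' - d := (Nat.modEq_iff_dvd' h3).1 h
      have h5 : d' - d = 0 := Nat.eq_zero_of_dvd_of_lt h4 (by omega)
      omega
    · have h4 : q ∣ d - d' := (Nat.modEq_iff_dvd' h3).1 h.symm
      have h5 : d - d' = 0 := Nat.eq_zero_of_dvd_of_lt h4 (by omega)
      omega
  rw [← Finset.card_image_of_injOn hinj]
  exact Finset.card_le_card (Finset.image_subset_image (Finset.filter_subset _ _))

/-- the window elements other than `e`, when `e` is in the window -/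
theorem h66_window {q : ℕ} {S : Finset ℕ} {j e : ℕ} (hS : S ⊆ range j) (he : e < j) :
    ((S.erase e).filter (fun d => j - d < q)).card + 1 ≤
      (j - e) + FR11.cl q (S.filter (fun d => d < e)) := by
  have hsub : (S.erase e).filter (fun d => j - d < q) ⊆
      Ioo e j ∪ (S.filter (fun d => d < e)).filter (fun d => j - d < q) := by
    intro d hd
    rw [Finset.mem_filter, Finset.mem_erase] at hd
    obtain ⟨⟨hde, hdS⟩, hdq⟩ := hd
    have hdj : d < j := Finset.mem_range.1 (hS hdS)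
    rw [Finset.mem_union, Finset.mem_Ioo, Finset.mem_filter, Finset.mem_filter]
    rcases Nat.lt_or_gt_of_ne hde with h | h
    · exact Or.inr ⟨⟨hdS, h⟩, hdq⟩
    · exact Or.inl ⟨h, hdj⟩
  have h1 := (Finset.card_le_card hsub).trans (Finset.card_union_le _ _)
  rw [Nat.card_Ioo] at h1
  have h2 := h66_below (q := q) (e := e) hS
  omega

/-- the window has at most `q - 1` elements -/
theorem h66_window' {q : ℕ} {S : Finset ℕ} {j e : ℕ} (hS : S ⊆ range j) (hq : 1 ≤ q)
    (hj : q ≤ j) : ((S.erase e).filter (fun d => j - d < q)).card + 1 ≤ q := by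
  have hsub : (S.erase e).filter (fun d => j - d < q) ⊆ Ioo (j - q) j := by
    intro d hd
    rw [Finset.mem_filter, Finset.mem_erase] at hd
    obtain ⟨⟨hde, hdS⟩, hdq⟩ := hd
    have hdj : d < j := Finset.mem_range.1 (hS hdS)
    rw [Finset.mem_Ioo]
    omega
  have h1 := Finset.card_le_card hsub
  rw [Nat.card_Ioo] at h1
  omega

theorem h66_cl_erase (q : ℕ) (S : Finset ℕ) (e : ℕ) :
    FR11.cl q S ≤ FR11.cl q (S.erase e) + 1 := by
  unfold FR11.cl
  have hsub : S.image (fun d => d % q) ⊆ insert (e % q) ((S.erase e).image (fun d => d % q)) := by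
    intro y hy
    obtain ⟨d, hd, rfl⟩ := Finset.mem_image.1 hy
    rw [Finset.mem_insert]
    by_cases h : d = e
    · left
      rw [h]
    · right
      exact Finset.mem_image.2 ⟨d, Finset.mem_erase.2 ⟨h, hd⟩, rfl⟩
  exact (Finset.card_le_card hsub).trans (Finset.card_insert_le _ _)

theorem h66_cl_erase' {q : ℕ} {S : Finset ℕ} {e : ℕ} (he : e ∈ S) (hm : e ∉ FR11.mins q S) :
    FR11.cl q S ≤ FR11.cl q (S.erase e) := by
  have hex : ∃ d' < e, d' ∈ S ∧ d' % q = e % q := by
    by_contra hcon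
    push Not at hcon
    apply hm
    unfold FR11.mins
    rw [Finset.mem_filter]
    exact ⟨he, fun d' hd' hd'S => hcon d' hd' hd'S⟩
  obtain ⟨d', hd'e, hd'S, hmod⟩ := hex
  unfold FR11.cl
  apply Finset.card_le_card
  intro y hy
  obtain ⟨d, hd, rfl⟩ := Finset.mem_image.1 hy
  by_cases h : d = e
  · rw [h]
    exact Finset.mem_image.2 ⟨d', Finset.mem_erase.2 ⟨by omega, hd'S⟩, hmod⟩
  · exact Finset.mem_image.2 ⟨d, Finset.mem_erase.2 ⟨h, hd⟩, rfl⟩

theorem h66_sum_erase {q : ℕ} {S : Finset ℕ} {j e : ℕ} (he : e ∈ S) :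
    ∑ d ∈ S, min (j - d) q = ∑ d ∈ S.erase e, min (j - d) q + min (j - e) q :=
  (Finset.sum_erase_add S (fun d => min (j - d) q) he).symm

/-- the last factor is at least one -/
theorem h66_last {G : ℝ} (hG : 1 ≤ G) (q : ℕ) (S : Finset ℕ) (j : ℕ) :
    (1 + (tau q S j : ℝ)) ≤ (1 + (tau q S j : ℝ)) * G ^ (((rn q S j).card - 1).choose 2) := by
  have h1 : (1 : ℝ) ≤ G ^ (((rn q S j).card - 1).choose 2) := one_le_pow₀ hG
  have h2 : (0 : ℝ) ≤ 1 + (tau q S j : ℝ) := by positivity
  nlinarith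

theorem h66_core {x G : ℝ} (hx : 1 ≤ x) (hG : 1 ≤ G) {q : ℕ} {S : Finset ℕ}
    {j e p m : ℕ} (hS : S ⊆ range j) (he : e ∈ S)
    (h : ((S.erase e).filter (fun d => j - d < q)).card + (FR11.cl q S + m) ≤
      min (j - e) q + FR11.cl q (S.erase e) + p) :
    Vt x G q (S.erase e) (j + 1) * (1 + tau q S j) ≤
      Vt x G q S j * (x ^ p * (1 / x) ^ m) := by
  rw [h66_Vt_erase x G hS, h66_sum hS]
  have h1 := h66_pw hx (A' := ∑ d ∈ S.erase e, min (j - d) q +
      ((S.erase e).filter (fun d => j - d < q)).card) (c := FR11.cl q S + m)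
      (A := ∑ d ∈ S, min (j - d) q) (c' := FR11.cl q (S.erase e)) (p := p)
      (by rw [h66_sum_erase he]; omega)
  have h2 := h66_last hG q S j
  have h3 : (0 : ℝ) ≤ x ^ (∑ d ∈ S, min (j - d) q) * (1 / x) ^ (FR11.cl q S + m) * x ^ p := by
    positivity
  have h4 : (0 : ℝ) ≤ 1 + (tau q S j : ℝ) := by positivity
  unfold Vt
  calc x ^ (∑ d ∈ S.erase e, min (j - d) q +
        ((S.erase e).filter (fun d => j - d < q)).card) * (1 / x) ^ (FR11.cl q (S.erase e)) *
        (1 + (tau q S j : ℝ))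
      ≤ (x ^ (∑ d ∈ S, min (j - d) q) * (1 / x) ^ (FR11.cl q S + m) * x ^ p) *
        (1 + (tau q S j : ℝ)) := mul_le_mul_of_nonneg_right h1 h4
    _ ≤ (x ^ (∑ d ∈ S, min (j - d) q) * (1 / x) ^ (FR11.cl q S + m) * x ^ p) *
        ((1 + (tau q S j : ℝ)) * G ^ (((rn q S j).card - 1).choose 2)) :=
        mul_le_mul_of_nonneg_left h2 h3
    _ = x ^ (∑ d ∈ S, min (j - d) q) * (1 / x) ^ (FR11.cl q S) *
        ((1 + (tau q S j : ℝ)) * G ^ (((rn q S j).card - 1).choose 2)) *
        (x ^ p * (1 / x) ^ m) := by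
        rw [pow_add]
        ring

/-- B1: `e` a class minimum in the top run, class of `j` not met -/
theorem Vt_loss_run {x G : ℝ} (hx : 1 ≤ x) (hG : 1 ≤ G) {q : ℕ} (hq : 2 ≤ q) {S : Finset ℕ}
    {j e : ℕ} (hS : S ⊆ range j) (he : e ∈ S) (hr : e ∈ rn q S j) (hm : e ∈ FR11.mins q S)
    (ho : ¬ occ q S j) :
    Vt x G q (S.erase e) (j + 1) * (1 + tau q S j) ≤
      Vt x G q S j * x ^ (FR11.cl q (S.filter (fun d => d < e))) := by
  have hej : e < j := Finset.mem_range.1 (hS he)
  have hw : j - e < q := by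
    classical
    unfold rn at hr
    rw [Finset.mem_filter] at hr
    exact hr.2.1
  have h1 := h66_window (q := q) hS hej
  have h2 := h66_cl_erase q S e
  have h := h66_core hx hG (q := q) (p := FR11.cl q (S.filter (fun d => d < e))) (m := 0) hS he
    (by rw [min_eq_left hw.le]; omega)
  rwa [pow_zero, mul_one] at h

/-- B3: `e` not a class minimum -/
theorem Vt_loss_non {x G : ℝ} (hx : 1 ≤ x) (hG : 1 ≤ G) {q : ℕ} (hq : 2 ≤ q) {S : Finset ℕ}
    {j e : ℕ} (hS : S ⊆ range j) (he : e ∈ S) (hm : e ∉ FR11.mins q S) :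
    Vt x G q (S.erase e) (j + 1) * (1 + tau q S j) ≤
      Vt x G q S j * (x ^ (FR11.cl q (S.filter (fun d => d < e))) * (1 / x)) := by
  have hej : e < j := Finset.mem_range.1 (hS he)
  have h2 := h66_cl_erase' he hm
  have h := h66_core hx hG (q := q) (p := FR11.cl q (S.filter (fun d => d < e))) (m := 1) hS he
    (by
      rcases Nat.lt_or_ge (j - e) q with hw | hw
      · have h1 := h66_window (q := q) hS hej
        rw [min_eq_left hw.le]
        omega
      · have h1 := h66_window' (q := q) (e := e) hS (by omega) (by omega)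
        rw [min_eq_right hw]
        omega)
  rwa [pow_one] at h

end FS11
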