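import Pool.Agent.helper11.FS.PotB1

open Finset

namespace FS11

theorem h42_filter_above {q : ℕ} {S : Finset ℕ} {j e i : ℕ} (hS : S ⊆ range j) (he : e < j)
    (hi : e < i) (hij : i < j) (hiS : i ∉ S) :
    ((S.erase e).filter (fun d => j - d < q)).card + 2 ≤
      (j - e) + FR11.cl q (S.filter (fun d => d < e)) := by
  have hsub : (S.erase e).filter (fun d => j - d < q) ⊆
      (Ioo e j).erase i ∪ (S.filter (fun d => d < e)).filter (fun d => j - d < q) := by
    intro d hd
    rw [Finset.mem_filter, Finset.mem_erase] at hd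
    obtain ⟨⟨hde, hdS⟩, hdq⟩ := hd
    have hdj : d < j := Finset.mem_range.1 (hS hdS)
    rw [Finset.mem_union, Finset.mem_erase, Finset.mem_Ioo, Finset.mem_filter,
      Finset.mem_filter]
    rcases Nat.lt_or_gt_of_ne hde with h | h
    · exact Or.inr ⟨⟨hdS, h⟩, hdq⟩
    · refine Or.inl ⟨?_, h, hdj⟩
      intro h'
      rw [h'] at hdS
      exact hiS hdS
  have h1 := (Finset.card_le_card hsub).trans (Finset.card_union_le _ _)
  rw [Finset.card_erase_of_mem (Finset.mem_Ioo.2 ⟨hi, hij⟩), Nat.card_Ioo] at h1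
  have h2 := h66_below (q := q) (e := e) hS
  omega

/-- class of `j` met: one more class below `e` -/
theorem h42_below_occ {q : ℕ} {S : Finset ℕ} {j e : ℕ} (hS : S ⊆ range j)
    (hq : 1 ≤ q) (hw : j - e < q) (ho : occ q S j) :
    ((S.filter (fun d => d < e)).filter (fun d => j - d < q)).card + 1 ≤
      FR11.cl q (S.filter (fun d => d < e)) := by
  obtain ⟨o, hoS, hom⟩ := ho
  have hoj : o < j := Finset.mem_range.1 (hS hoS)
  have hoq : o + q ≤ j := by
    have h4 : q ∣ j - o := (Nat.modEq_iff_dvd' hoj.le).1 hom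
    have h5 := Nat.le_of_dvd (by omega) h4
    omega
  have hoe : o < e := by omega
  set W := (S.filter (fun d => d < e)).filter (fun d => j - d < q) with hW
  have hjW : j ∉ W := by
    intro h
    rw [hW, Finset.mem_filter, Finset.mem_filter] at h
    have := Finset.mem_range.1 (hS h.1.1)
    omega
  rw [← Finset.card_insert_of_notMem hjW]
  unfold FR11.cl
  have hinj : Set.InjOn (fun d => d % q) ((insert j W : Finset ℕ) : Set ℕ) := by
    have hb : ∀ d ∈ insert j W, d ≤ j ∧ j - d < q := by
      intro d hd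
      rcases Finset.mem_insert.1 hd with h | h
      · subst h
        exact ⟨le_rfl, by omega⟩
      · rw [hW, Finset.mem_filter, Finset.mem_filter] at h
        have := Finset.mem_range.1 (hS h.1.1)
        exact ⟨by omega, h.2⟩
    intro d hd d' hd' h
    have h1 := hb d (Finset.mem_coe.1 hd)
    have h2 := hb d' (Finset.mem_coe.1 hd')
    simp only at h
    rcases le_total d d' with h3 | h3
    · have h4 : q ∣ d' - d := (Nat.modEq_iff_dvd' h3).1 h
      have h5 : d' - d = 0 := Nat.eq_zero_of_dvd_of_lt h4 (by omega)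
      omega
    · have h4 : q ∣ d - d' := (Nat.modEq_iff_dvd' h3).1 h.symm
      have h5 : d - d' = 0 := Nat.eq_zero_of_dvd_of_lt h4 (by omega)
      omega
  rw [← Finset.card_image_of_injOn hinj]
  apply Finset.card_le_card
  intro y hy
  obtain ⟨d, hd, rfl⟩ := Finset.mem_image.1 hy
  rcases Finset.mem_insert.1 hd with h | h
  · subst h
    exact Finset.mem_image.2 ⟨o, Finset.mem_filter.2 ⟨hoS, hoe⟩, hom⟩
  · exact Finset.mem_image.2 ⟨d, (Finset.mem_filter.1 h).1, rfl⟩

theorem h42_window_occ {q : ℕ} {S : Finset ℕ} {j e : ℕ} (hS : S ⊆ range j) (he : e < j)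
    (hq : 1 ≤ q) (hw : j - e < q) (ho : occ q S j) :
    ((S.erase e).filter (fun d => j - d < q)).card + 2 ≤
      (j - e) + FR11.cl q (S.filter (fun d => d < e)) := by
  have hsub : (S.erase e).filter (fun d => j - d < q) ⊆
      Ioo e j ∪ (S.filter (fun d => d < e)).filter (fun d => j - d < q) := by
    intro d hd
    rw [Finset.mem_filter, Finset.mem_erase] at hd
    obtain ⟨⟨hde, hdS⟩, hdq⟩ := hd
    have hdj : d < j := Finset.mem_range.1 (hS hdS)
    rw [Finset.mem_union, Finset.mem_Ioo, Finset.mem_filter, Finset.mem_filter]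
    rcases Nat.lt_or_gt_of_ne hde with h | h
    · exact Or.inr ⟨⟨hdS, h⟩, hdq⟩
    · exact Or.inl ⟨h, hdj⟩
  have h1 := (Finset.card_le_card hsub).trans (Finset.card_union_le _ _)
  rw [Nat.card_Ioo] at h1
  have h2 := h42_below_occ (e := e) hS hq hw ho
  omega

/-- `e` outside of the window: either the window is not full, or the top run is the window -/
theorem h42_out {q : ℕ} {S : Finset ℕ} {j e : ℕ} (hS : S ⊆ range j) (hq : 2 ≤ q)
    (hj : q ≤ j - e) :
    ((S.erase e).filter (fun d => j - d < q)).card + 2 ≤ q ∨ (rn q S j).card = q - 1 := by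
  classical
  have hsub : (S.erase e).filter (fun d => j - d < q) ⊆ Ioo (j - q) j := by
    intro d hd
    rw [Finset.mem_filter, Finset.mem_erase] at hd
    obtain ⟨⟨hde, hdS⟩, hdq⟩ := hd
    have hdj : d < j := Finset.mem_range.1 (hS hdS)
    rw [Finset.mem_Ioo]
    omega
  by_cases hc : ((S.erase e).filter (fun d => j - d < q)).card + 2 ≤ q
  · exact Or.inl hc
  · right
    have hcard : (Ioo (j - q) j).card = q - 1 := by
      rw [Nat.card_Ioo]
      omega
    have heq : (S.erase e).filter (fun d => j - d < q) = Ioo (j - q) j := by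
      apply Finset.eq_of_subset_of_card_le hsub
      rw [hcard]
      omega
    have hrn : rn q S j = Ioo (j - q) j := by
      ext d
      unfold rn
      rw [Finset.mem_filter, Finset.mem_Ioo]
      constructor
      · rintro ⟨h1, h2, -⟩
        have := Finset.mem_range.1 (hS h1)
        omega
      · rintro ⟨h1, h2⟩
        have hmem : ∀ i, j - q < i → i < j → i ∈ S := by
          intro i hi hij
          have : i ∈ (S.erase e).filter (fun d => j - d < q) := by
            rw [heq, Finset.mem_Ioo]
            exact ⟨hi, hij⟩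
          exact Finset.mem_of_mem_erase (Finset.mem_filter.1 this).1
        exact ⟨hmem d h1 h2, by omega, fun i hi hij => hmem i (by omega) hij⟩
    rw [hrn, hcard]

theorem h42_drop {x G : ℝ} {q : ℕ} {S : Finset ℕ} {j e : ℕ} {B : ℝ} (hx : 1 ≤ x)
    (h : Vt x G q (S.erase e) (j + 1) * (1 + tau q S j) ≤ B) (hS : S ⊆ range j) :
    Vt x G q (S.erase e) (j + 1) ≤ B := by
  refine le_trans ?_ h
  have h1 : 0 ≤ Vt x G q (S.erase e) (j + 1) := by
    rw [h66_Vt_erase x G hS]
    positivity
  have h2 : (0 : ℝ) ≤ (tau q S j : ℝ) := Nat.cast_nonneg _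
  nlinarith

/-- B2: `e` a class minimum, not in the top run or class of `j` met -/
theorem Vt_loss_min {x G : ℝ} (hx : 1 ≤ x) (hG : 1 ≤ G) {q : ℕ} (hq : 2 ≤ q)
    (hr : x ≤ G ^ ((q - 2).choose 2)) {S : Finset ℕ}
    {j e : ℕ} (hS : S ⊆ range j) (he : e ∈ S) (hm : e ∈ FR11.mins q S)
    (ho : ¬ (e ∈ rn q S j ∧ ¬ occ q S j)) :
    Vt x G q (S.erase e) (j + 1) ≤
      Vt x G q S j * (x ^ (FR11.cl q (S.filter (fun d => d < e))) * (1 / x)) := by
  classical
  have hej : e < j := Finset.mem_range.1 (hS he)
  have h2 := h66_cl_erase q S e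
  rcases Nat.lt_or_ge (j - e) q with hw | hw
  · -- in the window
    have hwin : ((S.erase e).filter (fun d => j - d < q)).card + 2 ≤
        (j - e) + FR11.cl q (S.filter (fun d => d < e)) := by
      by_cases hoc : occ q S j
      · exact h42_window_occ hS hej (by omega) hw hoc
      · have hern : e ∉ rn q S j := fun h => ho ⟨h, hoc⟩
        have hex : ∃ i, e < i ∧ i < j ∧ i ∉ S := by
          by_contra hcon
          push Not at hcon
          apply hern
          unfold rn
          rw [Finset.mem_filter]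
          exact ⟨he, hw, hcon⟩
        obtain ⟨i, hi, hij, hiS⟩ := hex
        exact h42_filter_above hS hej hi hij hiS
    have h := h66_core hx hG (q := q) (p := FR11.cl q (S.filter (fun d => d < e))) (m := 1) hS he
      (by rw [min_eq_left hw.le]; omega)
    rw [pow_one] at h
    exact h42_drop hx h hS
  · rcases h42_out (e := e) hS hq hw with hc | hc
    · have h := h66_core hx hG (q := q) (p := FR11.cl q (S.filter (fun d => d < e))) (m := 1) hS he
        (by rw [min_eq_right hw]; omega)
      rw [pow_one] at h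
      exact h42_drop hx h hS
    · -- the window is full: the last factor pays
      have hwc := h66_window' (q := q) (e := e) hS (by omega) (by omega : q ≤ j)
      rw [h66_Vt_erase x G hS, h66_sum hS]
      have h1 := h66_pw hx (A' := ∑ d ∈ S.erase e, min (j - d) q +
          ((S.erase e).filter (fun d => j - d < q)).card) (c := FR11.cl q S)
          (A := ∑ d ∈ S, min (j - d) q) (c' := FR11.cl q (S.erase e))
          (p := FR11.cl q (S.filter (fun d => d < e)))
          (by rw [h66_sum_erase he, min_eq_right hw]; omega)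
      refine h1.trans ?_
      unfold Vt
      rw [hc]
      have hx0 : (0 : ℝ) < x := by linarith
      have h3 : q - 1 - 1 = q - 2 := by omega
      rw [h3]
      have h4 : (1 : ℝ) ≤ (1 + (tau q S j : ℝ)) * G ^ ((q - 2).choose 2) * (1 / x) := by
        rw [mul_one_div, le_div_iff₀ hx0, one_mul]
        have h5 : (0 : ℝ) ≤ (tau q S j : ℝ) := Nat.cast_nonneg _
        have h6 : (0 : ℝ) ≤ G ^ ((q - 2).choose 2) := by positivity
        nlinarith
      have h7 : (0 : ℝ) ≤ x ^ (∑ d ∈ S, min (j - d) q) * (1 / x) ^ (FR11.cl q S) *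
          x ^ (FR11.cl q (S.filter (fun d => d < e))) := by positivity
      calc x ^ (∑ d ∈ S, min (j - d) q) * (1 / x) ^ (FR11.cl q S) *
          x ^ (FR11.cl q (S.filter (fun d => d < e)))
          = x ^ (∑ d ∈ S, min (j - d) q) * (1 / x) ^ (FR11.cl q S) *
          x ^ (FR11.cl q (S.filter (fun d => d < e))) * 1 := by ring
        _ ≤ x ^ (∑ d ∈ S, min (j - d) q) * (1 / x) ^ (FR11.cl q S) *
          x ^ (FR11.cl q (S.filter (fun d => d < e))) *
          ((1 + (tau q S j : ℝ)) * G ^ ((q - 2).choose 2) * (1 / x)) :=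
          mul_le_mul_of_nonneg_left h4 h7
        _ = x ^ (∑ d ∈ S, min (j - d) q) * (1 / x) ^ (FR11.cl q S) *
          ((1 + (tau q S j : ℝ)) * G ^ ((q - 2).choose 2)) *
          (x ^ (FR11.cl q (S.filter (fun d => d < e))) * (1 / x)) := by ring

end FS11
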