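import Pool.Agent.helper11.FS.Defs

open Finset

namespace FS11

private theorem h42_mem_rn {q : ℕ} {S : Finset ℕ} {j d : ℕ} :
    d ∈ rn q S j ↔ d ∈ S ∧ j - d < q ∧ ∀ i, d < i → i < j → i ∈ S := by
  classical
  unfold rn
  rw [mem_filter]

/-- telescoping product -/
theorem h42_telescope (Q : ℝ) (e : ℕ) (R : Finset ℕ) :
    (∏ d ∈ R.filter (fun d => d < e), (Q * ((R.filter (fun d' => d ≤ d')).card : ℝ) /
      (1 + ((R.filter (fun d' => d ≤ d')).card : ℝ)))) * (1 + (R.card : ℝ)) =
      Q ^ (R.filter (fun d => d < e)).card * (1 + ((R.filter (fun d' => e ≤ d')).card : ℝ)) := by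
  induction R using Finset.induction_on_min with
  | empty => simp
  | insert a s ha ih =>
    have hns : a ∉ s := fun h => lt_irrefl a (ha a h)
    have hself : (insert a s).filter (fun d' => a ≤ d') = insert a s := by
      apply filter_true_of_mem
      intro x hx
      rcases mem_insert.mp hx with h | h
      · exact h.ge
      · exact (ha x h).le
    have hoth : ∀ d ∈ s, (insert a s).filter (fun d' => d ≤ d') = s.filter (fun d' => d ≤ d') := by
      intro d hd
      rw [filter_insert, if_neg (not_le.mpr (ha d hd))]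
    by_cases hae : a < e
    · rw [filter_insert, if_pos hae, prod_insert (fun h => hns (mem_filter.mp h).1), hself,
        card_insert_of_notMem (fun h => hns (mem_filter.mp h).1),
        filter_insert, if_neg (not_le.mpr hae)]
      rw [prod_congr rfl (fun d hd => by rw [hoth d (mem_filter.mp hd).1])]
      rw [card_insert_of_notMem hns, pow_succ]
      have h1 : (0 : ℝ) < 1 + (s.card : ℝ) := by positivity
      have h2 : (0 : ℝ) < 1 + ((s.card + 1 : ℕ) : ℝ) := by positivity
      calc Q * ((s.card + 1 : ℕ) : ℝ) / (1 + ((s.card + 1 : ℕ) : ℝ)) *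
            (∏ d ∈ s.filter (fun d => d < e), (Q * ((s.filter (fun d' => d ≤ d')).card : ℝ) /
              (1 + ((s.filter (fun d' => d ≤ d')).card : ℝ)))) * (1 + ((s.card + 1 : ℕ) : ℝ))
          = Q * ((∏ d ∈ s.filter (fun d => d < e), (Q * ((s.filter (fun d' => d ≤ d')).card : ℝ) /
              (1 + ((s.filter (fun d' => d ≤ d')).card : ℝ)))) * (1 + (s.card : ℝ))) := by
            push_cast
            field_simp
            ring
        _ = _ := by
            rw [ih]
            ring
    · have hge : e ≤ a := not_lt.mp hae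
      have h1 : (insert a s).filter (fun d => d < e) = ∅ := by
        apply filter_false_of_mem
        intro x hx
        rcases mem_insert.mp hx with h | h
        · omega
        · have := ha x h
          omega
      have h2 : (insert a s).filter (fun d' => e ≤ d') = insert a s := by
        apply filter_true_of_mem
        intro x hx
        rcases mem_insert.mp hx with h | h
        · omega
        · have := ha x h
          omega
      rw [h1, h2]
      simp

theorem h42_telescope_all (Q : ℝ) (R : Finset ℕ) :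
    (∏ d ∈ R, (Q * ((R.filter (fun d' => d ≤ d')).card : ℝ) /
      (1 + ((R.filter (fun d' => d ≤ d')).card : ℝ)))) * (1 + (R.card : ℝ)) = Q ^ R.card := by
  have h := h42_telescope Q (R.sup id + 1) R
  have h1 : R.filter (fun d => d < R.sup id + 1) = R := by
    apply filter_true_of_mem
    intro x hx
    have := Finset.le_sup (f := id) hx
    simp only [id] at this
    exact Nat.lt_succ_of_le this
  have h2 : R.filter (fun d => R.sup id + 1 ≤ d) = ∅ := by
    apply filter_false_of_mem
    intro x hx
    have := Finset.le_sup (f := id) hx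
    simp only [id] at this
    omega
  rw [h1, h2] at h
  rw [h]
  simp

theorem h42_sg_le_tau (q : ℕ) (S : Finset ℕ) (j e : ℕ) : sg q S j e ≤ tau q S j := by
  unfold sg tau
  exact card_filter_le _ _

/-- splitting a product of factors along the top run -/
theorem h42_prod_split {Q x G : ℝ} {q : ℕ} {S : Finset ℕ} {j : ℕ} (ho : ¬ occ q S j)
    (T : Finset ℕ) :
    ∏ d ∈ T, Xf Q x G q S j d =
      (∏ d ∈ T ∩ rn q S j, (Q * (sg q S j d : ℝ) / (1 + (sg q S j d : ℝ)))) *
        (x * G ^ 2) ^ (T \ rn q S j).card := by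
  classical
  have h1 : T = (T ∩ rn q S j) ∪ (T \ rn q S j) := by
    ext d
    simp only [mem_union, mem_inter, mem_sdiff]
    tauto
  have h2 : Disjoint (T ∩ rn q S j) (T \ rn q S j) := by
    rw [Finset.disjoint_left]
    intro d hd hd'
    exact (mem_sdiff.mp hd').2 (mem_inter.mp hd).2
  conv_lhs => rw [h1]
  rw [prod_union h2]
  congr 1
  · refine prod_congr rfl fun d hd => ?_
    unfold Xf
    rw [if_pos ⟨(mem_inter.mp hd).2, ho⟩]
  · rw [← prod_const]
    refine prod_congr rfl fun d hd => ?_
    unfold Xf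
    rw [if_neg (fun h => (mem_sdiff.mp hd).2 h.1)]

/-- C1 -/
theorem prod_all {Q x G : ℝ} {q : ℕ} {S : Finset ℕ} {j : ℕ} (ho : ¬ occ q S j) :
    (∏ d ∈ FR11.mins q S, Xf Q x G q S j d) * (1 + tau q S j) =
      (x * G ^ 2) ^ (FR11.cl q S - tau q S j) * Q ^ (tau q S j) := by
  rw [h42_prod_split ho]
  have h1 : FR11.mins q S ∩ rn q S j = rn q S j ∩ FR11.mins q S := inter_comm _ _
  have h2 : (FR11.mins q S \ rn q S j).card = FR11.cl q S - tau q S j := by
    have h3 := card_sdiff_add_card_inter (FR11.mins q S) (rn q S j)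
    rw [h1, FR11.card_mins] at h3
    unfold tau
    omega
  rw [h1, h2]
  have h4 := h42_telescope_all Q (rn q S j ∩ FR11.mins q S)
  have h5 : (∏ d ∈ rn q S j ∩ FR11.mins q S, (Q * (sg q S j d : ℝ) / (1 + (sg q S j d : ℝ)))) *
      (1 + (tau q S j : ℝ)) = Q ^ (tau q S j) := h4
  rw [← h5]
  ring

/-- C2 -/
theorem prod_occ {Q x G : ℝ} {q : ℕ} {S T : Finset ℕ} {j : ℕ} (ho : occ q S j) :
    ∏ d ∈ T, Xf Q x G q S j d = (x * G ^ 2) ^ T.card := by
  rw [← prod_const]
  refine prod_congr rfl fun d _ => ?_
  unfold Xf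
  rw [if_neg (fun h => h.2 ho)]

/-- C3: below `e`, when `e` is outside the top run or the class of `j` is met -/
theorem prod_below_out {Q x G : ℝ} {q : ℕ} {S : Finset ℕ} {j e : ℕ} (hS : S ⊆ range j)
    (he : e ∈ S) (ho : ¬ (e ∈ rn q S j ∧ ¬ occ q S j)) :
    ∏ d ∈ (FR11.mins q S).filter (fun d => d < e), Xf Q x G q S j d =
      (x * G ^ 2) ^ (FR11.cl q (S.filter (fun d => d < e))) := by
  have hcard : ((FR11.mins q S).filter (fun d => d < e)).card =
      FR11.cl q (S.filter (fun d => d < e)) := by
    rw [FR11.mins_filter, FR11.card_mins]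
  by_cases hocc : occ q S j
  · rw [prod_occ hocc, hcard]
  · have her : e ∉ rn q S j := fun h => ho ⟨h, hocc⟩
    rw [← hcard, ← prod_const]
    refine prod_congr rfl fun d hd => ?_
    unfold Xf
    rw [if_neg]
    rintro ⟨hd1, _⟩
    apply her
    have hde : d < e := (mem_filter.mp hd).2
    rw [h42_mem_rn] at hd1 ⊢
    obtain ⟨_, h2, h3⟩ := hd1
    have hej : e < j := mem_range.mp (hS he)
    exact ⟨he, by omega, fun i hi hij => h3 i (by omega) hij⟩

/-- C4: below `e`, in general -/
theorem prod_below {Q x G : ℝ} (hx : 1 ≤ x) (hG : 1 ≤ G) (hQ : x ≤ Q) {q : ℕ} {S : Finset ℕ}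
    {j e : ℕ} :
    x ^ (FR11.cl q (S.filter (fun d => d < e))) * (1 + sg q S j e) ≤
      (∏ d ∈ (FR11.mins q S).filter (fun d => d < e), Xf Q x G q S j d) * (1 + tau q S j) := by
  have hcard : ((FR11.mins q S).filter (fun d => d < e)).card =
      FR11.cl q (S.filter (fun d => d < e)) := by
    rw [FR11.mins_filter, FR11.card_mins]
  have hx0 : (0 : ℝ) ≤ x := by linarith
  have hxG : x ≤ x * G ^ 2 := le_mul_of_one_le_right hx0 (one_le_pow₀ hG)
  by_cases hocc : occ q S j
  · rw [prod_occ hocc, hcard]
    have h1 : ((sg q S j e : ℕ) : ℝ) ≤ ((tau q S j : ℕ) : ℝ) := by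
      exact_mod_cast h42_sg_le_tau q S j e
    apply mul_le_mul (pow_le_pow_left₀ hx0 hxG _) (by linarith) (by positivity)
    exact pow_nonneg (hx0.trans hxG) _
  · rw [h42_prod_split hocc]
    have h1 : (FR11.mins q S).filter (fun d => d < e) ∩ rn q S j =
        (rn q S j ∩ FR11.mins q S).filter (fun d => d < e) := by
      ext d
      simp only [mem_inter, mem_filter]
      tauto
    have h4 := h42_telescope Q e (rn q S j ∩ FR11.mins q S)
    have h5 : (∏ d ∈ (rn q S j ∩ FR11.mins q S).filter (fun d => d < e),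
        (Q * (sg q S j d : ℝ) / (1 + (sg q S j d : ℝ)))) * (1 + (tau q S j : ℝ)) =
        Q ^ ((rn q S j ∩ FR11.mins q S).filter (fun d => d < e)).card *
          (1 + (sg q S j e : ℝ)) := h4
    rw [h1]
    have h6 : ((rn q S j ∩ FR11.mins q S).filter (fun d => d < e)).card +
        ((FR11.mins q S).filter (fun d => d < e) \ rn q S j).card =
        FR11.cl q (S.filter (fun d => d < e)) := by
      have h3 := card_sdiff_add_card_inter ((FR11.mins q S).filter (fun d => d < e)) (rn q S j)
      rw [h1, hcard] at h3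
      omega
    rw [← h6, pow_add]
    set r := ((rn q S j ∩ FR11.mins q S).filter (fun d => d < e)).card with hr
    set m := ((FR11.mins q S).filter (fun d => d < e) \ rn q S j).card with hm
    set P := ∏ d ∈ (rn q S j ∩ FR11.mins q S).filter (fun d => d < e),
        (Q * (sg q S j d : ℝ) / (1 + (sg q S j d : ℝ))) with hP
    have h7 : x ^ r * x ^ m ≤ Q ^ r * (x * G ^ 2) ^ m := by
      apply mul_le_mul (pow_le_pow_left₀ hx0 hQ _) (pow_le_pow_left₀ hx0 hxG _)
        (pow_nonneg hx0 _) (pow_nonneg (hx0.trans hQ) _)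
    calc x ^ r * x ^ m * (1 + (sg q S j e : ℝ))
        ≤ Q ^ r * (x * G ^ 2) ^ m * (1 + (sg q S j e : ℝ)) :=
          mul_le_mul_of_nonneg_right h7 (by positivity)
      _ = (P * (1 + (tau q S j : ℝ))) * (x * G ^ 2) ^ m := by
          rw [h5]
          ring
      _ = P * (x * G ^ 2) ^ m * (1 + (tau q S j : ℝ)) := by ring

end FS11
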