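import Pool.Agent.helper11.FS.Tests4
import Pool.Agent.helper11.FS.PotA
import Pool.Agent.helper11.FS.PotA2
import Pool.Agent.helper11.FS.PotB1
import Pool.Agent.helper11.FS.PotB2
import Pool.Agent.helper11.FS.Prod

open Polynomial Finset

namespace FS12

open FR11 FS11

variable {F : Type} [Field F]

theorem keep_sub {q : ℕ} {a : ℕ → F} {j : ℕ}
    (H : ∀ h ∈ KK q a j, h.natDegree < j → phi q a j h = 0) : SS q a j ⊆ SS q a (j + 1) := by
  intro d hd
  obtain ⟨h1, h, hh, h0, hdeg⟩ := mem_SS.mp hd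
  exact mem_SS.mpr ⟨by omega, h, mem_KK_succ.mpr ⟨hh, H h hh (by omega)⟩, h0, hdeg⟩

theorem erase_sub {q : ℕ} {a : ℕ → F} {j e : ℕ}
    (hlow : ∀ h ∈ KK q a j, h.natDegree < e → phi q a j h = 0)
    (hex : ∃ h ∈ KK q a j, h.natDegree = e ∧ phi q a j h ≠ 0) :
    (SS q a j).erase e ⊆ SS q a (j + 1) := by
  intro d hd
  obtain ⟨hne, hdS⟩ := mem_erase.mp hd
  obtain ⟨h1, w, hw, hw0, hwdeg⟩ := mem_SS.mp hdS
  obtain ⟨h, hh, hdeg, hp⟩ := hex
  rcases lt_or_gt_of_ne hne with h2 | h2
  · exact mem_SS.mpr ⟨by omega, w, mem_KK_succ.mpr ⟨hw, hlow w hw (by omega)⟩, hw0, hwdeg⟩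
  · set u := C (phi q a j h) * w - C (phi q a j w) * h with hu
    have hu2 : u = phi q a j h • w - phi q a j w • h := by
      rw [hu, smul_eq_C_mul, smul_eq_C_mul]
    have hudeg : u.natDegree = d := by
      rw [hu, natDegree_sub_eq_left_of_natDegree_lt]
      · rw [natDegree_C_mul hp, hwdeg]
      · rw [natDegree_C_mul hp, hwdeg]
        exact lt_of_le_of_lt (natDegree_C_mul_le _ _) (by omega)
    have hu0 : u ≠ 0 := by
      intro h3
      rw [h3, natDegree_zero] at hudeg
      omega
    refine mem_SS.mpr ⟨by omega, u, mem_KK_succ.mpr ⟨?_, ?_⟩, hu0, hudeg⟩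
    · rw [hu2]
      exact Submodule.sub_mem _ (Submodule.smul_mem _ _ hw) (Submodule.smul_mem _ _ hh)
    · rw [hu2, map_sub, map_smul, map_smul, smul_eq_mul, smul_eq_mul]
      ring

theorem prod_fac {Q x G H K : ℝ} {q : ℕ} (a : ℕ → F) (j : ℕ) :
    ∏ d ∈ range j, fac Q x G H K q a j d = ∏ d ∈ TT q a j,
      (open Classical in if IsP q a j d then Xf Q x H q (SS q a j) j d
        else Yf x K q (SS q a j) j d) := by
  classical
  rw [TT, prod_filter]
  refine prod_congr rfl (fun d hd => ?_)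
  have h1 : d ≠ j := (mem_range.mp hd).ne
  unfold fac
  rw [if_neg h1]

theorem prod_noloss3 {q : ℕ} {a : ℕ → F} {j : ℕ} (X Y : ℕ → ℝ)
    (H : ∀ h ∈ KK q a j, h.natDegree < j → phi q a j h = 0) :
    ∏ d ∈ TT q a j, (open Classical in if IsP q a j d then X d else Y d) =
      ∏ d ∈ mins q (SS q a j), X d := by
  classical
  have h1 : TT q a j = mins q (SS q a j) := by
    ext d
    simp only [TT, mins, mem_filter, mem_range]
    constructor
    · rintro ⟨_, h2, h3, _⟩
      exact ⟨h2, h3⟩
    · rintro ⟨h2, h3⟩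
      have h4 := (mem_SS.mp h2).1
      exact ⟨h4, h2, h3, fun h hK hlt => H h hK (hlt.trans h4)⟩
  have h2 : ∀ d ∈ TT q a j, (if IsP q a j d then X d else Y d) = X d := by
    intro d hd
    have h3 := (mem_filter.mp hd).2
    have h4 := (mem_SS.mp h3.1).1
    exact if_pos ⟨h3, fun h hK hle => H h hK (lt_of_le_of_lt hle h4)⟩
  rw [prod_congr rfl h2, h1]

theorem prod_loss3 {q : ℕ} {a : ℕ → F} {j e : ℕ} (X Y : ℕ → ℝ) (he : e ∈ SS q a j)
    (hlow : ∀ h ∈ KK q a j, h.natDegree < e → phi q a j h = 0)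
    (hex : ∃ h ∈ KK q a j, h.natDegree = e ∧ phi q a j h ≠ 0) :
    ∏ d ∈ TT q a j, (open Classical in if IsP q a j d then X d else Y d) =
      (∏ d ∈ (mins q (SS q a j)).filter (fun d => d < e), X d) *
        (open Classical in if e ∈ mins q (SS q a j) then Y e else 1) := by
  classical
  obtain ⟨h₀, hh₀, hd₀, hp₀⟩ := hex
  have h1 : TT q a j = (mins q (SS q a j)).filter (fun d => d ≤ e) := by
    ext d
    simp only [TT, mins, mem_filter, mem_range]
    constructor
    · rintro ⟨_, h2, h3, h4⟩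
      refine ⟨⟨h2, h3⟩, ?_⟩
      by_contra h5
      exact hp₀ (h4 h₀ hh₀ (by omega))
    · rintro ⟨⟨h2, h3⟩, h5⟩
      exact ⟨(mem_SS.mp h2).1, h2, h3, fun h hK hlt => hlow h hK (by omega)⟩
  have h6 : (mins q (SS q a j)).filter (fun d => d ≤ e) =
      (mins q (SS q a j)).filter (fun d => d < e) ∪
        (mins q (SS q a j)).filter (fun d => d = e) := by
    ext d
    simp only [mem_filter, mem_union]
    constructor
    · rintro ⟨h2, h3⟩
      rcases lt_or_eq_of_le h3 with h4 | h4
      · exact Or.inl ⟨h2, h4⟩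
      · exact Or.inr ⟨h2, h4⟩
    · rintro (⟨h2, h3⟩ | ⟨h2, h3⟩)
      · exact ⟨h2, h3.le⟩
      · exact ⟨h2, h3.le⟩
  have h7 : Disjoint ((mins q (SS q a j)).filter (fun d => d < e))
      ((mins q (SS q a j)).filter (fun d => d = e)) := by
    rw [disjoint_left]
    intro d h2 h3
    have h4 := (mem_filter.mp h2).2
    have h5 := (mem_filter.mp h3).2
    omega
  have hT : ∀ d ∈ mins q (SS q a j), d ≤ e → IsT q a j d := by
    intro d hd hle
    have : d ∈ TT q a j := by
      rw [h1]
      exact mem_filter.mpr ⟨hd, hle⟩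
    exact (mem_filter.mp this).2
  rw [h1, h6, prod_union h7]
  congr 1
  · refine prod_congr rfl (fun d hd => ?_)
    obtain ⟨h2, h3⟩ := mem_filter.mp hd
    exact if_pos ⟨hT d h2 h3.le, fun h hK hle => hlow h hK (by omega)⟩
  · have hnP : ¬ IsP q a j e := fun hP => hp₀ (hP.2 h₀ hh₀ hd₀.le)
    by_cases h9 : e ∈ mins q (SS q a j)
    · have h10 : (mins q (SS q a j)).filter (fun d => d = e) = {e} := by
        ext d
        simp only [mem_filter, mem_singleton]
        constructor
        · exact fun h => h.2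
        · rintro rfl
          exact ⟨h9, rfl⟩
      rw [h10, prod_singleton, if_neg hnP, if_pos h9]
    · have h10 : (mins q (SS q a j)).filter (fun d => d = e) = ∅ := by
        ext d
        simp only [mem_filter, notMem_empty, iff_false]
        rintro ⟨h2, rfl⟩
        exact h9 h2
      rw [h10, prod_empty, if_neg h9]

theorem Vt_nonneg {x G : ℝ} (hx : 0 ≤ x) (hG : 0 ≤ G) (q : ℕ) (S : Finset ℕ) (j : ℕ) :
    0 ≤ Vt x G q S j := by
  unfold Vt
  positivity

theorem step3 {q : ℕ} (hq : 2 ≤ q) {a : ℕ → F} {j : ℕ} {Q x G H K : ℝ} (hG : 1 ≤ G)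
    (hK : 1 ≤ K) (hH : H ^ 2 = K * G) (hH1 : 1 ≤ H) (hKx : K ≤ x)
    (hxQ : x ≤ Q) (hbig : x ≤ G ^ ((q - 2).choose 2))
    (hcor : ∀ τ t c : ℕ, τ ≤ t → t ≤ c → 1 ≤ c →
      K * ((2 + (τ : ℝ)) * G ^ (t - 1) / Q + 1 - 1 / Q) * x ^ τ ≤ (K * G) ^ (c - τ) * Q ^ τ)
    (hne : (SS q a j).Nonempty) :
    Vt x G q (SS q a (j + 1)) (j + 1) ≤ Vt x G q (SS q a j) j *
      (1 / K * ∏ d ∈ range (j + 1), fac Q x G H K q a j d) := by
  classical
  have hx : 1 ≤ x := hK.trans hKx
  have hx0 : 0 < x := by linarith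
  have hG0 : 0 < G := by linarith
  have hK0 : 0 < K := by linarith
  have hQ0 : 0 < Q := by linarith
  have hKG1 : 1 ≤ K * G := by nlinarith
  have hS : SS q a j ⊆ range j := by
    intro d hd
    exact mem_range.mpr (mem_SS.mp hd).1
  set S := SS q a j with hSd
  have hV : 0 ≤ Vt x G q S j := Vt_nonneg hx0.le hG0.le q S j
  set τ := tau q S j with hτ
  set t := (rn q S j).card with ht
  set c := cl q S with hc
  have hτt : τ ≤ t := tau_le_run q S j
  have htc : t ≤ c := run_le_cl hq hS
  have hc1 : 1 ≤ c := cl_pos hne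
  have hτ0 : (0 : ℝ) < 1 + (τ : ℝ) := by positivity
  rw [prod_range_succ, prod_fac]
  rcases FR11.trans q a j with ⟨H0, hsub⟩ | ⟨e, he, hlow, hex, hsub⟩
  · rw [prod_noloss3 _ _ H0]
    have hsup := keep_sub H0
    by_cases ho : occ q S j
    · have hfj : fac Q x G H K q a j j = 1 := by
        unfold fac
        rw [if_pos rfl, if_neg (fun h => h.2 ho)]
      rw [hfj, mul_one, ← hSd, prod_occ ho, card_mins, ← hc, hH]
      have hS' : SS q a (j + 1) = S ∨ SS q a (j + 1) = insert j S := by
        by_cases hj : j ∈ SS q a (j + 1)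
        · exact Or.inr (Subset.antisymm hsub (insert_subset hj hsup))
        · left
          refine Subset.antisymm (fun d hd => ?_) hsup
          rcases mem_insert.mp (hsub hd) with h1 | h1
          · rw [h1] at hd
            exact absurd hd hj
          · exact h1
      refine (Vt_occ hx hG hq hS ho hS').trans ?_
      apply mul_le_mul_of_nonneg_left _ hV
      rw [← hc]
      have h1 : 1 / K * (x * (K * G)) ^ c = x ^ c * (K ^ (c - 1) * G ^ c) := by
        obtain ⟨b, hb⟩ : ∃ b, c = b + 1 := ⟨c - 1, by omega⟩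
        rw [hb, show b + 1 - 1 = b by omega, mul_pow, mul_pow, pow_succ K b]
        field_simp
      rw [h1]
      apply mul_le_mul_of_nonneg_left _ (by positivity)
      have h3 : G ^ (c - 1) ≤ G ^ c := pow_le_pow_right₀ hG (by omega)
      have h4 : (1 : ℝ) ≤ K ^ (c - 1) := one_le_pow₀ hK
      have h5 : 0 ≤ G ^ c := by positivity
      nlinarith
    · have hC : IsC q a j := ⟨H0, ho⟩
      set D : ℝ := (2 + (τ : ℝ)) * G ^ (t - 1) / Q + 1 - 1 / Q with hD
      have hD0 : 0 < D := by
        have h5 : (1 : ℝ) ≤ G ^ (t - 1) := one_le_pow₀ hG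
        have h6 : (0 : ℝ) ≤ (τ : ℝ) := Nat.cast_nonneg _
        have h7 : 1 ≤ (2 + (τ : ℝ)) * G ^ (t - 1) := by nlinarith
        have h8 : 0 ≤ ((2 + (τ : ℝ)) * G ^ (t - 1) - 1) / Q := div_nonneg (by linarith) hQ0.le
        have h9 : ((2 + (τ : ℝ)) * G ^ (t - 1) - 1) / Q = (2 + (τ : ℝ)) * G ^ (t - 1) / Q - 1 / Q := by
          ring
        rw [hD]
        linarith
      have hM : Mc Q G q S j = 1 / D := rfl
      have hstar : x ^ c ≤ 1 / K * ((x * H ^ 2) ^ (c - τ) * Q ^ τ) * (1 / D) := by
        have h1 := hcor τ t c hτt htc hc1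
        rw [← hD] at h1
        have h2 : x ^ c = x ^ (c - τ) * x ^ τ := by
          rw [← pow_add]; congr 1; omega
        have h3 : (x * H ^ 2) ^ (c - τ) = x ^ (c - τ) * (K * G) ^ (c - τ) := by
          rw [hH, mul_pow]
        rw [h2, h3]
        have h4 : 1 / K * (x ^ (c - τ) * (K * G) ^ (c - τ) * Q ^ τ) * (1 / D) =
            x ^ (c - τ) * (((K * G) ^ (c - τ) * Q ^ τ) / (K * D)) := by
          field_simp
        rw [h4]
        apply mul_le_mul_of_nonneg_left _ (by positivity)
        rw [le_div_iff₀ (by positivity)]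
        nlinarith
      have hP := prod_all (Q := Q) (x := x) (G := H) ho
      rw [← hτ, ← hc] at hP
      set P := ∏ d ∈ mins q S, Xf Q x H q S j d with hPd
      by_cases hj : j ∈ SS q a (j + 1)
      · have hS' : SS q a (j + 1) = insert j S := Subset.antisymm hsub (insert_subset hj hsup)
        have hfj : fac Q x G H K q a j j = (2 + (τ : ℝ)) * G ^ (t - 1) * (1 / D) := by
          unfold fac
          rw [if_pos rfl, if_pos hC, if_pos hj, ← hSd]
          unfold Ac
          rw [hM]
        rw [hfj, hS']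
        have h1 := Vt_gain hx hG hq hS ho
        rw [← hτ, ← ht, ← hc] at h1
        rw [← mul_le_mul_iff_left₀ hτ0]
        refine h1.trans ?_
        have h2 : Vt x G q S j * (1 / K * (P * ((2 + (τ : ℝ)) * G ^ (t - 1) * (1 / D)))) *
            (1 + (τ : ℝ)) = Vt x G q S j *
            ((1 / K * ((x * H ^ 2) ^ (c - τ) * Q ^ τ) * (1 / D)) * ((2 + (τ : ℝ)) * G ^ (t - 1))) := by
          rw [← hP]
          ring
        rw [h2]
        apply mul_le_mul_of_nonneg_left _ hV
        exact mul_le_mul_of_nonneg_right hstar (by positivity)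
      · have hS' : SS q a (j + 1) = S := by
          refine Subset.antisymm (fun d hd => ?_) hsup
          rcases mem_insert.mp (hsub hd) with h1 | h1
          · rw [h1] at hd
            exact absurd hd hj
          · exact h1
        have hfj : fac Q x G H K q a j j = 1 / D := by
          unfold fac
          rw [if_pos rfl, if_pos hC, if_neg hj, ← hSd, hM]
        rw [hfj, hS']
        have h1 := Vt_keep hx hG hq hS ho
        rw [← hτ, ← hc] at h1
        rw [← mul_le_mul_iff_left₀ hτ0]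
        refine h1.trans ?_
        have h2 : Vt x G q S j * (1 / K * (P * (1 / D))) * (1 + (τ : ℝ)) = Vt x G q S j *
            (1 / K * ((x * H ^ 2) ^ (c - τ) * Q ^ τ) * (1 / D)) := by
          rw [← hP]
          ring
        rw [h2]
        exact mul_le_mul_of_nonneg_left hstar hV
  · rw [prod_loss3 _ _ he hlow hex]
    have hS' : SS q a (j + 1) = S.erase e := Subset.antisymm hsub (erase_sub hlow hex)
    have hej : e < j := (mem_SS.mp he).1
    have hfj : fac Q x G H K q a j j = 1 := by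
      obtain ⟨h, hh, hdeg, hp⟩ := hex
      unfold fac
      rw [if_pos rfl, if_neg (fun h3 => hp (h3.1 h hh (by omega)))]
    rw [hfj, mul_one, hS', ← hSd]
    set p := cl q (S.filter (fun d => d < e)) with hp
    set P := ∏ d ∈ (mins q S).filter (fun d => d < e), Xf Q x H q S j d with hPd
    have hC4 : x ^ p * (1 + (sg q S j e : ℝ)) ≤ P * (1 + (τ : ℝ)) :=
      prod_below hx hH1 hxQ
    have hsg0 : (0 : ℝ) ≤ (sg q S j e : ℝ) := Nat.cast_nonneg _
    by_cases hm : e ∈ mins q S
    · rw [if_pos hm]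
      by_cases hr : e ∈ rn q S j ∧ ¬ occ q S j
      · have h1 := Vt_loss_run hx hG hq hS he hr.1 hm hr.2
        rw [← hτ, ← hp] at h1
        have hY : Yf x K q S j e = K / (1 + (sg q S j e : ℝ)) := by
          unfold Yf
          rw [if_pos hr]
        rw [hY, ← mul_le_mul_iff_left₀ hτ0]
        refine h1.trans ?_
        have h2 : Vt x G q S j * (1 / K * (P * (K / (1 + (sg q S j e : ℝ))))) * (1 + (τ : ℝ)) =
            Vt x G q S j * ((P * (1 + (τ : ℝ))) / (1 + (sg q S j e : ℝ))) := by
          field_simp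
        rw [h2]
        apply mul_le_mul_of_nonneg_left _ hV
        rw [le_div_iff₀ (by positivity)]
        exact hC4
      · have h1 := Vt_loss_min hx hG hq hbig hS he hm hr
        have hY : Yf x K q S j e = K / x := by
          unfold Yf
          rw [if_neg hr]
        have hP3 : P = (x * H ^ 2) ^ p := prod_below_out hS he hr
        rw [hY, hP3, hH]
        refine h1.trans ?_
        apply mul_le_mul_of_nonneg_left _ hV
        rw [← hp]
        have h2 : 1 / K * ((x * (K * G)) ^ p * (K / x)) = x ^ p * (1 / x) * (K * G) ^ p := by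
          rw [mul_pow]
          field_simp
        rw [h2]
        apply le_mul_of_one_le_right (by positivity)
        exact one_le_pow₀ hKG1
    · rw [if_neg hm, mul_one]
      have h1 := Vt_loss_non hx hG hq hS he hm
      rw [← hτ, ← hp] at h1
      rw [← mul_le_mul_iff_left₀ hτ0]
      refine h1.trans ?_
      rw [mul_assoc]
      apply mul_le_mul_of_nonneg_left _ hV
      have h2 : 1 / K * P * (1 + (τ : ℝ)) = 1 / K * (P * (1 + (τ : ℝ))) := by ring
      rw [h2]
      have h3 : 1 / x ≤ 1 / K := one_div_le_one_div_of_le hK0 hKx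
      have h4 : x ^ p ≤ P * (1 + (τ : ℝ)) := by
        refine le_trans ?_ hC4
        apply le_mul_of_one_le_right (by positivity)
        linarith
      calc x ^ p * (1 / x) ≤ x ^ p * (1 / K) := mul_le_mul_of_nonneg_left h3 (by positivity)
        _ ≤ (P * (1 + (τ : ℝ))) * (1 / K) := mul_le_mul_of_nonneg_right h4 (by positivity)
        _ = 1 / K * (P * (1 + (τ : ℝ))) := by ring

end FS12
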