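import Pool.Agent.helper11.FR.Asm

open Finset

namespace FS11

open Classical in
/-- the top run of `S` inside the window of the last `q - 1` places before `j` -/
noncomputable def rn (q : ℕ) (S : Finset ℕ) (j : ℕ) : Finset ℕ :=
  S.filter (fun d => j - d < q ∧ ∀ i, d < i → i < j → i ∈ S)

/-- the class of `j` modulo `q` is met by `S` -/
def occ (q : ℕ) (S : Finset ℕ) (j : ℕ) : Prop := ∃ d ∈ S, d % q = j % q

/-- number of class minima in the top run -/
noncomputable def tau (q : ℕ) (S : Finset ℕ) (j : ℕ) : ℕ := (rn q S j ∩ FR11.mins q S).card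

/-- number of class minima in the top run which are at least `d` -/
noncomputable def sg (q : ℕ) (S : Finset ℕ) (j d : ℕ) : ℕ :=
  ((rn q S j ∩ FR11.mins q S).filter (fun d' => d ≤ d')).card

/-- the potential -/
noncomputable def Vt (x G : ℝ) (q : ℕ) (S : Finset ℕ) (j : ℕ) : ℝ :=
  x ^ (∑ d ∈ S, min (j - d) q) * (1 / x) ^ (FR11.cl q S) *
    ((1 + (tau q S j : ℝ)) * G ^ (((rn q S j).card - 1).choose 2))

open Classical in
/-- factor of a passed test -/
noncomputable def Xf (Q x G : ℝ) (q : ℕ) (S : Finset ℕ) (j d : ℕ) : ℝ :=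
  if d ∈ rn q S j ∧ ¬ occ q S j then Q * sg q S j d / (1 + sg q S j d) else x * G ^ 2

open Classical in
/-- factor of a failed test -/
noncomputable def Yf (x G : ℝ) (q : ℕ) (S : Finset ℕ) (j d : ℕ) : ℝ :=
  if d ∈ rn q S j ∧ ¬ occ q S j then G / (1 + sg q S j d) else G / x

/-- factor of the corner digit without gain -/
noncomputable def Mc (Q G : ℝ) (q : ℕ) (S : Finset ℕ) (j : ℕ) : ℝ :=
  1 / ((2 + (tau q S j : ℝ)) * G ^ ((rn q S j).card - 1) / Q + 1 - 1 / Q)

end FS11
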