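import Pool.Agent.helper11.FS.Main4
import Pool.Agent.helper11.FR.Final

open Polynomial Finset

namespace FS12

open FR11

variable {F : Type} [Field F]

/-- the bound for the polarised equation, odd characteristic -/
theorem Zs_bound_odd [Fintype F] (h2 : (2 : F) ≠ 0) (l e n : ℕ) (he : 1 ≤ e) (hn : 1 ≤ n)
    (hQ : 9 ≤ Fintype.card F)
    (hl : (Fintype.card F) ^ l ≤ (Fintype.card F - 2) ^ ((Fintype.card F) ^ e)) :
    (Nat.card (Zs F l ((Fintype.card F) ^ e) n) : ℝ) ≤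
      (((Fintype.card F : ℝ) - 2) ^ ((Fintype.card F) ^ e * (Fintype.card F) ^ e) *
        ((Fintype.card F : ℝ) - 2) ^ ((Fintype.card F) ^ e) *
        (1 + 2 * (2 * (Fintype.card F : ℝ) ^ 2 + 1))) * (Fintype.card F : ℝ) ^ (l * n) := by
  classical
  set q : ℕ := (Fintype.card F) ^ e with hqd
  have hq : Fintype.card F ≤ q := by
    have h1 : (Fintype.card F) ^ 1 ≤ (Fintype.card F) ^ e :=
      Nat.pow_le_pow_right (by omega) he
    rw [pow_one] at h1
    exact h1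
  have hcast : (((Fintype.card F - 2 : ℕ)) : ℝ) = (Fintype.card F : ℝ) - 2 := by
    rw [Nat.cast_sub (by omega)]
    norm_num
  set Q : ℝ := (Fintype.card F : ℝ) with hQd
  have hQ9 : (9 : ℝ) ≤ Q := by
    rw [hQd]
    exact_mod_cast hQ
  have hx0 : (0 : ℝ) < Q - 2 := by linarith
  set A : ℝ := (Q - 2) ^ (q * q) * (Q - 2) ^ q * (1 + 2 * (2 * Q ^ 2 + 1)) with hA
  have hlR : Q ^ l ≤ (Q - 2) ^ q := by
    rw [← hcast, hQd]
    exact_mod_cast hl
  have hpt : ∀ α : Fin ((q + 1) * n) → F,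
      (Nat.card (Rad q (ex _ α) n) : ℝ) ^ l ≤ (Q - 2) ^ (q * (SS q (ex _ α) n).card) := by
    intro α
    have h1 : (Nat.card (Rad q (ex _ α) n) : ℝ) ≤ Q ^ (SS q (ex _ α) n).card := by
      have h2 := card_Rad_le q (ex _ α) n
      rw [hQd]
      exact_mod_cast h2
    calc (Nat.card (Rad q (ex _ α) n) : ℝ) ^ l
        ≤ (Q ^ (SS q (ex _ α) n).card) ^ l := pow_le_pow_left₀ (Nat.cast_nonneg _) h1 l
      _ = (Q ^ l) ^ (SS q (ex _ α) n).card := by
          rw [← pow_mul, ← pow_mul, mul_comm]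
      _ ≤ ((Q - 2) ^ q) ^ (SS q (ex _ α) n).card := pow_le_pow_left₀ (by positivity) hlR _
      _ = (Q - 2) ^ (q * (SS q (ex _ α) n).card) := (pow_mul _ _ _).symm
  have h1 := Zs_le (F := F) l e n he hn
  rw [← hqd, ← hQd] at h1
  have h3 : ∑ α : Fin ((q + 1) * n) → F, (Nat.card (Rad q (ex _ α) n) : ℝ) ^ l ≤
      A * Q ^ ((q + 1) * n) :=
    (sum_le_sum (fun α _ => hpt α)).trans (main_est4 h2 q n hQ hq)
  have hT : 0 < Q ^ ((q + 1) * n) := by positivity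
  have h4 : (Nat.card (Zs F l q n) : ℝ) * Q ^ ((q + 1) * n) ≤
      (A * Q ^ (l * n)) * Q ^ ((q + 1) * n) := by
    refine h1.trans ?_
    have h5 := mul_le_mul_of_nonneg_left h3 (by positivity : 0 ≤ Q ^ (l * n))
    refine h5.trans (le_of_eq ?_)
    ring
  exact le_of_mul_le_mul_right h4 hT

theorem pairs_bound_odd [Fintype F] (h2 : (2 : F) ≠ 0) (l e : ℕ) (he : 1 ≤ e)
    (hQ : 9 ≤ Fintype.card F)
    (hl : (Fintype.card F) ^ l ≤ (Fintype.card F - 2) ^ ((Fintype.card F) ^ e)) :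
    ∃ C : ℝ, 0 < C ∧ ∀ N, (Nat.card (HF48.Pairs F l ((Fintype.card F) ^ e + 1) N) : ℝ) ≤
      C * (Fintype.card F : ℝ) ^ (l * N) := by
  have hQ9 : (9 : ℝ) ≤ (Fintype.card F : ℝ) := by
    exact_mod_cast hQ
  have hx0 : (0 : ℝ) < (Fintype.card F : ℝ) - 2 := by linarith
  refine ⟨(((Fintype.card F : ℝ) - 2) ^ ((Fintype.card F) ^ e * (Fintype.card F) ^ e) *
        ((Fintype.card F : ℝ) - 2) ^ ((Fintype.card F) ^ e) *
        (1 + 2 * (2 * (Fintype.card F : ℝ) ^ 2 + 1))) * (Fintype.card F : ℝ) ^ l,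
        by positivity, ?_⟩
  intro N
  have h1 : (Nat.card (HF48.Pairs F l ((Fintype.card F) ^ e + 1) N) : ℝ) ≤
      (Nat.card (Zs F l ((Fintype.card F) ^ e) (N + 1)) : ℝ) := by
    exact_mod_cast pairs_le_Zs l e N he
  refine h1.trans ((Zs_bound_odd h2 l e (N + 1) he (by omega) hQ hl).trans (le_of_eq ?_))
  rw [Nat.mul_succ l N, pow_add]
  ring

theorem near_full_odd [Fintype F] (h2 : (2 : F) ≠ 0) (l e : ℕ) (he : 1 ≤ e)
    (hQ : 9 ≤ Fintype.card F)
    (hl : (Fintype.card F) ^ l ≤ (Fintype.card F - 2) ^ ((Fintype.card F) ^ e)) :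
    ∃ c : ℝ, 0 < c ∧ ∀ D : ℕ,
      c * (Fintype.card F : ℝ) ^ ((l : ℝ) * D / (((Fintype.card F) ^ e + 1 : ℕ) : ℝ)) ≤
      Nat.card {f : F[X] // f.natDegree ≤ D ∧
          ∃ x : Fin l → F[X], (∀ i, ((Fintype.card F) ^ e + 1) * (x i).natDegree ≤ D) ∧
            f = ∑ i, x i ^ ((Fintype.card F) ^ e + 1)} := by
  obtain ⟨C, hC0, hC⟩ := pairs_bound_odd h2 l e he hQ hl
  exact rep_of_pairs l _ (Nat.succ_pos _) C hC0 hC

/-- two is not zero in a finite field with an odd number of elements -/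
theorem two_ne_zero_of_odd [Fintype F] (ho : Odd (Fintype.card F)) : (2 : F) ≠ 0 := by
  intro h
  have h1 : ringChar F = 2 := by
    have h2 : ringChar F ∣ 2 := by
      rw [← CharP.cast_eq_zero_iff F (ringChar F) 2]
      exact_mod_cast h
    rcases (Nat.dvd_prime Nat.prime_two).mp h2 with h3 | h3
    · exact absurd h3 (CharP.ringChar_ne_one)
    · exact h3
  have h4 := (FiniteField.even_card_iff_char_two (F := F)).mp h1
  have h5 := Nat.odd_iff.mp ho
  omega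

/-- all three ranges -/
theorem near_full_all [Fintype F] (l e : ℕ) (he : 1 ≤ e)
    (hl : (Odd (Fintype.card F) ∧ 11 ≤ Fintype.card F ∧ e = 1 ∧ l + 1 ≤ Fintype.card F) ∨
      (Odd (Fintype.card F) ∧ 9 ≤ Fintype.card F ∧
        (Fintype.card F) ^ l ≤ (Fintype.card F - 2) ^ ((Fintype.card F) ^ e)) ∨
      (8 ≤ Fintype.card F ∧ 4 ^ ((Fintype.card F) ^ e) * (Fintype.card F) ^ l ≤
        (Fintype.card F) ^ ((Fintype.card F) ^ e))) :
    ∃ c : ℝ, 0 < c ∧ ∀ D : ℕ,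
      c * (Fintype.card F : ℝ) ^ ((l : ℝ) * D / (((Fintype.card F) ^ e + 1 : ℕ) : ℝ)) ≤
      Nat.card {f : F[X] // f.natDegree ≤ D ∧
          ∃ x : Fin l → F[X], (∀ i, ((Fintype.card F) ^ e + 1) * (x i).natDegree ≤ D) ∧
            f = ∑ i, x i ^ ((Fintype.card F) ^ e + 1)} := by
  rcases hl with ⟨ho, hQ, he1, hl⟩ | ⟨ho, hQ, hl⟩ | ⟨hQ, hl⟩
  · refine near_full_odd (two_ne_zero_of_odd ho) l e he (by omega) ?_
    rw [he1, pow_one]
    refine le_trans ?_ (FS11.n4_full hQ)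
    exact Nat.pow_le_pow_right (by omega) (by omega)
  · exact near_full_odd (two_ne_zero_of_odd ho) l e he hQ hl
  · exact near_full l e he hQ hl

end FS12
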