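import Pool.Agent.helper11.FS.Top
import Pool.Agent.helper11.FR.Final

open Polynomial Finset

namespace FS48

open FR11

variable {F : Type} [Field F]

open HF48 in
/-- from a bound for pairs to the number of values, with a base `z` -/
theorem rep_of_pairs_base [Fintype F] (l k : ℕ) (hk : 0 < k) {z C : ℝ} (hz : 1 ≤ z) (hC0 : 0 < C)
    (hC : ∀ N, (Nat.card (HF48.Pairs F l k N) : ℝ) * z ^ (N + 1) ≤
      C * ((Fintype.card F : ℝ) ^ (l * (N + 1))) ^ 2) :
    ∃ c : ℝ, 0 < c ∧ ∀ D : ℕ, c * z ^ ((D : ℝ) / k) ≤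
      Nat.card {f : F[X] // f.natDegree ≤ D ∧
          ∃ x : Fin l → F[X], (∀ i, k * (x i).natDegree ≤ D) ∧ f = ∑ i, x i ^ k} := by
  classical
  have hQ1 : (1 : ℝ) ≤ Fintype.card F := by exact_mod_cast Fintype.card_pos
  have hQ0 : (0 : ℝ) < Fintype.card F := by linarith
  have hz0 : 0 < z := by linarith
  have main : ∀ D : ℕ, 1 / C * z ^ ((D : ℝ) / k) ≤ Nat.card (Rep F l k D) := by
    intro D
    set N : ℕ := D / k with hN
    have hDN : D < k * (N + 1) := by
      rw [hN]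
      exact (Nat.lt_mul_div_succ D hk)
    have hkN : k * N ≤ D := Nat.mul_div_le D k
    have h1 := values_ge (F := F) l k N
    set I := ((finite_L (F := F) l (N + 1)).toFinset.image (fun x => ∑ i, x i ^ k)) with hI
    have h2 : I.card ≤ Nat.card (Rep F l k D) := by
      have h3 : (I : Set F[X]) ⊆ Rep F l k D := by
        intro f hf
        rw [hI, Finset.mem_coe, Finset.mem_image] at hf
        obtain ⟨x, hx, rfl⟩ := hf
        rw [Set.Finite.mem_toFinset] at hx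
        have hx' : ∀ i, (x i).natDegree ≤ N := mem_L_iff.mp hx
        have hx2 : ∀ i, k * (x i).natDegree ≤ D := fun i =>
          (Nat.mul_le_mul_left k (hx' i)).trans hkN
        refine ⟨?_, x, hx2, rfl⟩
        apply Polynomial.natDegree_sum_le_of_forall_le
        intro i _
        exact (Polynomial.natDegree_pow_le).trans (hx2 i)
      have h4 := Set.ncard_le_ncard h3 (finite_Rep l k D)
      rw [Set.ncard_coe_finset] at h4
      exact h4
    set P : ℝ := (Nat.card (Pairs F l k N) : ℝ) with hP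
    have hP0 : 0 ≤ P := Nat.cast_nonneg _
    set R : ℝ := (Nat.card (Rep F l k D) : ℝ) with hR
    have hR0 : 0 ≤ R := Nat.cast_nonneg _
    set T : ℝ := ((Fintype.card F : ℝ) ^ (l * (N + 1))) ^ 2 with hT
    have hT0 : 0 < T := by positivity
    have h3 : T ≤ R * P := by
      calc T ≤ (I.card : ℝ) * P := by
            rw [hT, hP]
            exact_mod_cast h1
        _ ≤ R * P := by
            apply mul_le_mul_of_nonneg_right _ hP0
            rw [hR]
            exact_mod_cast h2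
    have h4 : z ^ ((D : ℝ) / (k : ℝ)) ≤ z ^ (N + 1) := by
      rw [← Real.rpow_natCast]
      apply Real.rpow_le_rpow_of_exponent_le hz
      rw [div_le_iff₀ (by exact_mod_cast hk)]
      have h5 : (D : ℝ) ≤ k * (N + 1) := by exact_mod_cast hDN.le
      push_cast
      linarith
    have h5 : z ^ (N + 1) ≤ C * R := by
      have h6 : z ^ (N + 1) * T ≤ (C * R) * T := by
        calc z ^ (N + 1) * T ≤ z ^ (N + 1) * (R * P) :=
              mul_le_mul_of_nonneg_left h3 (by positivity)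
          _ = R * (P * z ^ (N + 1)) := by ring
          _ ≤ R * (C * T) := mul_le_mul_of_nonneg_left (hC N) hR0
          _ = (C * R) * T := by ring
      exact le_of_mul_le_mul_right h6 hT0
    rw [one_div, inv_mul_le_iff₀ hC0]
    exact h4.trans h5
  exact ⟨1 / C, by positivity, main⟩

/-- from a moment estimate to the number of values -/
theorem rep_of_moment [Fintype F] (e l : ℕ) (he : 1 ≤ e) {y z C0 : ℝ} (hz : 1 ≤ z)
    (hzy : z ≤ y) (hzl : z ≤ (Fintype.card F : ℝ) ^ l) (hC0 : 0 < C0)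
    (hmain : ∀ n, ∑ α : Fin ((Fintype.card F ^ e + 1) * n) → F,
      y ^ ((SS (Fintype.card F ^ e) (ex _ α) n).card) ≤
      C0 * (Fintype.card F : ℝ) ^ ((Fintype.card F ^ e + 1) * n)) :
    ∃ c : ℝ, 0 < c ∧ ∀ D : ℕ,
      c * z ^ ((D : ℝ) / ((Fintype.card F ^ e + 1 : ℕ) : ℝ)) ≤
      Nat.card {f : F[X] // f.natDegree ≤ D ∧
          ∃ x : Fin l → F[X], (∀ i, (Fintype.card F ^ e + 1) * (x i).natDegree ≤ D) ∧
            f = ∑ i, x i ^ (Fintype.card F ^ e + 1)} := by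
  classical
  have hz0 : 0 < z := by linarith
  refine rep_of_pairs_base (F := F) l (Fintype.card F ^ e + 1) (Nat.succ_pos _) hz hC0
    (fun N => ?_)
  set Q : ℕ := Fintype.card F with hQd
  set q : ℕ := Q ^ e with hqd
  have hQ1 : 1 ≤ Q := Fintype.card_pos_iff.2 ⟨(0 : F)⟩
  have hQ0 : (0 : ℝ) < (Q : ℝ) := by exact_mod_cast hQ1
  have h1 : (Nat.card (HF48.Pairs F l (q + 1) N) : ℝ) ≤ (Nat.card (Zs F l q (N + 1)) : ℝ) := by
    exact_mod_cast pairs_le_Zs (F := F) l e N he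
  have h2 := Zs_le (F := F) l e (N + 1) he (Nat.succ_le_succ (Nat.zero_le N))
  have h3 : (∑ α : Fin ((q + 1) * (N + 1)) → F,
      (Nat.card (Rad q (ex _ α) (N + 1)) : ℝ) ^ l) * z ^ (N + 1) ≤
      (∑ α : Fin ((q + 1) * (N + 1)) → F, y ^ ((SS q (ex _ α) (N + 1)).card)) *
        (Q : ℝ) ^ (l * (N + 1)) := by
    rw [sum_mul, sum_mul]
    refine sum_le_sum fun α _ => ?_
    set s : ℕ := (SS q (ex _ α) (N + 1)).card with hs
    have h4 : (Nat.card (Rad q (ex _ α) (N + 1)) : ℝ) ≤ (Q : ℝ) ^ s := by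
      exact_mod_cast card_Rad_le (F := F) q (ex _ α) (N + 1)
    have hsn : s ≤ N + 1 := by
      have h5 : SS q (ex _ α) (N + 1) ⊆ range (N + 1) := by
        intro d hd
        exact mem_range.mpr (mem_SS.mp hd).1
      have h6 := card_le_card h5
      rw [card_range] at h6
      exact h6
    obtain ⟨u, hu⟩ : ∃ u, N + 1 = s + u := ⟨N + 1 - s, by omega⟩
    calc (Nat.card (Rad q (ex _ α) (N + 1)) : ℝ) ^ l * z ^ (N + 1)
        ≤ ((Q : ℝ) ^ s) ^ l * z ^ (N + 1) :=
          mul_le_mul_of_nonneg_right (pow_le_pow_left₀ (Nat.cast_nonneg _) h4 l) (by positivity)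
      _ = ((Q : ℝ) ^ l) ^ s * (z ^ s * z ^ u) := by
          rw [hu, pow_add, ← pow_mul, ← pow_mul, mul_comm s l]
      _ ≤ ((Q : ℝ) ^ l) ^ s * (y ^ s * ((Q : ℝ) ^ l) ^ u) := by
          apply mul_le_mul_of_nonneg_left _ (by positivity)
          exact mul_le_mul (pow_le_pow_left₀ hz0.le hzy s) (pow_le_pow_left₀ hz0.le hzl u)
            (by positivity) (pow_nonneg (by linarith) s)
      _ = y ^ s * (Q : ℝ) ^ (l * (N + 1)) := by
          rw [hu, mul_add, pow_add, pow_mul, pow_mul]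
          ring
  have h5 := hmain (N + 1)
  have h6 : ((Nat.card (Zs F l q (N + 1)) : ℝ) * z ^ (N + 1)) * (Q : ℝ) ^ ((q + 1) * (N + 1)) ≤
      (C0 * ((Q : ℝ) ^ (l * (N + 1))) ^ 2) * (Q : ℝ) ^ ((q + 1) * (N + 1)) := by
    calc ((Nat.card (Zs F l q (N + 1)) : ℝ) * z ^ (N + 1)) * (Q : ℝ) ^ ((q + 1) * (N + 1))
        = ((Nat.card (Zs F l q (N + 1)) : ℝ) * (Q : ℝ) ^ ((q + 1) * (N + 1))) * z ^ (N + 1) := by
          ring
      _ ≤ ((Q : ℝ) ^ (l * (N + 1)) *
          ∑ α : Fin ((q + 1) * (N + 1)) → F, (Nat.card (Rad q (ex _ α) (N + 1)) : ℝ) ^ l) *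
            z ^ (N + 1) := mul_le_mul_of_nonneg_right h2 (by positivity)
      _ = (Q : ℝ) ^ (l * (N + 1)) *
          ((∑ α : Fin ((q + 1) * (N + 1)) → F, (Nat.card (Rad q (ex _ α) (N + 1)) : ℝ) ^ l) *
            z ^ (N + 1)) := by ring
      _ ≤ (Q : ℝ) ^ (l * (N + 1)) *
          ((C0 * (Q : ℝ) ^ ((q + 1) * (N + 1))) * (Q : ℝ) ^ (l * (N + 1))) := by
          refine mul_le_mul_of_nonneg_left ?_ (by positivity)
          refine h3.trans ?_
          exact mul_le_mul_of_nonneg_right h5 (by positivity)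
      _ = _ := by ring
  have h7 := le_of_mul_le_mul_right h6 (by positivity)
  refine le_trans ?_ h7
  exact mul_le_mul_of_nonneg_right h1 (by positivity)

/-- odd characteristic -/
theorem rep_odd [Fintype F] (e l : ℕ) (he : 1 ≤ e) (h2 : (2 : F) ≠ 0)
    (hQ : 9 ≤ Fintype.card F) {z : ℝ} (hz : 1 ≤ z) (hzl : z ≤ (Fintype.card F : ℝ) ^ l)
    (hzy : z ≤ (Fintype.card F : ℝ) * ((Fintype.card F : ℝ) - 2) ^ (Fintype.card F ^ e)) :
    ∃ c : ℝ, 0 < c ∧ ∀ D : ℕ,
      c * z ^ ((D : ℝ) / ((Fintype.card F ^ e + 1 : ℕ) : ℝ)) ≤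
      Nat.card {f : F[X] // f.natDegree ≤ D ∧
          ∃ x : Fin l → F[X], (∀ i, (Fintype.card F ^ e + 1) * (x i).natDegree ≤ D) ∧
            f = ∑ i, x i ^ (Fintype.card F ^ e + 1)} := by
  have hQR : (9 : ℝ) ≤ (Fintype.card F : ℝ) := by exact_mod_cast hQ
  have hx0 : (0 : ℝ) < (Fintype.card F : ℝ) - 2 := by linarith
  have hQ0 : (0 : ℝ) < (Fintype.card F : ℝ) := by linarith
  have hq1 : Fintype.card F ≤ Fintype.card F ^ e := by
    calc Fintype.card F = Fintype.card F ^ 1 := (pow_one _).symm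
      _ ≤ _ := Nat.pow_le_pow_right (by omega) he
  exact rep_of_moment (F := F) e l he hz hzy hzl (by positivity)
    (fun n => FS12.main_est5 h2 (Fintype.card F ^ e) n hQ hq1)

/-- all characteristics -/
theorem rep_all [Fintype F] (e l : ℕ) (he : 1 ≤ e)
    (hQ : 8 ≤ Fintype.card F) {z : ℝ} (hz : 1 ≤ z) (hzl : z ≤ (Fintype.card F : ℝ) ^ l)
    (hzy : z ≤ ((Fintype.card F : ℝ) / 4) ^ (Fintype.card F ^ e)) :
    ∃ c : ℝ, 0 < c ∧ ∀ D : ℕ,
      c * z ^ ((D : ℝ) / ((Fintype.card F ^ e + 1 : ℕ) : ℝ)) ≤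
      Nat.card {f : F[X] // f.natDegree ≤ D ∧
          ∃ x : Fin l → F[X], (∀ i, (Fintype.card F ^ e + 1) * (x i).natDegree ≤ D) ∧
            f = ∑ i, x i ^ (Fintype.card F ^ e + 1)} := by
  have hQR : (8 : ℝ) ≤ (Fintype.card F : ℝ) := by exact_mod_cast hQ
  have hQ0 : (0 : ℝ) < (Fintype.card F : ℝ) := by linarith
  have hq2 : 2 ≤ Fintype.card F ^ e := by
    calc 2 ≤ Fintype.card F ^ 1 := by rw [pow_one]; omega
      _ ≤ _ := Nat.pow_le_pow_right (by omega) he
  refine rep_of_moment (F := F) e l he hz hzy hzl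
    (C0 := (((Fintype.card F : ℝ) / 4) ^ (Fintype.card F ^ e * Fintype.card F ^ e) *
        (((Fintype.card F : ℝ) / 4) / 2) ^ (Fintype.card F ^ e) *
        (1 + 4 * Fintype.card F))) (by positivity) (fun n => ?_)
  simp only [← pow_mul]
  exact main_est (Fintype.card F ^ e) n hq2 hQ

end FS48
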