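import Mathlib

open Finset

namespace FS11

theorem n3_digit {Q : ℝ} (hQ : 9 ≤ Q) :
    (Q - 2) * ((1 + 1 / (2 * Q ^ 2)) * (1 + 1 / Q)) +
      (Q - 1) * ((1 + 1 / (2 * Q ^ 2)) / (Q - 2)) ≤ Q := by
  obtain ⟨u, rfl⟩ : ∃ u, Q = 9 + u := ⟨Q - 9, by ring⟩
  have hu : 0 ≤ u := by linarith
  have h0 : 0 < 9 + u := by linarith
  have h2 : 0 < 9 + u - 2 := by linarith
  have key : (9 + u) - ((9 + u - 2) * ((1 + 1 / (2 * (9 + u) ^ 2)) * (1 + 1 / (9 + u))) +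
      (9 + u - 1) * ((1 + 1 / (2 * (9 + u) ^ 2)) / (9 + u - 2))) =
      (2 * (9 + u) ^ 4 * (9 + u - 2) - (2 * (9 + u) ^ 2 + 1) *
        ((9 + u - 2) ^ 2 * (9 + u + 1) + (9 + u) * (9 + u - 1))) /
        (2 * (9 + u) ^ 3 * (9 + u - 2)) := by
    field_simp
  have hnum : 0 ≤ 2 * (9 + u) ^ 4 * (9 + u - 2) - (2 * (9 + u) ^ 2 + 1) *
        ((9 + u - 2) ^ 2 * (9 + u + 1) + (9 + u) * (9 + u - 1)) := by
    ring_nf
    positivity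
  have : 0 ≤ (2 * (9 + u) ^ 4 * (9 + u - 2) - (2 * (9 + u) ^ 2 + 1) *
        ((9 + u - 2) ^ 2 * (9 + u + 1) + (9 + u) * (9 + u - 1))) /
        (2 * (9 + u) ^ 3 * (9 + u - 2)) := by positivity
  linarith

theorem n3_run {Q : ℝ} (hQ : 9 ≤ Q) (s : ℕ) :
    Q * s / (1 + s) + (Q - 1) * ((1 + 1 / (2 * Q ^ 2)) / (1 + s)) ≤ Q := by
  have h0 : 0 < Q := by linarith
  have hs : (0 : ℝ) < 1 + (s : ℝ) := by positivity
  have key : Q - (Q * s / (1 + s) + (Q - 1) * ((1 + 1 / (2 * Q ^ 2)) / (1 + s))) =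
      (2 * Q ^ 2 - Q + 1) / (2 * Q ^ 2) / (1 + s) := by
    field_simp
    ring
  have hn : 0 ≤ 2 * Q ^ 2 - Q + 1 := by nlinarith
  have : 0 ≤ (2 * Q ^ 2 - Q + 1) / (2 * Q ^ 2) / (1 + (s : ℝ)) := by positivity
  linarith

lemma n3_step {Q : ℝ} (hQ : 9 ≤ Q) (n : ℕ) :
    (1 - 1 / Q - 2 / Q ^ 2) ^ n * (1 - (4 + (n : ℝ)) * (1 / Q + 2 / Q ^ 2)) ≤
      2 * (1 - 1 / Q) * (1 - 2 / Q) ^ n := by
  have h0 : 0 < Q := by linarith
  have h1 : 0 < Q + 1 := by linarith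
  have hi : 1 / Q ≤ 1 / 9 := one_div_le_one_div_of_le (by norm_num) hQ
  have hi0 : 0 < 1 / Q := by positivity
  have hsq : 2 / Q ^ 2 = 2 * (1 / Q) * (1 / Q) := by field_simp
  have ha : 0 ≤ 1 - 1 / Q - 2 / Q ^ 2 := by
    rw [hsq]; nlinarith
  have hb : 0 ≤ 1 - 2 / Q := by
    rw [sub_nonneg, div_le_one h0]; linarith
  have hd : 0 ≤ 1 - 1 / Q := by linarith
  rcases le_or_gt Q (n : ℝ) with h | h
  · have h3 : 1 - (4 + (n : ℝ)) * (1 / Q + 2 / Q ^ 2) ≤ 0 := by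
      have e : 1 ≤ (n : ℝ) * (1 / Q) := by
        rw [mul_one_div, le_div_iff₀ h0]; linarith
      have e2 : 0 ≤ (n : ℝ) * (2 / Q ^ 2) := by positivity
      have e3 : 0 ≤ 4 * (1 / Q + 2 / Q ^ 2) := by positivity
      nlinarith
    have h4 : (1 - 1 / Q - 2 / Q ^ 2) ^ n * (1 - (4 + (n : ℝ)) * (1 / Q + 2 / Q ^ 2)) ≤ 0 :=
      mul_nonpos_of_nonneg_of_nonpos (pow_nonneg ha n) h3
    have h5 : 0 ≤ 2 * (1 - 1 / Q) * (1 - 2 / Q) ^ n := by positivity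
    linarith
  · have hlin : 1 - (4 + (n : ℝ)) * (1 / Q + 2 / Q ^ 2) ≤
        2 * (1 - 1 / Q) * (1 + (n : ℝ) * (-(1 / (Q + 1)))) := by
      have key : 2 * (1 - 1 / Q) * (1 + (n : ℝ) * (-(1 / (Q + 1)))) -
          (1 - (4 + (n : ℝ)) * (1 / Q + 2 / Q ^ 2)) =
          ((Q + 1) * (Q ^ 2 + 2 * Q + 8) - n * (Q ^ 2 - 5 * Q - 2)) / (Q ^ 2 * (Q + 1)) := by
        field_simp
        ring
      have hn : 0 ≤ (Q + 1) * (Q ^ 2 + 2 * Q + 8) - n * (Q ^ 2 - 5 * Q - 2) := by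
        have e0 : 0 ≤ Q ^ 2 - 5 * Q - 2 := by nlinarith
        have e1 : (n : ℝ) * (Q ^ 2 - 5 * Q - 2) ≤ Q * (Q ^ 2 - 5 * Q - 2) :=
          mul_le_mul_of_nonneg_right h.le e0
        nlinarith
      have : 0 ≤ ((Q + 1) * (Q ^ 2 + 2 * Q + 8) - n * (Q ^ 2 - 5 * Q - 2)) /
          (Q ^ 2 * (Q + 1)) := by positivity
      linarith
    have hbern : 1 + (n : ℝ) * (-(1 / (Q + 1))) ≤ (1 + (-(1 / (Q + 1)))) ^ n := by
      apply one_add_mul_le_pow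
      have : 1 / (Q + 1) ≤ 1 := by rw [div_le_one h1]; linarith
      linarith
    have heq : 1 - 2 / Q = (1 - 1 / Q - 2 / Q ^ 2) * (1 + (-(1 / (Q + 1)))) := by
      field_simp
      ring
    have hlin2 : 1 - (4 + (n : ℝ)) * (1 / Q + 2 / Q ^ 2) ≤
        2 * (1 - 1 / Q) * (1 + (-(1 / (Q + 1)))) ^ n :=
      hlin.trans (mul_le_mul_of_nonneg_left hbern (by positivity))
    rw [heq, mul_pow]
    calc (1 - 1 / Q - 2 / Q ^ 2) ^ n * (1 - (4 + (n : ℝ)) * (1 / Q + 2 / Q ^ 2))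
        ≤ (1 - 1 / Q - 2 / Q ^ 2) ^ n * (2 * (1 - 1 / Q) * (1 + (-(1 / (Q + 1)))) ^ n) :=
          mul_le_mul_of_nonneg_left hlin2 (pow_nonneg ha n)
      _ = 2 * (1 - 1 / Q) * ((1 - 1 / Q - 2 / Q ^ 2) ^ n * (1 + (-(1 / (Q + 1)))) ^ n) := by
          ring

lemma n3_bound {Q : ℝ} (hQ : 9 ≤ Q) (k : ℕ) :
    (3 + (k : ℝ)) * ((1 - 1 / Q - 2 / Q ^ 2) ^ k * (1 - 2 / Q)) / Q +
      (1 - 1 / Q) * (1 - 2 / Q) ^ (k + 1) ≤ 1 - 4 / Q ^ 2 := by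
  have h0 : 0 < Q := by linarith
  induction k with
  | zero =>
    apply le_of_eq
    push_cast
    field_simp
    ring
  | succ n ih =>
    have hs := n3_step hQ n
    have hb : 0 ≤ 1 - 2 / Q := by
      rw [sub_nonneg, div_le_one h0]; linarith
    have h1 : ((3 + ((n + 1 : ℕ) : ℝ)) * ((1 - 1 / Q - 2 / Q ^ 2) ^ (n + 1) * (1 - 2 / Q)) / Q +
        (1 - 1 / Q) * (1 - 2 / Q) ^ (n + 1 + 1)) -
        ((3 + (n : ℝ)) * ((1 - 1 / Q - 2 / Q ^ 2) ^ n * (1 - 2 / Q)) / Q +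
          (1 - 1 / Q) * (1 - 2 / Q) ^ (n + 1)) =
        (1 - 2 / Q) / Q * ((1 - 1 / Q - 2 / Q ^ 2) ^ n *
          (1 - (4 + (n : ℝ)) * (1 / Q + 2 / Q ^ 2)) - 2 * (1 - 1 / Q) * (1 - 2 / Q) ^ n) := by
      rw [pow_succ (1 - 1 / Q - 2 / Q ^ 2) n, pow_succ (1 - 2 / Q) (n + 1),
        pow_succ (1 - 2 / Q) n]
      generalize (1 - 1 / Q - 2 / Q ^ 2) ^ n = A
      generalize (1 - 2 / Q) ^ n = B
      push_cast
      field_simp
      ring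
    have h2 : (1 - 2 / Q) / Q * ((1 - 1 / Q - 2 / Q ^ 2) ^ n *
          (1 - (4 + (n : ℝ)) * (1 / Q + 2 / Q ^ 2)) - 2 * (1 - 1 / Q) * (1 - 2 / Q) ^ n) ≤ 0 :=
      mul_nonpos_of_nonneg_of_nonpos (by positivity) (by linarith)
    linarith

theorem n3_corner {Q : ℝ} (hQ : 9 ≤ Q) {τ t c : ℕ} (h1 : τ ≤ t) (h2 : t ≤ c) (h3 : 1 ≤ c) :
    (1 + 1 / (2 * Q ^ 2)) * ((2 + (τ : ℝ)) * (1 + 1 / Q) ^ (t - 1) / Q + 1 - 1 / Q) *
      (Q - 2) ^ τ ≤ ((1 + 1 / (2 * Q ^ 2)) * (1 + 1 / Q)) ^ (c - τ) * Q ^ τ := by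
  have h0 : 0 < Q := by linarith
  have hQ2 : 0 < Q - 2 := by linarith
  obtain ⟨G, hG⟩ : ∃ G, G = 1 + 1 / Q := ⟨_, rfl⟩
  obtain ⟨K, hK⟩ : ∃ K, K = 1 + 1 / (2 * Q ^ 2) := ⟨_, rfl⟩
  rw [← hG, ← hK]
  have hi : 0 < 1 / Q := by positivity
  have hi1 : 1 / Q ≤ 1 := by rw [div_le_one h0]; linarith
  have hi2 : 0 < 1 / (2 * Q ^ 2) := by positivity
  have hG1 : 1 ≤ G := by rw [hG]; linarith
  have hK1 : 1 ≤ K := by rw [hK]; linarith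
  have hG0 : 0 < G := by linarith
  have hK0 : 0 < K := by linarith
  rcases τ with _ | k
  · rw [pow_zero, pow_zero, mul_one, mul_one, Nat.sub_zero, mul_pow]
    have hy : 1 ≤ G ^ (t - 1) := one_le_pow₀ hG1
    have hKc : K ≤ K ^ c := le_self_pow₀ hK1 (by omega)
    have hGc : G ^ (t - 1) * G ≤ G ^ c := by
      rw [← pow_succ]
      exact pow_le_pow_right₀ hG1 (by omega)
    have hin : (2 + ((0 : ℕ) : ℝ)) * G ^ (t - 1) / Q + 1 - 1 / Q ≤ G ^ (t - 1) * G := by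
      obtain ⟨y, hyd⟩ : ∃ y, y = G ^ (t - 1) := ⟨_, rfl⟩
      rw [← hyd] at hy ⊢
      have hgoal : y * G - ((2 + ((0 : ℕ) : ℝ)) * y / Q + 1 - 1 / Q) =
          (y - 1) * (1 - 1 / Q) := by
        rw [hG]
        push_cast
        field_simp
        ring
      have : 0 ≤ (y - 1) * (1 - 1 / Q) := mul_nonneg (by linarith) (by linarith)
      linarith
    have hnn : 0 ≤ (2 + ((0 : ℕ) : ℝ)) * G ^ (t - 1) / Q + 1 - 1 / Q := by
      have : 0 ≤ (2 + ((0 : ℕ) : ℝ)) * G ^ (t - 1) / Q := by positivity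
      linarith
    exact mul_le_mul hKc (hin.trans hGc) hnn (by positivity)
  · obtain ⟨m, rfl⟩ : ∃ m, c = k + 1 + m := ⟨c - (k + 1), by omega⟩
    have e2 : k + 1 + m - (k + 1) = m := by omega
    rw [e2]
    have hy : 1 ≤ G ^ m := one_le_pow₀ hG1
    have hmono : G ^ (t - 1) ≤ G ^ k * G ^ m := by
      rw [← pow_add]
      exact pow_le_pow_right₀ hG1 (by omega)
    have hKG : G ^ m ≤ (K * G) ^ m := by
      apply pow_le_pow_left₀ hG0.le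
      nlinarith
    obtain ⟨y, hyd⟩ : ∃ y, y = G ^ m := ⟨_, rfl⟩
    rw [← hyd] at hy hmono hKG
    have hb := n3_bound hQ k
    obtain ⟨b, hbd⟩ : ∃ b, b = 1 - 2 / Q := ⟨_, rfl⟩
    have hGb : G * b = 1 - 1 / Q - 2 / Q ^ 2 := by
      rw [hG, hbd]; field_simp; ring
    rw [← hbd, ← hGb] at hb
    have hb0 : 0 ≤ b := by
      rw [hbd, sub_nonneg, div_le_one h0]; linarith
    have hQb : Q - 2 = Q * b := by
      rw [hbd]; field_simp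
    rw [hQb, mul_pow]
    have hbp : 0 ≤ b ^ (k + 1) := pow_nonneg hb0 _
    have hd : 0 ≤ 1 - 1 / Q := by linarith
    have hKf : K * (1 - 4 / Q ^ 2) ≤ 1 := by
      have : 1 - K * (1 - 4 / Q ^ 2) = (7 * Q ^ 2 + 4) / (2 * Q ^ 4) := by
        rw [hK]; field_simp; ring
      have h9 : 0 ≤ (7 * Q ^ 2 + 4) / (2 * Q ^ 4) := by positivity
      linarith
    have hmain : K * ((2 + ((k + 1 : ℕ) : ℝ)) * G ^ (t - 1) / Q + 1 - 1 / Q) * b ^ (k + 1) ≤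
        (K * G) ^ m := by
      have s0 : (2 + ((k + 1 : ℕ) : ℝ)) * G ^ (t - 1) / Q + 1 - 1 / Q ≤
          ((3 + (k : ℝ)) * G ^ k / Q + (1 - 1 / Q)) * y := by
        have s1 : (2 + ((k + 1 : ℕ) : ℝ)) * G ^ (t - 1) / Q ≤
            (2 + ((k + 1 : ℕ) : ℝ)) * (G ^ k * y) / Q := by gcongr
        have s2 : (2 + ((k + 1 : ℕ) : ℝ)) * (G ^ k * y) / Q = (3 + (k : ℝ)) * G ^ k / Q * y := by
          push_cast; ring
        have s3 : (1 - 1 / Q) * 1 ≤ (1 - 1 / Q) * y := mul_le_mul_of_nonneg_left hy hd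
        nlinarith
      have s4 : ((3 + (k : ℝ)) * G ^ k / Q + (1 - 1 / Q)) * b ^ (k + 1) ≤ 1 - 4 / Q ^ 2 := by
        have : ((3 + (k : ℝ)) * G ^ k / Q + (1 - 1 / Q)) * b ^ (k + 1) =
            (3 + (k : ℝ)) * ((G * b) ^ k * b) / Q + (1 - 1 / Q) * b ^ (k + 1) := by
          rw [mul_pow, pow_succ b k]; ring
        rw [this]; exact hb
      calc K * ((2 + ((k + 1 : ℕ) : ℝ)) * G ^ (t - 1) / Q + 1 - 1 / Q) * b ^ (k + 1)
          ≤ K * (((3 + (k : ℝ)) * G ^ k / Q + (1 - 1 / Q)) * y) * b ^ (k + 1) := by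
            apply mul_le_mul_of_nonneg_right _ hbp
            exact mul_le_mul_of_nonneg_left s0 hK0.le
        _ = K * (((3 + (k : ℝ)) * G ^ k / Q + (1 - 1 / Q)) * b ^ (k + 1)) * y := by ring
        _ ≤ K * (1 - 4 / Q ^ 2) * y := by
            apply mul_le_mul_of_nonneg_right _ (by linarith)
            exact mul_le_mul_of_nonneg_left s4 hK0.le
        _ ≤ 1 * y := mul_le_mul_of_nonneg_right hKf (by linarith)
        _ = y := one_mul y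
        _ ≤ (K * G) ^ m := hKG
    calc K * ((2 + ((k + 1 : ℕ) : ℝ)) * G ^ (t - 1) / Q + 1 - 1 / Q) *
          (Q ^ (k + 1) * b ^ (k + 1))
        = (K * ((2 + ((k + 1 : ℕ) : ℝ)) * G ^ (t - 1) / Q + 1 - 1 / Q) * b ^ (k + 1)) *
            Q ^ (k + 1) := by ring
      _ ≤ (K * G) ^ m * Q ^ (k + 1) := mul_le_mul_of_nonneg_right hmain (by positivity)

end FS11
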