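import Pool.Agent.helper11.FS.Asm4
import Pool.Agent.helper11.FS.Num3
import Pool.Agent.helper11.FS.Num4

open Polynomial Finset

namespace FS12

open FR11 FS11

variable {F : Type} [Field F]

theorem iter3 {q : ℕ} (hq : 2 ≤ q) {a : ℕ → F} {j0 : ℕ} {Q x G H K : ℝ} (hG : 1 ≤ G)
    (hK : 1 ≤ K) (hH : H ^ 2 = K * G) (hH1 : 1 ≤ H) (hKx : K ≤ x)
    (hxQ : x ≤ Q) (hbig : x ≤ G ^ ((q - 2).choose 2))
    (hcor : ∀ τ t c : ℕ, τ ≤ t → t ≤ c → 1 ≤ c →
      K * ((2 + (τ : ℝ)) * G ^ (t - 1) / Q + 1 - 1 / Q) * x ^ τ ≤ (K * G) ^ (c - τ) * Q ^ τ)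
    (h0 : SS q a j0 = ∅) (k : ℕ)
    (hne : ∀ j, j0 < j → j < j0 + 1 + k → (SS q a j).Nonempty) :
    Vt x G q (SS q a (j0 + 1 + k)) (j0 + 1 + k) ≤ 2 * (1 / K) ^ k *
      ∏ j ∈ Ioo j0 (j0 + 1 + k), ∏ d ∈ range (j + 1), fac Q x G H K q a j d := by
  classical
  have hx : 1 ≤ x := hK.trans hKx
  have hQ1 : 1 ≤ Q := hx.trans hxQ
  have hG0 : 0 < G := by linarith
  have hK0 : 0 < K := by linarith
  induction k with
  | zero =>
    have h1 : Ioo j0 (j0 + 1 + 0) = ∅ := by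
      ext i
      simp only [mem_Ioo, notMem_empty, iff_false]
      omega
    rw [h1, prod_empty, pow_zero, mul_one, mul_one]
    have h2 : SS q a (j0 + 1) ⊆ {j0} := by
      rcases FR11.trans q a j0 with ⟨_, hsub⟩ | ⟨e, he, _⟩
      · rw [h0] at hsub
        exact hsub
      · rw [h0] at he
        exact absurd he (notMem_empty e)
    exact Vt_start hx hG hq h2
  | succ k ih =>
    have h1 : Ioo j0 (j0 + 1 + (k + 1)) = insert (j0 + 1 + k) (Ioo j0 (j0 + 1 + k)) := by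
      ext i
      simp only [mem_Ioo, mem_insert]
      omega
    have h2 : (j0 + 1 + k) ∉ Ioo j0 (j0 + 1 + k) := by
      simp
    rw [h1, prod_insert h2]
    have h3 := ih (fun j hj hj' => hne j hj (by omega))
    have h4 := step3 hq hG hK hH hH1 hKx hxQ hbig hcor (hne (j0 + 1 + k) (by omega) (by omega))
    have h5 : 0 ≤ 1 / K * ∏ d ∈ range (j0 + 1 + k + 1), fac Q x G H K q a (j0 + 1 + k) d :=
      mul_nonneg (by positivity)
        (prod_nonneg (fun d _ => fac_nonneg hQ1 (by linarith) hG hK0.le a _ d))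
    refine h4.trans ((mul_le_mul_of_nonneg_right h3 h5).trans (le_of_eq ?_))
    rw [pow_succ]
    ring

theorem Vt_le {q : ℕ} (hq : 2 ≤ q) (a : ℕ → F) (n : ℕ) {Q x G H K : ℝ} (hG : 1 ≤ G)
    (hK : 1 ≤ K) (hH : H ^ 2 = K * G) (hH1 : 1 ≤ H) (hKx : K ≤ x)
    (hxQ : x ≤ Q) (hbig : x ≤ G ^ ((q - 2).choose 2))
    (hcor : ∀ τ t c : ℕ, τ ≤ t → t ≤ c → 1 ≤ c →
      K * ((2 + (τ : ℝ)) * G ^ (t - 1) / Q + 1 - 1 / Q) * x ^ τ ≤ (K * G) ^ (c - τ) * Q ^ τ) :
    Vt x G q (SS q a n) n ≤ 1 + ∑ j0 ∈ range n, 2 * (1 / K) ^ (n - 1 - j0) *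
      ∏ m ∈ range ((q + 1) * n), wt Q x G H K q j0 n m a := by
  classical
  have hx : 1 ≤ x := hK.trans hKx
  have hQ1 : 1 ≤ Q := hx.trans hxQ
  have hG0 : 0 < G := by linarith
  have hK0 : 0 < K := by linarith
  have hterm : ∀ j0 ∈ range n, 0 ≤ 2 * (1 / K) ^ (n - 1 - j0) *
      ∏ m ∈ range ((q + 1) * n), wt Q x G H K q j0 n m a := by
    intro j0 _
    refine mul_nonneg (by positivity) (prod_nonneg (fun m _ => ?_))
    exact wt_nonneg hQ1 (by linarith) hG hK0.le m a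
  by_cases hne : SS q a n = ∅
  · have h1 : Vt x G q (SS q a n) n = 1 := by
      rw [hne]
      simp [Vt, cl, tau, rn]
    rw [h1]
    have := sum_nonneg hterm
    linarith
  · set j0 := Nat.findGreatest (fun j => SS q a j = ∅) n with hj0
    have h1 : SS q a j0 = ∅ := Nat.findGreatest_spec (P := fun j => SS q a j = ∅)
      (Nat.zero_le n) (SS_zero q a)
    have h2 : j0 ≤ n := Nat.findGreatest_le n
    have h3 : j0 < n := by
      rcases lt_or_eq_of_le h2 with h4 | h4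
      · exact h4
      · rw [h4] at h1
        exact absurd h1 hne
    obtain ⟨k, hk⟩ : ∃ k, n = j0 + 1 + k := ⟨n - (j0 + 1), by omega⟩
    have h4 : ∀ j, j0 < j → j < j0 + 1 + k → (SS q a j).Nonempty := by
      intro j hj hj'
      rw [nonempty_iff_ne_empty]
      exact Nat.findGreatest_is_greatest (P := fun j => SS q a j = ∅) hj (by omega)
    have h5 := iter3 hq hG hK hH hH1 hKx hxQ hbig hcor h1 k h4
    rw [← hk] at h5
    rw [← prod_wt a] at h5
    have h6 := single_le_sum hterm (mem_range.mpr h3)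
    have h7 : n - 1 - j0 = k := by omega
    rw [h7] at h6
    linarith

/-- the main estimate in odd characteristic -/
theorem main_est4 [Fintype F] (h2 : (2 : F) ≠ 0) (q n : ℕ) (hQ : 9 ≤ Fintype.card F)
    (hq : Fintype.card F ≤ q) :
    ∑ α : Fin ((q + 1) * n) → F,
        (((Fintype.card F : ℝ) - 2) ^ (q * (SS q (ex _ α) n).card)) ≤
      (((Fintype.card F : ℝ) - 2) ^ (q * q) * ((Fintype.card F : ℝ) - 2) ^ q *
        (1 + 2 * (2 * (Fintype.card F : ℝ) ^ 2 + 1))) * (Fintype.card F : ℝ) ^ ((q + 1) * n) := by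
  classical
  have hq2 : 2 ≤ q := by omega
  set Q : ℝ := (Fintype.card F : ℝ) with hQd
  have hQ9 : (9 : ℝ) ≤ Q := by
    rw [hQd]
    exact_mod_cast hQ
  have hQ0 : 0 < Q := by linarith
  set x : ℝ := Q - 2 with hxd
  set G : ℝ := 1 + 1 / Q with hGd
  set K : ℝ := 1 + 1 / (2 * Q ^ 2) with hKd
  have hinv0 : 0 < 1 / Q := by positivity
  have hinv1 : 1 / Q ≤ 1 := by
    rw [div_le_one hQ0]; linarith
  have hinv2 : 0 < 1 / (2 * Q ^ 2) := by positivity
  have hinv3 : 1 / (2 * Q ^ 2) ≤ 1 := by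
    rw [div_le_one (by positivity)]; nlinarith
  have hG : 1 ≤ G := by rw [hGd]; linarith
  have hK : 1 ≤ K := by rw [hKd]; linarith
  have hK1 : 1 < K := by rw [hKd]; linarith
  have hKx : K ≤ x := by rw [hKd, hxd]; linarith
  have hx : 1 ≤ x := hK.trans hKx
  have hx0 : 0 < x := by linarith
  have hxQ : x ≤ Q := by rw [hxd]; linarith
  have hG0 : 0 < G := by linarith
  have hK0 : 0 < K := by linarith
  have hKG1 : 1 ≤ K * G := by nlinarith
  set H : ℝ := Real.sqrt (K * G) with hHd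
  have hH : H ^ 2 = K * G := Real.sq_sqrt (by positivity)
  have hH1 : 1 ≤ H := by
    rw [hHd]
    exact Real.one_le_sqrt.mpr hKG1
  have hbig : x ≤ G ^ ((q - 2).choose 2) := n4_big hQ hq
  have hcor : ∀ τ t c : ℕ, τ ≤ t → t ≤ c → 1 ≤ c →
      K * ((2 + (τ : ℝ)) * G ^ (t - 1) / Q + 1 - 1 / Q) * x ^ τ ≤ (K * G) ^ (c - τ) * Q ^ τ :=
    fun τ t c h1 h3 h4 => n3_corner hQ9 h1 h3 h4
  have hdig : x * H ^ 2 + (Q - 1) * (K / x) ≤ Q := by
    rw [hH]
    exact n3_digit hQ9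
  have hdig2 : K / x ≤ x * H ^ 2 := by
    have h3 : K / x ≤ 1 := by
      rw [div_le_one hx0]; exact hKx
    have h4 : (1 : ℝ) ≤ x * H ^ 2 := by
      rw [hH]; nlinarith
    linarith
  have hrun : ∀ s : ℕ, 1 ≤ s → Q * s / (1 + s) + (Q - 1) * (K / (1 + s)) ≤ Q ∧
      K / (1 + s) ≤ Q * s / (1 + s) := by
    intro s hs
    refine ⟨n3_run hQ9 s, ?_⟩
    have hs1 : (1 : ℝ) ≤ s := by exact_mod_cast hs
    apply div_le_div_of_nonneg_right _ (by positivity)
    nlinarith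
  have hT : ∀ j0, ∑ α : Fin ((q + 1) * n) → F,
      ∏ m ∈ range ((q + 1) * n), wt Q x G H K q j0 n m (ex _ α) ≤ Q ^ ((q + 1) * n) := by
    intro j0
    exact tree ((q + 1) * n) (wt Q x G H K q j0 n)
      (fun m a => wt_nonneg (by linarith) hx0.le hG hK0.le m a)
      (fun m a a' h => wt_loc hq2 m a a' h)
      (fun m a => wt_sum h2 hG hdig hdig2 hrun hq2 m a)
  have hE : ∀ α : Fin ((q + 1) * n) → F, x ^ (q * (SS q (ex _ α) n).card) ≤
      x ^ (q * q) * x ^ q * (1 + ∑ j0 ∈ range n, 2 * (1 / K) ^ (n - 1 - j0) *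
      ∏ m ∈ range ((q + 1) * n), wt Q x G H K q j0 n m (ex _ α)) := by
    intro α
    have hS : SS q (ex _ α) n ⊆ range n := by
      intro d hd
      exact mem_range.mpr (mem_SS.mp hd).1
    refine (Vt_end hx hG hq2 hS).trans ?_
    exact mul_le_mul_of_nonneg_left
      (Vt_le hq2 (ex _ α) n hG hK hH hH1 hKx hxQ hbig hcor) (by positivity)
  have hgeo : ∑ j0 ∈ range n, 2 * (1 / K) ^ (n - 1 - j0) ≤ 2 * (2 * Q ^ 2 + 1) := by
    rw [← mul_sum, sum_range_reflect (fun i => (1 / K) ^ i) n]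
    have hρne : 1 / K ≠ 1 := by
      have h3 : 1 / K < 1 := by
        rw [div_lt_one hK0]; exact hK1
      exact h3.ne
    rw [geom_sum_eq hρne]
    have h1 : ((1 / K) ^ n - 1) / (1 / K - 1) = (1 - (1 / K) ^ n) * (2 * Q ^ 2 + 1) := by
      have h3 : 1 / K - 1 = -(1 / (2 * Q ^ 2 + 1)) := by
        rw [hKd]
        field_simp
        ring
      rw [h3]
      field_simp
      ring
    rw [h1]
    have h3 : 0 ≤ (1 / K) ^ n := by positivity
    have h4 : 0 ≤ 2 * Q ^ 2 + 1 := by positivity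
    nlinarith
  calc ∑ α : Fin ((q + 1) * n) → F, x ^ (q * (SS q (ex _ α) n).card)
      ≤ ∑ α : Fin ((q + 1) * n) → F, x ^ (q * q) * x ^ q *
        (1 + ∑ j0 ∈ range n, 2 * (1 / K) ^ (n - 1 - j0) *
          ∏ m ∈ range ((q + 1) * n), wt Q x G H K q j0 n m (ex _ α)) :=
        sum_le_sum (fun α _ => hE α)
    _ = x ^ (q * q) * x ^ q * (Q ^ ((q + 1) * n) + ∑ j0 ∈ range n, 2 * (1 / K) ^ (n - 1 - j0) *
          ∑ α : Fin ((q + 1) * n) → F,
          ∏ m ∈ range ((q + 1) * n), wt Q x G H K q j0 n m (ex _ α)) := by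
        rw [← mul_sum, sum_add_distrib, sum_comm]
        congr 2
        · simp [hQd]
        · refine sum_congr rfl (fun j0 _ => ?_)
          rw [mul_sum]
    _ ≤ x ^ (q * q) * x ^ q * (Q ^ ((q + 1) * n) + ∑ j0 ∈ range n, 2 * (1 / K) ^ (n - 1 - j0) *
          Q ^ ((q + 1) * n)) := by
        apply mul_le_mul_of_nonneg_left _ (by positivity)
        gcongr with j0 _
        exact hT j0
    _ = x ^ (q * q) * x ^ q * ((1 + ∑ j0 ∈ range n, 2 * (1 / K) ^ (n - 1 - j0)) *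
          Q ^ ((q + 1) * n)) := by
        rw [← sum_mul]
        ring
    _ ≤ x ^ (q * q) * x ^ q * ((1 + 2 * (2 * Q ^ 2 + 1)) * Q ^ ((q + 1) * n)) := by
        apply mul_le_mul_of_nonneg_left _ (by positivity)
        apply mul_le_mul_of_nonneg_right _ (by positivity)
        linarith
    _ = (x ^ (q * q) * x ^ q * (1 + 2 * (2 * Q ^ 2 + 1))) * Q ^ ((q + 1) * n) := by ring

end FS12
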