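import Pool.Agent.helper11.FS.Defs

open Polynomial Finset

namespace FS12

open FR11 FS11

variable {F : Type} [Field F]

/-- the corner digit of row `j` is used -/
def IsC (q : ℕ) (a : ℕ → F) (j : ℕ) : Prop :=
  (∀ h ∈ KK q a j, h.natDegree < j → phi q a j h = 0) ∧ ¬ occ q (SS q a j) j

/-- value of the corner factor with gain -/
noncomputable def Ac (Q G : ℝ) (q : ℕ) (S : Finset ℕ) (j : ℕ) : ℝ :=
  (2 + (tau q S j : ℝ)) * G ^ ((rn q S j).card - 1) * Mc Q G q S j

open Classical in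
/-- factor of the pair `(j, d)` -/
noncomputable def fac (Q x G H K : ℝ) (q : ℕ) (a : ℕ → F) (j d : ℕ) : ℝ :=
  if d = j then
    (if IsC q a j then
      (if j ∈ SS q a (j + 1) then Ac Q G q (SS q a j) j else Mc Q G q (SS q a j) j) else 1)
  else if IsT q a j d then
    (if IsP q a j d then Xf Q x H q (SS q a j) j d else Yf x K q (SS q a j) j d) else 1

/-- weight of the digit `m` -/
noncomputable def wt (Q x G H K : ℝ) (q j0 n : ℕ) (m : ℕ) (a : ℕ → F) : ℝ :=
  ∏ j ∈ Ioo j0 n, ∏ d ∈ (range (j + 1)).filter (fun d => d + q * j = m), fac Q x G H K q a j d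

theorem Mc_nonneg {Q G : ℝ} (hQ : 1 ≤ Q) (hG : 1 ≤ G) (q : ℕ) (S : Finset ℕ) (j : ℕ) :
    0 ≤ Mc Q G q S j := by
  unfold Mc
  have h1 : 1 / Q ≤ 1 := by
    rw [div_le_one (by linarith)]; exact hQ
  have h2 : 0 ≤ (2 + (tau q S j : ℝ)) * G ^ ((rn q S j).card - 1) / Q := by positivity
  apply div_nonneg zero_le_one
  linarith

theorem fac_nonneg {Q x G H K : ℝ} (hQ : 1 ≤ Q) (hx : 0 ≤ x) (hG : 1 ≤ G) (hK : 0 ≤ K) {q : ℕ} (a : ℕ → F)
    (j d : ℕ) : 0 ≤ fac Q x G H K q a j d := by
  classical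
  have hM := Mc_nonneg hQ hG q (SS q a j) j
  unfold fac
  split_ifs
  · unfold Ac
    positivity
  · exact hM
  · exact zero_le_one
  · unfold Xf
    split_ifs <;> positivity
  · unfold Yf
    split_ifs <;> positivity
  · exact zero_le_one

theorem wt_nonneg {Q x G H K : ℝ} (hQ : 1 ≤ Q) (hx : 0 ≤ x) (hG : 1 ≤ G) (hK : 0 ≤ K) {q j0 n : ℕ} (m : ℕ)
    (a : ℕ → F) : 0 ≤ wt Q x G H K q j0 n m a :=
  prod_nonneg (fun j _ => prod_nonneg (fun d _ => fac_nonneg hQ hx hG hK a j d))

theorem prod_wt {Q x G H K : ℝ} {q j0 n : ℕ} (a : ℕ → F) :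
    ∏ m ∈ range ((q + 1) * n), wt Q x G H K q j0 n m a =
      ∏ j ∈ Ioo j0 n, ∏ d ∈ range (j + 1), fac Q x G H K q a j d := by
  unfold wt
  rw [prod_comm]
  refine prod_congr rfl (fun j hj => ?_)
  apply prod_fiberwise_of_maps_to
  intro d hd
  have h1 := mem_range.mp hd
  have h2 := (mem_Ioo.mp hj).2
  rw [mem_range]
  have h3 : q * (j + 1) ≤ q * n := Nat.mul_le_mul_left q h2
  have h4 : (q + 1) * n = q * n + n := by ring
  have h5 : q * (j + 1) = q * j + q := by ring
  omega

theorem KK_loc2 {q : ℕ} {a a' : ℕ → F} {j M : ℕ} {h : F[X]}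
    (hM : ∀ i < j, h.natDegree + q * i < M ∧ q * h.natDegree + i < M)
    (ha : ∀ m < M, a m = a' m) (hK : h ∈ KK q a j) : h ∈ KK q a' j := by
  intro i hi
  rw [← phi_loc (hM i hi).1 (hM i hi).2 ha]
  exact hK i hi

theorem SS_sub {q : ℕ} {a a' : ℕ → F} {j M : ℕ}
    (hM : ∀ i < j, ∀ d < j, d + q * i < M ∧ q * d + i < M)
    (ha : ∀ m < M, a m = a' m) : SS q a j ⊆ SS q a' j := by
  intro d hd
  obtain ⟨h1, h, hK, h0, hdeg⟩ := mem_SS.mp hd
  refine mem_SS.mpr ⟨h1, h, KK_loc2 (fun i hi => ?_) ha hK, h0, hdeg⟩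
  rw [hdeg]
  exact hM i hi d h1

theorem SS_eq {q : ℕ} {a a' : ℕ → F} {j M : ℕ}
    (hM : ∀ i < j, ∀ d < j, d + q * i < M ∧ q * d + i < M)
    (ha : ∀ m < M, a m = a' m) : SS q a j = SS q a' j :=
  Subset.antisymm (SS_sub hM ha) (SS_sub hM (fun m hm => (ha m hm).symm))

theorem arith4 {q j : ℕ} (hq : 2 ≤ q) : ∀ i < j, ∀ d ≤ j, d + q * i < j + q * j ∧
    q * d + i < j + q * j := by
  intro i hi d hd
  have h1 : q * (i + 1) ≤ q * j := Nat.mul_le_mul_left q hi
  have h2 : q * (i + 1) = q * i + q := by ring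
  have h3 : q * d ≤ q * j := Nat.mul_le_mul_left q hd
  omega

theorem arith5 {q j e : ℕ} (h : j - e < q) : ∀ i < j, ∀ d < j, d + q * i < e + q * j ∧
    q * d + i < e + q * j := by
  intro i hi d hd
  have h1 : q * (i + 1) ≤ q * j := Nat.mul_le_mul_left q hi
  have h2 : q * (i + 1) = q * i + q := by ring
  have h3 : q * (d + 1) ≤ q * j := Nat.mul_le_mul_left q hd
  have h4 : q * (d + 1) = q * d + q := by ring
  omega

theorem IsC_loc {q : ℕ} {a a' : ℕ → F} {j : ℕ} (hq : 2 ≤ q)
    (ha : ∀ m < j + q * j, a m = a' m) (hC : IsC q a j) : IsC q a' j := by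
  obtain ⟨h1, h2⟩ := hC
  have hS : SS q a j = SS q a' j :=
    SS_eq (fun i hi d hd => arith4 hq i hi d hd.le) ha
  refine ⟨fun h hK hlt => ?_, by rw [← hS]; exact h2⟩
  have ha' : ∀ m < j + q * j, a' m = a m := fun m hm => (ha m hm).symm
  have hK' : h ∈ KK q a j := KK_loc2 (fun i hi => arith4 hq i hi _ hlt.le) ha' hK
  have h3 : q * h.natDegree ≤ q * j := Nat.mul_le_mul_left q hlt.le
  have h4 : q * (h.natDegree + 1) ≤ q * j := Nat.mul_le_mul_left q hlt
  have h5 : q * (h.natDegree + 1) = q * h.natDegree + q := by ring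
  rw [phi_loc (M := j + q * j) (by omega) (by omega) ha']
  exact h1 h hK' hlt

theorem Xf_old {Q x G : ℝ} {q : ℕ} {S : Finset ℕ} {j d : ℕ} (h : q ≤ j - d) :
    Xf Q x G q S j d = x * G ^ 2 := by
  classical
  unfold Xf
  rw [if_neg]
  rintro ⟨h1, _⟩
  have := (mem_filter.mp h1).2.1
  omega

theorem Yf_old {x G : ℝ} {q : ℕ} {S : Finset ℕ} {j d : ℕ} (h : q ≤ j - d) :
    Yf x G q S j d = G / x := by
  classical
  unfold Yf
  rw [if_neg]
  rintro ⟨h1, _⟩
  have := (mem_filter.mp h1).2.1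
  omega

theorem Xf_loc {Q x G : ℝ} {q : ℕ} {a a' : ℕ → F} {j d : ℕ}
    (ha : ∀ m < d + q * j, a m = a' m) :
    Xf Q x G q (SS q a j) j d = Xf Q x G q (SS q a' j) j d := by
  rcases lt_or_ge (j - d) q with h | h
  · rw [SS_eq (arith5 h) ha]
  · rw [Xf_old h, Xf_old h]

theorem Yf_loc {x G : ℝ} {q : ℕ} {a a' : ℕ → F} {j d : ℕ}
    (ha : ∀ m < d + q * j, a m = a' m) :
    Yf x G q (SS q a j) j d = Yf x G q (SS q a' j) j d := by
  rcases lt_or_ge (j - d) q with h | h
  · rw [SS_eq (arith5 h) ha]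
  · rw [Yf_old h, Yf_old h]

theorem fac_loc {Q x G H K : ℝ} {q : ℕ} (hq : 2 ≤ q) {a a' : ℕ → F} {j d : ℕ} (hd : d ≤ j)
    (ha : ∀ m ≤ d + q * j, a m = a' m) : fac Q x G H K q a j d = fac Q x G H K q a' j d := by
  classical
  have ha1 : ∀ m < d + q * j, a m = a' m := fun m hm => ha m hm.le
  have ha1' : ∀ m < d + q * j, a' m = a m := fun m hm => (ha m hm.le).symm
  have ha' : ∀ m ≤ d + q * j, a' m = a m := fun m hm => (ha m hm).symm
  unfold fac
  by_cases h : d = j
  · subst h
    rw [if_pos rfl, if_pos rfl]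
    have hS : SS q a d = SS q a' d := SS_eq (fun i hi e he => arith4 hq i hi e he.le) ha1
    have hC : IsC q a d ↔ IsC q a' d := ⟨IsC_loc hq ha1, IsC_loc hq ha1'⟩
    have hS2 : SS q a (d + 1) = SS q a' (d + 1) := by
      refine SS_eq (M := d + q * d + 1) (fun i hi e he => ?_) (fun m hm => ha m (by omega))
      have h1 : q * i ≤ q * d := Nat.mul_le_mul_left q (by omega)
      have h2 : q * e ≤ q * d := Nat.mul_le_mul_left q (by omega)
      omega
    rw [hS2, hS]
    exact if_congr hC rfl rfl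
  · rw [if_neg h, if_neg h]
    have hT : IsT q a j d ↔ IsT q a' j d := ⟨IsT_loc hq ha1, IsT_loc hq ha1'⟩
    have hP : IsP q a j d ↔ IsP q a' j d := ⟨IsP_loc hq ha, IsP_loc hq ha'⟩
    rw [Xf_loc ha1, Yf_loc ha1]
    exact if_congr hT (if_congr hP rfl rfl) rfl

theorem wt_loc {Q x G H K : ℝ} {q j0 n : ℕ} (hq : 2 ≤ q) (m : ℕ) (a a' : ℕ → F)
    (ha : ∀ i ≤ m, a i = a' i) : wt Q x G H K q j0 n m a = wt Q x G H K q j0 n m a' := by
  unfold wt
  refine prod_congr rfl (fun j _ => prod_congr rfl (fun d hd => ?_))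
  obtain ⟨h1, h2⟩ := mem_filter.mp hd
  exact fac_loc hq (Nat.lt_succ_iff.mp (mem_range.mp h1)) (by rw [h2]; exact ha)

/-- events -/
def IsE (q : ℕ) (a : ℕ → F) (j d : ℕ) : Prop := (d = j ∧ IsC q a j) ∨ (d < j ∧ IsT q a j d)

theorem IsE_loc {q : ℕ} (hq : 2 ≤ q) {a a' : ℕ → F} {j d : ℕ}
    (ha : ∀ m < d + q * j, a m = a' m) (hE : IsE q a j d) : IsE q a' j d := by
  rcases hE with ⟨rfl, h⟩ | ⟨h1, h⟩
  · exact Or.inl ⟨rfl, IsC_loc hq ha h⟩
  · exact Or.inr ⟨h1, IsT_loc hq ha h⟩

theorem fac_one {Q x G H K : ℝ} {q : ℕ} {a : ℕ → F} {j d : ℕ} (h : ¬ IsE q a j d) :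
    fac Q x G H K q a j d = 1 := by
  classical
  unfold fac
  by_cases h1 : d = j
  · rw [if_pos h1, if_neg (fun h2 => h (Or.inl ⟨h1, h2⟩))]
  · rw [if_neg h1, if_neg]
    intro h2
    exact h (Or.inr ⟨(mem_SS.mp h2.1).1, h2⟩)

theorem corner_test {q : ℕ} (hq : 2 ≤ q) {a : ℕ → F} {j j' d' : ℕ} (hC : IsC q a j)
    (hT : IsT q a j' d') (he : j + q * j = d' + q * j') : False := by
  obtain ⟨hd'j, h, hh, h0, hdeg⟩ := mem_SS.mp hT.1
  rcases lt_trichotomy j j' with h1 | h1 | h1
  · have h2 : q * (j + 1) ≤ q * j' := Nat.mul_le_mul_left q h1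
    have h3 : q * (j + 1) = q * j + q := by ring
    refine hC.2 ⟨d', mem_SS.mpr ⟨by omega, h, KK_mono h1.le hh, h0, hdeg⟩, ?_⟩
    have h4 : (j + q * j) % q = j % q := Nat.add_mul_mod_self_left j q j
    have h5 : (d' + q * j') % q = d' % q := Nat.add_mul_mod_self_left d' q j'
    rw [← h4, ← h5, he]
  · subst h1
    omega
  · have h2 : q * (j' + 1) ≤ q * j := Nat.mul_le_mul_left q h1
    have h3 : q * (j' + 1) = q * j' + q := by ring
    omega

theorem IsE_unique {q : ℕ} (hq : 2 ≤ q) {a : ℕ → F} {j d j' d' : ℕ} (hE : IsE q a j d)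
    (hE' : IsE q a j' d') (he : d + q * j = d' + q * j') : j = j' ∧ d = d' := by
  rcases hE with ⟨h1, h2⟩ | ⟨h1, h2⟩ <;> rcases hE' with ⟨h3, h4⟩ | ⟨h3, h4⟩
  · subst h1
    subst h3
    have h5 : (q + 1) * d = (q + 1) * d' := by
      rw [add_mul, add_mul]; omega
    have h6 : d = d' := Nat.eq_of_mul_eq_mul_left (by omega) h5
    exact ⟨h6, h6⟩
  · subst h1
    exact (corner_test hq h2 h4 he).elim
  · subst h3
    exact (corner_test hq h4 h2 he.symm).elim
  · exact IsT_unique hq h2 h4 he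

/-- at most one value of the corner digit gives a gain -/
theorem corner_value {q : ℕ} (hq : 2 ≤ q) (h2 : (2 : F) ≠ 0) {a : ℕ → F} {j : ℕ}
    (hC : IsC q a j) {c c' : F} (hc : j ∈ SS q (Function.update a (j + q * j) c) (j + 1))
    (hc' : j ∈ SS q (Function.update a (j + q * j) c') (j + 1)) : c = c' := by
  set a1 := Function.update a (j + q * j) c with ha1
  set a2 := Function.update a (j + q * j) c' with ha2
  have hag : ∀ m < j + q * j, a m = a1 m := by
    intro m hm
    rw [ha1, Function.update_of_ne hm.ne]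
  have hag12 : ∀ m < j + q * j, a2 m = a1 m := by
    intro m hm
    rw [ha1, ha2, Function.update_of_ne hm.ne, Function.update_of_ne hm.ne]
  obtain ⟨_, h, hh, hh0, hdeg⟩ := mem_SS.mp hc
  obtain ⟨_, w, hw, hw0, hwdeg⟩ := mem_SS.mp hc'
  obtain ⟨hh1, hh2⟩ := mem_KK_succ.mp hh
  obtain ⟨hw1, hw2⟩ := mem_KK_succ.mp hw
  have hw3 : w ∈ KK q a1 j := KK_loc2 (fun i hi => arith4 hq i hi _ hwdeg.le) hag12 hw1
  have hC1 := IsC_loc hq hag hC
  have h3 : phi q a1 j (w.leadingCoeff • h - h.leadingCoeff • w) = 0 := by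
    rcases elim_lead hdeg hwdeg with h4 | h4
    · rw [h4, map_zero]
    · exact hC1.1 _ (Submodule.sub_mem _ (Submodule.smul_mem _ _ hh1)
        (Submodule.smul_mem _ _ hw3)) h4
  rw [map_sub, map_smul, map_smul, hh2, smul_zero, zero_sub, smul_eq_mul, neg_eq_zero] at h3
  have h4 : phi q a1 j w = 0 := by
    rcases mul_eq_zero.mp h3 with h5 | h5
    · exact absurd (leadingCoeff_eq_zero.mp h5) hh0
    · exact h5
  have h5 : phi q a1 j w - phi q a2 j w = w.coeff j * (2 * (c - c')) := by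
    rw [phi_eq q a1 j w (n := j + 1) (by omega), phi_eq q a2 j w (n := j + 1) (by omega),
      sum_range_succ, sum_range_succ]
    have h6 : ∑ i ∈ range j, w.coeff i * be q a1 i j = ∑ i ∈ range j, w.coeff i * be q a2 i j := by
      refine sum_congr rfl (fun i hi => ?_)
      have hi' := mem_range.mp hi
      have h7 : q * (i + 1) ≤ q * j := Nat.mul_le_mul_left q hi'
      have h8 : q * (i + 1) = q * i + q := by ring
      unfold be
      rw [hag12 (i + q * j) (by omega), hag12 (q * i + j) (by omega)]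
    rw [h6]
    have h9 : be q a1 j j = c + c := by
      unfold be
      rw [add_comm (q * j) j, ha1, Function.update_self]
    have h10 : be q a2 j j = c' + c' := by
      unfold be
      rw [add_comm (q * j) j, ha2, Function.update_self]
    rw [h9, h10]
    ring
  rw [h4, hw2, sub_zero] at h5
  have h6 : w.coeff j ≠ 0 := by
    rw [← hwdeg]
    exact fun h7 => hw0 (leadingCoeff_eq_zero.mp h7)
  rcases mul_eq_zero.mp h5.symm with h7 | h7
  · exact absurd h7 h6
  · rcases mul_eq_zero.mp h7 with h8 | h8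
    · exact absurd h8 h2
    · exact sub_eq_zero.mp h8

open Classical in
/-- at most one value with weight `X`, the others `Y ≤ X` -/
theorem sum_two [Fintype F] (P : F → Prop) (hP : ∀ c c', P c → P c' → c = c') (X Y : ℝ)
    (hYX : Y ≤ X) (hXY : X + ((Fintype.card F : ℝ) - 1) * Y ≤ Fintype.card F) :
    ∑ c : F, (if P c then X else Y) ≤ Fintype.card F := by
  classical
  have key : ∀ c₀ : F, (∀ c, P c → c = c₀) →
      ∑ c : F, (if P c then X else Y) ≤ Fintype.card F := by
    intro c₀ hc₀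
    have h1 : ∑ c : F, (if P c then X else Y) ≤ ∑ c : F, (if c = c₀ then X else Y) := by
      refine sum_le_sum (fun c _ => ?_)
      by_cases h : P c
      · rw [if_pos h, if_pos (hc₀ c h)]
      · rw [if_neg h]
        split_ifs
        · exact hYX
        · exact le_rfl
    refine h1.trans ?_
    rw [← Finset.add_sum_erase _ _ (mem_univ c₀), if_pos rfl]
    rw [Finset.sum_congr rfl (g := fun _ => Y) (fun c hc => if_neg (ne_of_mem_erase hc))]
    rw [sum_const, card_erase_of_mem (mem_univ _), card_univ, nsmul_eq_mul]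
    have h8 : ((Fintype.card F - 1 : ℕ) : ℝ) = (Fintype.card F : ℝ) - 1 := by
      rw [Nat.cast_sub (Fintype.card_pos)]
      simp
    rw [h8]
    exact hXY
  by_cases hex : ∃ c, P c
  · obtain ⟨c₀, hc₀⟩ := hex
    exact key c₀ (fun c hc => hP c c₀ hc hc₀)
  · exact key 0 (fun c hc => (hex ⟨c, hc⟩).elim)

theorem wt_sum [Fintype F] (h2 : (2 : F) ≠ 0) {x G H K : ℝ} (hG : 1 ≤ G)
    (hdig : x * H ^ 2 + ((Fintype.card F : ℝ) - 1) * (K / x) ≤ Fintype.card F)
    (hdig2 : K / x ≤ x * H ^ 2)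
    (hrun : ∀ s : ℕ, 1 ≤ s → (Fintype.card F : ℝ) * s / (1 + s) +
      ((Fintype.card F : ℝ) - 1) * (K / (1 + s)) ≤ Fintype.card F ∧
      K / (1 + s) ≤ (Fintype.card F : ℝ) * s / (1 + s))
    {q j0 n : ℕ} (hq : 2 ≤ q) (m : ℕ) (a : ℕ → F) :
    ∑ c : F, wt (Fintype.card F) x G H K q j0 n m (Function.update a m c) ≤ Fintype.card F := by
  classical
  set Q : ℝ := (Fintype.card F : ℝ) with hQ
  have hQ1 : 1 ≤ Q := by
    rw [hQ]
    exact_mod_cast Fintype.card_pos
  have hag : ∀ c : F, ∀ i < m, a i = Function.update a m c i := by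
    intro c i hi
    rw [Function.update_of_ne hi.ne]
  by_cases hE : ∃ j d, j0 < j ∧ j < n ∧ d ≤ j ∧ d + q * j = m ∧ IsE q a j d
  · obtain ⟨j, d, hj1, hj2, hdj, hm, hEd⟩ := hE
    have hEc : ∀ c, IsE q (Function.update a m c) j d := fun c =>
      IsE_loc hq (by rw [hm]; exact hag c) hEd
    have h1 : ∀ c, wt Q x G H K q j0 n m (Function.update a m c) =
        fac Q x G H K q (Function.update a m c) j d := by
      intro c
      unfold wt
      rw [prod_eq_single j]
      · rw [prod_eq_single d]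
        · intro d' hd' hne
          exact absurd (by have := (mem_filter.mp hd').2; omega) hne
        · intro h
          exact absurd (mem_filter.mpr ⟨mem_range.mpr (Nat.lt_succ_of_le hdj), hm⟩) h
      · intro j' _ hne
        refine prod_eq_one (fun d' hd' => fac_one (fun h => ?_))
        have h3 := (mem_filter.mp hd').2
        exact hne (IsE_unique hq h (hEc c) (h3.trans hm.symm)).1
      · intro h
        exact absurd (mem_Ioo.mpr ⟨hj1, hj2⟩) h
    simp only [h1]
    rcases hEd with ⟨hd, hC⟩ | ⟨hd, hT⟩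
    · subst hd
      have hag' : ∀ c : F, ∀ i < d + q * d, a i = Function.update a m c i := by
        rw [hm]; exact hag
      have h3 : ∀ c, fac Q x G H K q (Function.update a m c) d d =
          if d ∈ SS q (Function.update a m c) (d + 1) then Ac Q G q (SS q a d) d
            else Mc Q G q (SS q a d) d := by
        intro c
        have hS : SS q (Function.update a m c) d = SS q a d :=
          SS_eq (fun i hi e he => arith4 hq i hi e he.le) (fun i hi => (hag' c i hi).symm)
        unfold fac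
        rw [if_pos rfl, if_pos (IsC_loc hq (hag' c) hC), hS]
      have h3' : ∀ c, fac Q x G H K q (Function.update a m c) d d =
          @ite ℝ (d ∈ SS q (Function.update a m c) (d + 1)) (Classical.propDecidable _)
            (Ac Q G q (SS q a d) d) (Mc Q G q (SS q a d) d) := by
        intro c
        rw [h3 c]
        congr 1
      simp only [h3']
      apply sum_two (fun c => d ∈ SS q (Function.update a m c) (d + 1))
      · intro c c' hc hc'
        rw [← hm] at hc hc'
        exact corner_value hq h2 hC hc hc'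
      · have hM := Mc_nonneg hQ1 hG q (SS q a d) d
        unfold Ac
        have h4 : (1 : ℝ) ≤ G ^ ((rn q (SS q a d) d).card - 1) := one_le_pow₀ hG
        have h5 : (1 : ℝ) ≤ (2 + (tau q (SS q a d) d : ℝ)) * G ^ ((rn q (SS q a d) d).card - 1) := by
          have h6 : (0 : ℝ) ≤ (tau q (SS q a d) d : ℝ) := Nat.cast_nonneg _
          nlinarith
        nlinarith
      · rw [← hQ]
        unfold Ac Mc
        set A : ℝ := (2 + (tau q (SS q a d) d : ℝ)) * G ^ ((rn q (SS q a d) d).card - 1) with hA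
        have hA0 : 0 ≤ A := by positivity
        have h4 : 0 < A / Q + 1 - 1 / Q := by
          have h5 : (1 : ℝ) ≤ G ^ ((rn q (SS q a d) d).card - 1) := one_le_pow₀ hG
          have h6 : (0 : ℝ) ≤ (tau q (SS q a d) d : ℝ) := Nat.cast_nonneg _
          have h7 : 1 ≤ A := by
            rw [hA]; nlinarith
          have h8 : 0 ≤ (A - 1) / Q := div_nonneg (by linarith) (by linarith)
          have h9 : (A - 1) / Q = A / Q - 1 / Q := by ring
          linarith
        have hQ0 : Q ≠ 0 := by linarith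
        set D : ℝ := A / Q + 1 - 1 / Q with hD
        have hQD : A + (Q - 1) = Q * D := by
          rw [hD]
          field_simp
          ring
        have hD0 : D ≠ 0 := h4.ne'
        have h10 : A * (1 / D) + (Q - 1) * (1 / D) = Q := by
          rw [← add_mul, hQD]
          field_simp
        exact h10.le
    · have hag' : ∀ c : F, ∀ i < d + q * j, a i = Function.update a m c i := by
        rw [hm]; exact hag
      obtain ⟨c₀, hc₀⟩ := value hq hT
      rw [hm] at hc₀
      have h3 : ∀ c, fac Q x G H K q (Function.update a m c) j d =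
          if IsP q (Function.update a m c) j d then Xf Q x H q (SS q a j) j d
            else Yf x K q (SS q a j) j d := by
        intro c
        unfold fac
        rw [if_neg hd.ne, if_pos (IsT_loc hq (hag' c) hT), Xf_loc (hag' c), Yf_loc (hag' c)]
      simp only [h3]
      apply sum_two (fun c => IsP q (Function.update a m c) j d)
      · intro c c' hc hc'
        rw [(hc₀ c).mp hc, (hc₀ c').mp hc']
      · unfold Xf Yf
        split_ifs with h4
        · refine (hrun _ ?_).2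
          refine card_pos.mpr ⟨d, mem_filter.mpr ⟨mem_inter.mpr ⟨h4.1, ?_⟩, le_rfl⟩⟩
          exact mem_filter.mpr ⟨hT.1, hT.2.1⟩
        · exact hdig2
      · rw [← hQ]
        unfold Xf Yf
        split_ifs with h4
        · refine (hrun _ ?_).1
          refine card_pos.mpr ⟨d, mem_filter.mpr ⟨mem_inter.mpr ⟨h4.1, ?_⟩, le_rfl⟩⟩
          exact mem_filter.mpr ⟨hT.1, hT.2.1⟩
        · exact hdig
  · have h1 : ∀ c, wt Q x G H K q j0 n m (Function.update a m c) = 1 := by
      intro c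
      unfold wt
      refine prod_eq_one (fun j hj => prod_eq_one (fun d hd => fac_one (fun h => hE ?_)))
      obtain ⟨h3, h4⟩ := mem_filter.mp hd
      refine ⟨j, d, (mem_Ioo.mp hj).1, (mem_Ioo.mp hj).2,
        Nat.lt_succ_iff.mp (mem_range.mp h3), h4, IsE_loc hq ?_ h⟩
      rw [h4]
      exact fun i hi => (hag c i hi).symm
    simp only [h1]
    simp [hQ]

end FS12
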