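import Pool.Agent.helper11.FS.Main4

open Polynomial Finset

namespace FS12

open FR11 FS11

variable {F : Type} [Field F]

/-- `d` is in `SS q a j`, not a class minimum, and everything smaller passes at step `j` -/
def IsB (q : ℕ) (a : ℕ → F) (j d : ℕ) : Prop :=
  d ∈ SS q a j ∧ (∃ d' < d, d' ∈ SS q a j ∧ d' % q = d % q) ∧
    (∀ h ∈ KK q a j, h.natDegree < d → phi q a j h = 0)

/-- everything up to degree `d` passes at step `j` -/
def PB (q : ℕ) (a : ℕ → F) (j d : ℕ) : Prop :=
  ∀ h ∈ KK q a j, h.natDegree ≤ d → phi q a j h = 0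

theorem IsB_loc {q : ℕ} {a a' : ℕ → F} {j d : ℕ} (hq : 2 ≤ q)
    (ha : ∀ m < d + q * j, a m = a' m) (hT : IsB q a j d) : IsB q a' j d := by
  obtain ⟨h1, ⟨d', hd', hS, hc⟩, h3⟩ := hT
  have hd : d < j := (mem_SS.mp h1).1
  have ha' : ∀ m < d + q * j, a' m = a m := fun m hm => (ha m hm).symm
  refine ⟨SS_loc hq hd ha le_rfl h1, ⟨d', hd', SS_loc hq hd ha hd'.le hS, hc⟩, ?_⟩
  intro h hK hlt
  obtain ⟨h4, h5⟩ := arith2 hq hd hlt
  rw [phi_loc h4 h5 ha']
  exact h3 h (KK_loc hq hd ha' hlt.le hK) hlt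

theorem PB_loc {q : ℕ} {a a' : ℕ → F} {j d : ℕ} (hq : 2 ≤ q) (hd : d < j)
    (ha : ∀ m ≤ d + q * j, a m = a' m) (hP : PB q a j d) : PB q a' j d := by
  have ha1' : ∀ m < d + q * j, a' m = a m := fun m hm => (ha m hm.le).symm
  have ha2' : ∀ m < d + q * j + 1, a' m = a m := fun m hm => (ha m (Nat.lt_succ_iff.mp hm)).symm
  intro h hK hle
  have h5 : q * h.natDegree ≤ q * d := Nat.mul_le_mul_left q hle
  have h6 := arith3 hq hd
  rw [phi_loc (M := d + q * j + 1) (by omega) (by omega) ha2']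
  exact hP h (KK_loc hq hd ha1' hle hK) hle

/-- at most one value of the digit `d + q j` lets `d` pass -/
theorem valueB {q : ℕ} {a : ℕ → F} {j d : ℕ} (hq : 2 ≤ q) (hT : IsB q a j d) {c c' : F}
    (hc : PB q (Function.update a (d + q * j) c) j d)
    (hc' : PB q (Function.update a (d + q * j) c') j d) : c = c' := by
  obtain ⟨hd, h, hh, h0, hdeg⟩ := mem_SS.mp hT.1
  have hagree : ∀ c : F, ∀ m < d + q * j, a m = Function.update a (d + q * j) c m := by
    intro c m hm
    rw [Function.update_of_ne hm.ne]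
  have hlam : h.coeff d ≠ 0 := by
    rw [← hdeg]
    exact fun h5 => h0 (leadingCoeff_eq_zero.mp h5)
  have hval : ∀ c : F, phi q (Function.update a (d + q * j) c) j h =
      h.coeff d * c + (h.coeff d * a (q * d + j) + ∑ i ∈ range d, h.coeff i * be q a i j) := by
    intro c
    rw [phi_eq q _ j h (n := d + 1) (by omega), sum_range_succ]
    have h1 : ∑ i ∈ range d, h.coeff i * be q (Function.update a (d + q * j) c) i j =
        ∑ i ∈ range d, h.coeff i * be q a i j := by
      refine sum_congr rfl (fun i hi => ?_)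
      obtain ⟨h4, h5⟩ := arith2 hq hd (mem_range.mp hi)
      unfold be
      rw [← hagree c _ h4, ← hagree c _ h5]
    rw [h1]
    unfold be
    rw [← hagree c _ (arith3 hq hd), Function.update_self]
    ring
  have h1 := hc h (KK_loc hq hd (hagree c) hdeg.le hh) hdeg.le
  have h2 := hc' h (KK_loc hq hd (hagree c') hdeg.le hh) hdeg.le
  rw [hval] at h1 h2
  have h3 : h.coeff d * (c - c') = 0 := by
    linear_combination h1 - h2
  rcases mul_eq_zero.mp h3 with h4 | h4
  · exact absurd h4 hlam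
  · exact sub_eq_zero.mp h4

open Classical in
/-- bonus factor -/
noncomputable def facB (Q : ℝ) (q : ℕ) (a : ℕ → F) (j d : ℕ) : ℝ :=
  if IsB q a j d then (if PB q a j d then Q else 0) else 1

/-- bonus weight of the digit `m` -/
noncomputable def wB (Q : ℝ) (q j : ℕ) (m : ℕ) (a : ℕ → F) : ℝ :=
  ∏ d ∈ (range j).filter (fun d => d + q * j = m), facB Q q a j d

theorem facB_nonneg {Q : ℝ} (hQ : 0 ≤ Q) (q : ℕ) (a : ℕ → F) (j d : ℕ) :
    0 ≤ facB Q q a j d := by
  unfold facB
  split_ifs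
  · exact hQ
  · exact le_rfl
  · exact zero_le_one

theorem wB_nonneg {Q : ℝ} (hQ : 0 ≤ Q) (q j m : ℕ) (a : ℕ → F) : 0 ≤ wB Q q j m a :=
  prod_nonneg (fun d _ => facB_nonneg hQ q a j d)

theorem facB_loc {Q : ℝ} {q : ℕ} (hq : 2 ≤ q) {a a' : ℕ → F} {j d : ℕ} (hd : d < j)
    (ha : ∀ m ≤ d + q * j, a m = a' m) : facB Q q a j d = facB Q q a' j d := by
  classical
  have ha1 : ∀ m < d + q * j, a m = a' m := fun m hm => ha m hm.le
  have ha1' : ∀ m < d + q * j, a' m = a m := fun m hm => (ha m hm.le).symm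
  have ha' : ∀ m ≤ d + q * j, a' m = a m := fun m hm => (ha m hm).symm
  have hT : IsB q a j d ↔ IsB q a' j d := ⟨IsB_loc hq ha1, IsB_loc hq ha1'⟩
  have hP : PB q a j d ↔ PB q a' j d := ⟨PB_loc hq hd ha, PB_loc hq hd ha'⟩
  unfold facB
  exact if_congr hT (if_congr hP rfl rfl) rfl

theorem wB_loc {Q : ℝ} {q j : ℕ} (hq : 2 ≤ q) (m : ℕ) (a a' : ℕ → F)
    (ha : ∀ i ≤ m, a i = a' i) : wB Q q j m a = wB Q q j m a' := by
  unfold wB
  refine prod_congr rfl (fun d hd => ?_)
  obtain ⟨h1, h2⟩ := mem_filter.mp hd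
  exact facB_loc hq (mem_range.mp h1) (by rw [h2]; exact ha)

theorem prod_wB {Q : ℝ} {q j T : ℕ} (hT : q * j + j ≤ T) (a : ℕ → F) :
    ∏ m ∈ range T, wB Q q j m a = ∏ d ∈ range j, facB Q q a j d := by
  unfold wB
  apply prod_fiberwise_of_maps_to
  intro d hd
  have h1 := mem_range.mp hd
  rw [mem_range]
  omega

theorem prod_wt' {Q x G H K : ℝ} {q j0 n T : ℕ} (hT : (q + 1) * n ≤ T) (a : ℕ → F) :
    ∏ m ∈ range T, wt Q x G H K q j0 n m a =
      ∏ j ∈ Ioo j0 n, ∏ d ∈ range (j + 1), fac Q x G H K q a j d := by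
  unfold wt
  rw [prod_comm]
  refine prod_congr rfl (fun j hj => ?_)
  apply prod_fiberwise_of_maps_to
  intro d hd
  have h1 := mem_range.mp hd
  have h2 := (mem_Ioo.mp hj).2
  rw [mem_range]
  have h3 : q * (j + 1) ≤ q * n := Nat.mul_le_mul_left q h2
  have h4 : (q + 1) * n = q * n + n := by ring
  have h5 : q * (j + 1) = q * j + q := by ring
  omega

/-- a bonus digit is not the digit of another event up to the horizon -/
theorem B_no_E {q : ℕ} (hq : 2 ≤ q) {a : ℕ → F} {j d j' d' : ℕ} (hB : IsB q a j d)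
    (hE : IsE q a j' d') (hj : j' ≤ j) (he : d + q * j = d' + q * j') : False := by
  obtain ⟨hdS, ⟨d0, hd0, hd0S, hd0c⟩, _⟩ := hB
  obtain ⟨hdj, h, hh, h0, hdeg⟩ := mem_SS.mp hdS
  have hmod : d % q = d' % q := by
    have h4 : (d + q * j) % q = d % q := Nat.add_mul_mod_self_left d q j
    have h5 : (d' + q * j') % q = d' % q := Nat.add_mul_mod_self_left d' q j'
    rw [← h4, ← h5, he]
  have hKS : d < j' → d ∈ SS q a j' := fun h1 =>
    mem_SS.mpr ⟨h1, h, KK_mono hj hh, h0, hdeg⟩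
  rcases Nat.lt_or_eq_of_le hj with hlt | heq
  · have h2 : q * (j' + 1) ≤ q * j := Nat.mul_le_mul_left q hlt
    have h3 : q * (j' + 1) = q * j' + q := by ring
    have hdd : d < d' := by omega
    rcases hE with ⟨h4, h5⟩ | ⟨h4, h5⟩
    · subst h4
      exact h5.2 ⟨d, hKS hdd, hmod⟩
    · exact h5.2.1 d hdd (hKS (by omega)) hmod
  · subst heq
    have hdd : d = d' := by omega
    subst hdd
    rcases hE with ⟨h4, h5⟩ | ⟨h4, h5⟩
    · omega
    · exact h5.2.1 d0 hd0 hd0S hd0c

theorem sum_W [Fintype F] (h2 : (2 : F) ≠ 0) {x G H K : ℝ} (hG : 1 ≤ G)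
    (hdig : x * H ^ 2 + ((Fintype.card F : ℝ) - 1) * (K / x) ≤ Fintype.card F)
    (hdig2 : K / x ≤ x * H ^ 2)
    (hrun : ∀ s : ℕ, 1 ≤ s → (Fintype.card F : ℝ) * s / (1 + s) +
      ((Fintype.card F : ℝ) - 1) * (K / (1 + s)) ≤ Fintype.card F ∧
      K / (1 + s) ≤ (Fintype.card F : ℝ) * s / (1 + s))
    {q j0 j : ℕ} (hq : 2 ≤ q) (m : ℕ) (a : ℕ → F) :
    ∑ c : F, wt (Fintype.card F) x G H K q j0 (j + 1) m (Function.update a m c) *
      wB (Fintype.card F) q j m (Function.update a m c) ≤ Fintype.card F := by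
  classical
  have hag : ∀ c : F, ∀ i < m, a i = Function.update a m c i := by
    intro c i hi
    rw [Function.update_of_ne hi.ne]
  by_cases hB : ∃ d, d + q * j = m ∧ IsB q a j d
  · obtain ⟨d, hm, hBd⟩ := hB
    have hdj : d < j := (mem_SS.mp hBd.1).1
    have hBc : ∀ c, IsB q (Function.update a m c) j d := fun c =>
      IsB_loc hq (by rw [hm]; exact hag c) hBd
    have h1 : ∀ c, wt (Fintype.card F : ℝ) x G H K q j0 (j + 1) m (Function.update a m c) *
        wB (Fintype.card F) q j m (Function.update a m c) =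
        @ite ℝ (PB q (Function.update a m c) j d) (Classical.propDecidable _)
          (Fintype.card F : ℝ) 0 := by
      intro c
      have h3 : wt (Fintype.card F : ℝ) x G H K q j0 (j + 1) m (Function.update a m c) = 1 := by
        unfold wt
        refine prod_eq_one (fun j' hj' => prod_eq_one (fun d' hd' => fac_one (fun h => ?_)))
        have h4 := (mem_filter.mp hd').2
        have h5 := (mem_Ioo.mp hj').2
        exact B_no_E hq (hBc c) h (by omega) (hm.trans h4.symm)
      have h4 : wB (Fintype.card F : ℝ) q j m (Function.update a m c) =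
          facB (Fintype.card F : ℝ) q (Function.update a m c) j d := by
        unfold wB
        rw [prod_eq_single d]
        · intro d' hd' hne
          exact absurd (by have := (mem_filter.mp hd').2; omega) hne
        · intro h
          exact absurd (mem_filter.mpr ⟨mem_range.mpr hdj, hm⟩) h
      rw [h3, h4, one_mul]
      unfold facB
      rw [if_pos (hBc c)]
    simp only [h1]
    apply sum_two (fun c => PB q (Function.update a m c) j d)
    · intro c c' hc hc'
      rw [← hm] at hc hc'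
      exact valueB hq hBd hc hc'
    · exact Nat.cast_nonneg _
    · rw [mul_zero, add_zero]
  · have h1 : ∀ c, wB (Fintype.card F : ℝ) q j m (Function.update a m c) = 1 := by
      intro c
      unfold wB
      refine prod_eq_one (fun d hd => ?_)
      have h3 := (mem_filter.mp hd).2
      unfold facB
      rw [if_neg]
      intro h4
      refine hB ⟨d, h3, IsB_loc hq ?_ h4⟩
      rw [h3]
      exact fun i hi => (hag c i hi).symm
    simp only [h1, mul_one]
    exact wt_sum h2 hG hdig hdig2 hrun hq m a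

/-- no loss at step `j` -/
def NL (q : ℕ) (a : ℕ → F) (j : ℕ) : Prop := ∀ h ∈ KK q a j, h.natDegree < j → phi q a j h = 0

theorem prod_bonus {Q : ℝ} (hQ : 1 ≤ Q) {q : ℕ} (hq : 2 ≤ q) {a : ℕ → F} {j : ℕ}
    (hN : NL q a j) :
    Q ^ (SS q a (j + 1)).card ≤ Q ^ (q + 1) * ∏ d ∈ range j, facB Q q a j d := by
  classical
  have hS : SS q a j ⊆ range j := by
    intro d hd
    exact mem_range.mpr (mem_SS.mp hd).1
  have h1 : ∏ d ∈ range j, facB Q q a j d = Q ^ ((SS q a j) \ (mins q (SS q a j))).card := by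
    have h2 : ∀ d ∈ range j, facB Q q a j d =
        if d ∈ (SS q a j) \ (mins q (SS q a j)) then Q else 1 := by
      intro d hd
      have hdj := mem_range.mp hd
      have h3 : IsB q a j d ↔ d ∈ (SS q a j) \ (mins q (SS q a j)) := by
        rw [mem_sdiff]
        constructor
        · rintro ⟨h4, ⟨d', h5, h6, h7⟩, _⟩
          exact ⟨h4, fun h8 => (mem_filter.mp h8).2 d' h5 h6 h7⟩
        · rintro ⟨h4, h5⟩
          refine ⟨h4, ?_, fun h hK hlt => hN h hK (hlt.trans hdj)⟩
          by_contra hcon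
          push Not at hcon
          exact h5 (mem_filter.mpr ⟨h4, fun d' h6 h7 => hcon d' h6 h7⟩)
      unfold facB
      by_cases h4 : IsB q a j d
      · rw [if_pos h4, if_pos (h3.mp h4), if_pos]
        exact fun h hK hle => hN h hK (lt_of_le_of_lt hle hdj)
      · rw [if_neg h4, if_neg (fun h5 => h4 (h3.mpr h5))]
    rw [prod_congr rfl h2, prod_ite, prod_const_one, mul_one, prod_const]
    congr 2
    ext d
    rw [mem_filter]
    constructor
    · exact fun h => h.2
    · exact fun h => ⟨hS (mem_sdiff.mp h).1, h⟩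
  rw [h1, ← pow_add]
  apply pow_le_pow_right₀ hQ
  have h3 : (SS q a (j + 1)).card ≤ (SS q a j).card + 1 := by
    rcases FR11.trans q a j with ⟨_, hsub⟩ | ⟨e, _, _, _, hsub⟩
    · exact (card_le_card hsub).trans (card_insert_le _ _)
    · exact (card_le_card (hsub.trans (erase_subset _ _))).trans (Nat.le_succ _)
  have h4 : (mins q (SS q a j)).card ≤ q := by
    rw [card_mins]
    unfold cl
    have h5 : (SS q a j).image (fun d => d % q) ⊆ range q := by
      intro y hy
      obtain ⟨d, _, rfl⟩ := mem_image.mp hy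
      exact mem_range.mpr (Nat.mod_lt _ (by omega))
    have h6 := card_le_card h5
    rwa [card_range] at h6
  have h5 := card_le_card_sdiff_add_card (s := SS q a j) (t := mins q (SS q a j))
  omega

/-- the horizon estimate -/
theorem horizon [Fintype F] (h2 : (2 : F) ≠ 0) {q : ℕ} (hq2 : 2 ≤ q) {x G H K : ℝ}
    (hQ1 : 1 ≤ (Fintype.card F : ℝ)) (hG : 1 ≤ G)
    (hK : 1 ≤ K) (hH : H ^ 2 = K * G) (hH1 : 1 ≤ H) (hKx : K ≤ x)
    (hxQ : x ≤ Fintype.card F) (hbig : x ≤ G ^ ((q - 2).choose 2))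
    (hcor : ∀ τ t c : ℕ, τ ≤ t → t ≤ c → 1 ≤ c →
      K * ((2 + (τ : ℝ)) * G ^ (t - 1) / (Fintype.card F : ℝ) + 1 - 1 / (Fintype.card F : ℝ)) *
        x ^ τ ≤ (K * G) ^ (c - τ) * (Fintype.card F : ℝ) ^ τ)
    (hdig : x * H ^ 2 + ((Fintype.card F : ℝ) - 1) * (K / x) ≤ Fintype.card F)
    (hdig2 : K / x ≤ x * H ^ 2)
    (hrun : ∀ s : ℕ, 1 ≤ s → (Fintype.card F : ℝ) * s / (1 + s) +
      ((Fintype.card F : ℝ) - 1) * (K / (1 + s)) ≤ Fintype.card F ∧
      K / (1 + s) ≤ (Fintype.card F : ℝ) * s / (1 + s))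
    {T j : ℕ} (hT : (q + 1) * (j + 1) ≤ T) {B : ℝ}
    (hB : ∑ j0 ∈ range (j + 1), 2 * (1 / K) ^ (j + 1 - 1 - j0) ≤ B) :
    ∑ α : Fin T → F, (open Classical in if NL q (ex T α) j then
        ((Fintype.card F : ℝ) * x ^ q) ^ (SS q (ex T α) (j + 1)).card else 0) ≤
      ((Fintype.card F : ℝ) ^ (q + 1) * (x ^ (q * q) * x ^ q)) * (1 + B) *
        (Fintype.card F : ℝ) ^ T := by
  classical
  set Q : ℝ := (Fintype.card F : ℝ) with hQd
  have hx : 1 ≤ x := hK.trans hKx
  have hx0 : 0 < x := by linarith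
  have hK0 : 0 < K := by linarith
  have hQ0 : 0 ≤ Q := by linarith
  have hTree : ∀ j0, ∑ α : Fin T → F,
      ∏ m ∈ range T, (wt Q x G H K q j0 (j + 1) m (ex T α) * wB Q q j m (ex T α)) ≤ Q ^ T := by
    intro j0
    exact tree T (fun m a => wt Q x G H K q j0 (j + 1) m a * wB Q q j m a)
      (fun m a => mul_nonneg (wt_nonneg hQ1 hx0.le hG hK0.le m a) (wB_nonneg hQ0 q j m a))
      (fun m a a' h => by
        show wt Q x G H K q j0 (j + 1) m a * wB Q q j m a =
          wt Q x G H K q j0 (j + 1) m a' * wB Q q j m a'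
        rw [wt_loc hq2 m a a' h, wB_loc hq2 m a a' h])
      (fun m a => sum_W h2 hG hdig hdig2 hrun hq2 m a)
  have hpt : ∀ a : ℕ → F, (if NL q a j then (Q * x ^ q) ^ (SS q a (j + 1)).card else 0) ≤
      (Q ^ (q + 1) * (x ^ (q * q) * x ^ q)) *
        (∏ m ∈ range T, (wt Q x G H K q (j + 1) (j + 1) m a * wB Q q j m a) +
          ∑ j0 ∈ range (j + 1), 2 * (1 / K) ^ (j + 1 - 1 - j0) *
            ∏ m ∈ range T, (wt Q x G H K q j0 (j + 1) m a * wB Q q j m a)) := by
    intro a
    have hWB0 : 0 ≤ ∏ m ∈ range T, wB Q q j m a := prod_nonneg (fun m _ => wB_nonneg hQ0 q j m a)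
    by_cases hN : NL q a j
    · rw [if_pos hN]
      have hS : SS q a (j + 1) ⊆ range (j + 1) := by
        intro d hd
        exact mem_range.mpr (mem_SS.mp hd).1
      have h3 := Vt_end hx hG hq2 hS
      have h4 := Vt_le hq2 a (j + 1) hG hK hH hH1 hKx hxQ hbig hcor
      have h5 := prod_bonus hQ1 hq2 hN
      have hTj : q * j + j ≤ T := by
        have h6 : (q + 1) * (j + 1) = q * j + j + (q + 1) := by ring
        omega
      rw [← prod_wB hTj a] at h5
      have h6 : ∀ j0, ∏ m ∈ range ((q + 1) * (j + 1)), wt Q x G H K q j0 (j + 1) m a =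
          ∏ m ∈ range T, wt Q x G H K q j0 (j + 1) m a := by
        intro j0
        rw [prod_wt, prod_wt' hT]
      have h7 : ∏ m ∈ range T, wt Q x G H K q (j + 1) (j + 1) m a = 1 := by
        rw [prod_wt' hT]
        simp
      simp only [h6] at h4
      simp only [prod_mul_distrib]
      rw [h7, one_mul]
      set WB := ∏ m ∈ range T, wB Q q j m a with hWB
      set N := (SS q a (j + 1)).card with hNd
      have h8 : (Q * x ^ q) ^ N = Q ^ N * x ^ (q * N) := by
        rw [mul_pow, ← pow_mul]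
      rw [h8]
      have h9 : x ^ (q * N) ≤ x ^ (q * q) * x ^ q *
          (1 + ∑ j0 ∈ range (j + 1), 2 * (1 / K) ^ (j + 1 - 1 - j0) *
            ∏ m ∈ range T, wt Q x G H K q j0 (j + 1) m a) :=
        h3.trans (mul_le_mul_of_nonneg_left h4 (by positivity))
      have h10 : Q ^ N * x ^ (q * N) ≤ (Q ^ (q + 1) * WB) * (x ^ (q * q) * x ^ q *
          (1 + ∑ j0 ∈ range (j + 1), 2 * (1 / K) ^ (j + 1 - 1 - j0) *
            ∏ m ∈ range T, wt Q x G H K q j0 (j + 1) m a)) :=
        mul_le_mul h5 h9 (by positivity) (by positivity)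
      refine h10.trans (le_of_eq ?_)
      have h11 : ∑ j0 ∈ range (j + 1), 2 * (1 / K) ^ (j + 1 - 1 - j0) *
          ((∏ m ∈ range T, wt Q x G H K q j0 (j + 1) m a) * WB) =
          (∑ j0 ∈ range (j + 1), 2 * (1 / K) ^ (j + 1 - 1 - j0) *
            ∏ m ∈ range T, wt Q x G H K q j0 (j + 1) m a) * WB := by
        rw [sum_mul]
        exact sum_congr rfl (fun j0 _ => by ring)
      rw [h11]
      ring
    · rw [if_neg hN]
      have h3 : ∀ j0, 0 ≤ ∏ m ∈ range T, (wt Q x G H K q j0 (j + 1) m a * wB Q q j m a) :=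
        fun j0 => prod_nonneg (fun m _ =>
          mul_nonneg (wt_nonneg hQ1 hx0.le hG hK0.le m a) (wB_nonneg hQ0 q j m a))
      apply mul_nonneg (by positivity)
      apply add_nonneg (h3 _)
      exact sum_nonneg (fun j0 _ => mul_nonneg (by positivity) (h3 j0))
  calc ∑ α : Fin T → F, (if NL q (ex T α) j then
        (Q * x ^ q) ^ (SS q (ex T α) (j + 1)).card else 0)
      ≤ ∑ α : Fin T → F, (Q ^ (q + 1) * (x ^ (q * q) * x ^ q)) *
        (∏ m ∈ range T, (wt Q x G H K q (j + 1) (j + 1) m (ex T α) * wB Q q j m (ex T α)) +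
          ∑ j0 ∈ range (j + 1), 2 * (1 / K) ^ (j + 1 - 1 - j0) *
            ∏ m ∈ range T, (wt Q x G H K q j0 (j + 1) m (ex T α) * wB Q q j m (ex T α))) :=
        sum_le_sum (fun α _ => hpt (ex T α))
    _ = (Q ^ (q + 1) * (x ^ (q * q) * x ^ q)) *
        (∑ α : Fin T → F,
          ∏ m ∈ range T, (wt Q x G H K q (j + 1) (j + 1) m (ex T α) * wB Q q j m (ex T α)) +
          ∑ j0 ∈ range (j + 1), 2 * (1 / K) ^ (j + 1 - 1 - j0) * ∑ α : Fin T → F,
            ∏ m ∈ range T, (wt Q x G H K q j0 (j + 1) m (ex T α) * wB Q q j m (ex T α))) := by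
        rw [← mul_sum, sum_add_distrib, sum_comm]
        congr 2
        refine sum_congr rfl (fun j0 _ => ?_)
        rw [mul_sum]
    _ ≤ (Q ^ (q + 1) * (x ^ (q * q) * x ^ q)) *
        (Q ^ T + ∑ j0 ∈ range (j + 1), 2 * (1 / K) ^ (j + 1 - 1 - j0) * Q ^ T) := by
        apply mul_le_mul_of_nonneg_left _ (by positivity)
        apply add_le_add (hTree _)
        apply sum_le_sum
        intro j0 _
        exact mul_le_mul_of_nonneg_left (hTree j0) (by positivity)
    _ = (Q ^ (q + 1) * (x ^ (q * q) * x ^ q)) *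
        (1 + ∑ j0 ∈ range (j + 1), 2 * (1 / K) ^ (j + 1 - 1 - j0)) * Q ^ T := by
        rw [← sum_mul]
        ring
    _ ≤ (Q ^ (q + 1) * (x ^ (q * q) * x ^ q)) * (1 + B) * Q ^ T := by
        apply mul_le_mul_of_nonneg_right _ (by positivity)
        apply mul_le_mul_of_nonneg_left _ (by positivity)
        linarith

/-- splitting at the last step without loss -/
theorem split {y : ℝ} (hy : 1 ≤ y) {q : ℕ} (a : ℕ → F) (n : ℕ) :
    y ^ (SS q a (n + 1)).card ≤ ∑ j ∈ range (n + 1),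
      (open Classical in if NL q a j then y ^ (SS q a (j + 1)).card else 0) *
        (1 / y) ^ (n - j) := by
  classical
  have hy0 : 0 < y := by linarith
  induction n with
  | zero =>
    rw [sum_range_one, if_pos, Nat.sub_self, pow_zero, mul_one]
    intro h _ hlt
    omega
  | succ n ih =>
    rw [sum_range_succ, Nat.sub_self, pow_zero, mul_one]
    have hnn : 0 ≤ ∑ j ∈ range (n + 1),
        (if NL q a j then y ^ (SS q a (j + 1)).card else 0) * (1 / y) ^ (n + 1 - j) := by
      refine sum_nonneg (fun j _ => mul_nonneg ?_ (by positivity))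
      split_ifs
      · positivity
      · exact le_rfl
    by_cases hN : NL q a (n + 1)
    · rw [if_pos hN]
      linarith
    · rw [if_neg hN, add_zero]
      have h1 : (SS q a (n + 1 + 1)).card + 1 ≤ (SS q a (n + 1)).card := by
        rcases FR11.trans q a (n + 1) with ⟨h2, _⟩ | ⟨e, he, _, _, hsub⟩
        · exact absurd h2 hN
        · have h3 := card_le_card hsub
          rw [card_erase_of_mem he] at h3
          have h4 : 1 ≤ (SS q a (n + 1)).card := card_pos.mpr ⟨e, he⟩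
          omega
      have h2 : y ^ (SS q a (n + 1 + 1)).card ≤ y ^ (SS q a (n + 1)).card * (1 / y) := by
        rw [mul_one_div, le_div_iff₀ hy0, ← pow_succ]
        exact pow_le_pow_right₀ hy h1
      refine h2.trans ((mul_le_mul_of_nonneg_right ih (by positivity)).trans (le_of_eq ?_))
      rw [sum_mul]
      refine sum_congr rfl (fun j hj => ?_)
      have h3 : n + 1 - j = (n - j) + 1 := by
        have := mem_range.mp hj
        omega
      rw [h3, pow_succ]
      ring

/-- the main estimate with the additional digits -/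
theorem main_est5 [Fintype F] (h2 : (2 : F) ≠ 0) (q n : ℕ) (hQ : 9 ≤ Fintype.card F)
    (hq : Fintype.card F ≤ q) :
    ∑ α : Fin ((q + 1) * n) → F,
        (((Fintype.card F : ℝ) * ((Fintype.card F : ℝ) - 2) ^ q) ^ (SS q (ex _ α) n).card) ≤
      (2 * (Fintype.card F : ℝ) ^ (q + 1) *
        (((Fintype.card F : ℝ) - 2) ^ (q * q) * ((Fintype.card F : ℝ) - 2) ^ q *
        (1 + 2 * (2 * (Fintype.card F : ℝ) ^ 2 + 1)))) * (Fintype.card F : ℝ) ^ ((q + 1) * n) := by
  classical
  have hq2 : 2 ≤ q := by omega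
  set Q : ℝ := (Fintype.card F : ℝ) with hQd
  have hQ9 : (9 : ℝ) ≤ Q := by
    rw [hQd]
    exact_mod_cast hQ
  have hQ0 : 0 < Q := by linarith
  set x : ℝ := Q - 2 with hxd
  set G : ℝ := 1 + 1 / Q with hGd
  set K : ℝ := 1 + 1 / (2 * Q ^ 2) with hKd
  have hinv0 : 0 < 1 / Q := by positivity
  have hinv1 : 1 / Q ≤ 1 := by
    rw [div_le_one hQ0]; linarith
  have hinv2 : 0 < 1 / (2 * Q ^ 2) := by positivity
  have hinv3 : 1 / (2 * Q ^ 2) ≤ 1 := by
    rw [div_le_one (by positivity)]; nlinarith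
  have hG : 1 ≤ G := by rw [hGd]; linarith
  have hK : 1 ≤ K := by rw [hKd]; linarith
  have hK1 : 1 < K := by rw [hKd]; linarith
  have hKx : K ≤ x := by rw [hKd, hxd]; linarith
  have hx : 1 ≤ x := hK.trans hKx
  have hx0 : 0 < x := by linarith
  have hxQ : x ≤ Q := by rw [hxd]; linarith
  have hG0 : 0 < G := by linarith
  have hK0 : 0 < K := by linarith
  have hKG1 : 1 ≤ K * G := by nlinarith
  set H : ℝ := Real.sqrt (K * G) with hHd
  have hH : H ^ 2 = K * G := Real.sq_sqrt (by positivity)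
  have hH1 : 1 ≤ H := by
    rw [hHd]
    exact Real.one_le_sqrt.mpr hKG1
  have hbig : x ≤ G ^ ((q - 2).choose 2) := n4_big hQ hq
  have hcor : ∀ τ t c : ℕ, τ ≤ t → t ≤ c → 1 ≤ c →
      K * ((2 + (τ : ℝ)) * G ^ (t - 1) / Q + 1 - 1 / Q) * x ^ τ ≤ (K * G) ^ (c - τ) * Q ^ τ :=
    fun τ t c h1 h3 h4 => n3_corner hQ9 h1 h3 h4
  have hdig : x * H ^ 2 + (Q - 1) * (K / x) ≤ Q := by
    rw [hH]
    exact n3_digit hQ9
  have hdig2 : K / x ≤ x * H ^ 2 := by
    have h3 : K / x ≤ 1 := by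
      rw [div_le_one hx0]; exact hKx
    have h4 : (1 : ℝ) ≤ x * H ^ 2 := by
      rw [hH]; nlinarith
    linarith
  have hrun : ∀ s : ℕ, 1 ≤ s → Q * s / (1 + s) + (Q - 1) * (K / (1 + s)) ≤ Q ∧
      K / (1 + s) ≤ Q * s / (1 + s) := by
    intro s hs
    refine ⟨n3_run hQ9 s, ?_⟩
    have hs1 : (1 : ℝ) ≤ s := by exact_mod_cast hs
    apply div_le_div_of_nonneg_right _ (by positivity)
    nlinarith
  have hgeo : ∀ n : ℕ, ∑ j0 ∈ range n, 2 * (1 / K) ^ (n - 1 - j0) ≤ 2 * (2 * Q ^ 2 + 1) := by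
    intro n
    rw [← mul_sum, sum_range_reflect (fun i => (1 / K) ^ i) n]
    have hρne : 1 / K ≠ 1 := by
      have h3 : 1 / K < 1 := by
        rw [div_lt_one hK0]; exact hK1
      exact h3.ne
    rw [geom_sum_eq hρne]
    have h1 : ((1 / K) ^ n - 1) / (1 / K - 1) = (1 - (1 / K) ^ n) * (2 * Q ^ 2 + 1) := by
      have h3 : 1 / K - 1 = -(1 / (2 * Q ^ 2 + 1)) := by
        rw [hKd]
        field_simp
        ring
      rw [h3]
      field_simp
      ring
    rw [h1]
    have h3 : 0 ≤ (1 / K) ^ n := by positivity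
    have h4 : 0 ≤ 2 * Q ^ 2 + 1 := by positivity
    nlinarith
  set y : ℝ := Q * x ^ q with hyd
  have hy2 : 2 ≤ y := by
    have h3 : 1 ≤ x ^ q := one_le_pow₀ hx
    rw [hyd]
    nlinarith
  have hy0 : 0 < y := by linarith
  set C : ℝ := (Q ^ (q + 1) * (x ^ (q * q) * x ^ q)) * (1 + 2 * (2 * Q ^ 2 + 1)) with hCd
  have hC1 : 1 ≤ C := by
    have h3 : 1 ≤ Q ^ (q + 1) := one_le_pow₀ (by linarith)
    have h4 : 1 ≤ x ^ (q * q) * x ^ q := by
      rw [← pow_add]
      exact one_le_pow₀ hx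
    have h5 : 1 ≤ 1 + 2 * (2 * Q ^ 2 + 1) := by nlinarith
    have h6 : 1 ≤ Q ^ (q + 1) * (x ^ (q * q) * x ^ q) := by nlinarith
    rw [hCd]
    nlinarith
  have hC2 : 2 * Q ^ (q + 1) * (x ^ (q * q) * x ^ q * (1 + 2 * (2 * Q ^ 2 + 1))) = 2 * C := by
    rw [hCd]
    ring
  rw [hC2]
  rcases n with _ | n
  · have h3 : ∀ α : Fin ((q + 1) * 0) → F, y ^ (SS q (ex _ α) 0).card = 1 := by
      intro α
      rw [SS_zero, card_empty, pow_zero]
    rw [sum_congr rfl (fun α _ => h3 α)]
    simp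
    linarith
  · calc ∑ α : Fin ((q + 1) * (n + 1)) → F, y ^ (SS q (ex _ α) (n + 1)).card
        ≤ ∑ α : Fin ((q + 1) * (n + 1)) → F, ∑ j ∈ range (n + 1),
          (if NL q (ex _ α) j then y ^ (SS q (ex _ α) (j + 1)).card else 0) *
            (1 / y) ^ (n - j) := sum_le_sum (fun α _ => split (by linarith) (ex _ α) n)
      _ = ∑ j ∈ range (n + 1), (∑ α : Fin ((q + 1) * (n + 1)) → F,
          (if NL q (ex _ α) j then y ^ (SS q (ex _ α) (j + 1)).card else 0)) *
            (1 / y) ^ (n - j) := by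
          rw [sum_comm]
          refine sum_congr rfl (fun j _ => ?_)
          rw [sum_mul]
      _ ≤ ∑ j ∈ range (n + 1), (C * Q ^ ((q + 1) * (n + 1))) * (1 / y) ^ (n - j) := by
          refine sum_le_sum (fun j hj => ?_)
          apply mul_le_mul_of_nonneg_right _ (by positivity)
          have hj' := mem_range.mp hj
          exact horizon h2 hq2 (by linarith) hG hK hH hH1 hKx hxQ hbig hcor hdig hdig2 hrun
            (Nat.mul_le_mul_left (q + 1) hj') (hgeo (j + 1))
      _ = (C * Q ^ ((q + 1) * (n + 1))) * ∑ j ∈ range (n + 1), (1 / y) ^ j := by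
          rw [← mul_sum, ← sum_range_reflect (fun i => (1 / y) ^ i) (n + 1)]
          rfl
      _ ≤ (C * Q ^ ((q + 1) * (n + 1))) * 2 := by
          apply mul_le_mul_of_nonneg_left _ (by positivity)
          have h4 : 1 / y ≤ 1 / 2 := one_div_le_one_div_of_le (by norm_num) hy2
          have h5 : 0 ≤ 1 / y := by positivity
          calc ∑ j ∈ range (n + 1), (1 / y) ^ j ≤ ∑ j ∈ range (n + 1), (1 / 2 : ℝ) ^ j :=
              sum_le_sum (fun j _ => pow_le_pow_left₀ h5 h4 j)
            _ ≤ 2 := sum_geometric_two_le (n + 1)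
      _ = 2 * C * Q ^ ((q + 1) * (n + 1)) := by ring

end FS12
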